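import Pool.Agent.MCN.Stmts

/-! Soundness of all axioms of the checker, from the soundness modules -/

set_option autoImplicit false

namespace Pool.Agent.MCN

namespace Axs_

theorem memN_iff (l : ℕ) (L : List ℕ) : memN l L = true ↔ l ∈ L := by
  induction L with
  | nil => simp [memN]
  | cons a t ih =>
    simp only [memN, List.mem_cons]
    cases h : Nat.beq a l
    · simp only [cond_false]
      rw [ih]
      have : a ≠ l := by
        intro e
        subst e
        rw [Nat.beq_refl] at h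
        exact Bool.noConfusion h
      constructor
      · exact Or.inr
      · rintro (e | e)
        · exact absurd e.symm this
        · exact e
    · simp only [cond_true, true_iff]
      exact Or.inl (Nat.eq_of_beq_eq_true h).symm

theorem blt_iff (a b : ℕ) : Nat.blt a b = true ↔ a < b := by
  unfold Nat.blt
  rw [Nat.ble_eq]
  omega

theorem ne2_iff (a b : ℕ) : ne2 a b = true ↔ a ≠ b := by
  unfold ne2
  cases h : Nat.beq a b
  · simp only [cond_false, true_iff]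
    intro e
    subst e
    rw [Nat.beq_refl] at h
    exact Bool.noConfusion h
  · simp only [cond_true]
    have := Nat.eq_of_beq_eq_true h
    simp [this]

theorem inc4_iff (a b c d m : ℕ) : inc4 a b c d m = true ↔ a < b ∧ b < c ∧ c < d ∧ d < m := by
  simp only [inc4, Bool.and_eq_true, blt_iff]

theorem cond_some {b : Bool} {x c : List ℕ} (h : (bif b then some x else none) = some c) :
    b = true ∧ x = c := by
  cases b
  · simp at h
  · simpa using h

end Axs_

open Axs_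

/-- all axioms of the checker are true -/
theorem axs_proof (hwd : Stmt_Swd) (hxr : Stmt_Sxr) (hsg : Stmt_Ssg) (hod : Stmt_Sod)
    (hex : Stmt_Sex) (hns : Stmt_Sns) (h7 : Stmt_S7) (h8 : Stmt_S8)
    (K : Type) [Field K] [LinearOrder K] [IsStrictOrderedRing K]
    (g : Fin 3 → ℕ → Fin 5 → K) (hg : Hcf g) (h : ℕ) (c : List ℕ) (hc : axh h = some c) :
    Tr (rho g) c := by
  unfold axh at hc
  generalize h % 32 = k at hc
  generalize h / 32 % 8 = a at hc
  generalize h / 256 % 8 = b at hc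
  generalize h / 2048 % 8 = c' at hc
  generalize h / 16384 % 8 = d at hc
  generalize h / 131072 % 8 = e at hc
  generalize h / 1048576 = u at hc
  unfold ax at hc
  split at hc
  · obtain ⟨h1, rfl⟩ := cond_some hc
    simp only [Bool.and_eq_true, memN_iff, blt_iff] at h1
    exact hwd K g hg 0 u a (by norm_num) h1.1 h1.2
  · obtain ⟨h1, rfl⟩ := cond_some hc
    simp only [Bool.and_eq_true, memN_iff, blt_iff] at h1
    exact hwd K g hg 1 u a (by norm_num) h1.1 h1.2
  · obtain ⟨h1, rfl⟩ := cond_some hc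
    simp only [Bool.and_eq_true, blt_iff] at h1
    exact hxr K g 0 _ _ h1.1 (by omega)
  · obtain ⟨h1, rfl⟩ := cond_some hc
    simp only [Bool.and_eq_true, blt_iff] at h1
    exact hxr K g 1 _ _ h1.1 (by omega)
  · obtain ⟨h1, rfl⟩ := cond_some hc
    simp only [Bool.and_eq_true, blt_iff] at h1
    exact hxr K g 2 _ _ h1.1 (by omega)
  · obtain ⟨h1, rfl⟩ := cond_some hc
    simp only [Bool.and_eq_true, blt_iff] at h1
    exact hxr K g 3 _ _ h1.1 (by omega)
  · obtain ⟨h1, rfl⟩ := cond_some hc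
    simp only [Bool.and_eq_true, blt_iff, inc4_iff] at h1
    obtain ⟨⟨i1, i2, i3, i4⟩, i5⟩ := h1
    exact hsg K g hg 0 u a b c' d (by norm_num) i5 i1 i2 i3 i4
  · obtain ⟨h1, rfl⟩ := cond_some hc
    simp only [Bool.and_eq_true, blt_iff, inc4_iff] at h1
    obtain ⟨⟨i1, i2, i3, i4⟩, i5⟩ := h1
    exact hsg K g hg 1 u a b c' d (by norm_num) i5 i1 i2 i3 i4
  · obtain ⟨h1, rfl⟩ := cond_some hc
    simp only [Bool.and_eq_true, blt_iff, inc4_iff] at h1
    obtain ⟨⟨i1, i2, i3, i4⟩, i5⟩ := h1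
    exact hod K g hg 0 u a b c' d e (by norm_num) i5 i1 i2 i3 i4
  · obtain ⟨h1, rfl⟩ := cond_some hc
    simp only [Bool.and_eq_true, blt_iff, inc4_iff] at h1
    obtain ⟨⟨i1, i2, i3, i4⟩, i5⟩ := h1
    exact hod K g hg 1 u a b c' d e (by norm_num) i5 i1 i2 i3 i4
  · obtain ⟨h1, rfl⟩ := cond_some hc
    simp only [dist4, Bool.and_eq_true, blt_iff, ne2_iff] at h1
    obtain ⟨i1, i2, i3, i4, -⟩ := h1
    exact hex K g hg u a b c' d i1 i2 i3 i4
  · obtain ⟨h1, rfl⟩ := cond_some hc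
    simp only [Bool.and_eq_true, blt_iff] at h1
    obtain ⟨i1, i2, i3, i4⟩ := h1
    have j2 := Nat.eq_of_beq_eq_true i2
    have j3 := Nat.eq_of_beq_eq_true i3
    have j4 := Nat.eq_of_beq_eq_true i4
    refine hns K g hg u a i1 ?_ ?_ ?_ <;> · unfold lt; ext; simpa [Fin.ofNat]
  · obtain ⟨h1, rfl⟩ := cond_some hc
    simp only [dist5, dist4, Bool.and_eq_true, blt_iff, ne2_iff] at h1
    obtain ⟨⟨i1, i2, i3, i4, i5, i6, i7, i8, i9, i10⟩, i11, i12, i13, i14, i15⟩ := h1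
    exact (h7 K g hg u a b c' d e i1 i2 i3 i4 i11 i5 i6 i7 i12 i8 i9 i13 i10 i14 i15).1
  · obtain ⟨h1, rfl⟩ := cond_some hc
    simp only [dist5, dist4, Bool.and_eq_true, blt_iff, ne2_iff] at h1
    obtain ⟨⟨i1, i2, i3, i4, i5, i6, i7, i8, i9, i10⟩, i11, i12, i13, i14, i15⟩ := h1
    exact (h7 K g hg u a b c' d e i1 i2 i3 i4 i11 i5 i6 i7 i12 i8 i9 i13 i10 i14 i15).2
  · obtain ⟨h1, rfl⟩ := cond_some hc
    simp only [dist5, dist4, Bool.and_eq_true, blt_iff, ne2_iff] at h1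
    obtain ⟨⟨i1, i2, i3, i4, i5, i6, i7, i8, i9, i10⟩, i11, i12, i13, i14, i15⟩ := h1
    exact (h8 K g hg u a b c' d e i1 i2 i3 i4 i11 i5 i6 i7 i12 i8 i9 i13 i10 i14 i15).1
  · obtain ⟨h1, rfl⟩ := cond_some hc
    simp only [dist5, dist4, Bool.and_eq_true, blt_iff, ne2_iff] at h1
    obtain ⟨⟨i1, i2, i3, i4, i5, i6, i7, i8, i9, i10⟩, i11, i12, i13, i14, i15⟩ := h1
    exact (h8 K g hg u a b c' d e i1 i2 i3 i4 i11 i5 i6 i7 i12 i8 i9 i13 i10 i14 i15).2
  · simp only [Option.some.injEq] at hc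
    subst hc
    refine ⟨3, by simp, ?_⟩
    have : lT (rho g) (2 * 1 + 1) ↔ ¬ rho g 1 := lT_neg _ 1
    rw [show (3 : ℕ) = 2 * 1 + 1 by norm_num, this]
    simp [rho]
  · simp at hc

/-- the final assembly -/
theorem fin_proof (frz : Stmt_Frz) (per : Stmt_Per) (kon : Stmt_Kon) (hoa : Stmt_Hoa)
    (grb : Stmt_Grb) (nsc : Stmt_Nsc) (hob : Stmt_Hob) (chk : Stmt_Chk)
    (hwd : Stmt_Swd) (hxr : Stmt_Sxr) (hsg : Stmt_Ssg) (hod : Stmt_Sod)
    (hex : Stmt_Sex) (hns : Stmt_Sns) (h7 : Stmt_S7) (h8 : Stmt_S8)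
    (D : List (List ℕ × List ℕ)) (hD : run D [] = true) : ¬ Fz := by
  intro h
  have h1 := frz h
  have h2 : ∀ k : ℕ, ∃ g : Fin 3 → ℕ → Fin 5 → ℝ, GenK k g ∧ WrdK k g := by
    intro k
    obtain ⟨g, hg⟩ := h1 k
    exact per k g hg
  obtain ⟨K, _, _, _, g, hg, hw⟩ := kon h2
  obtain ⟨g1, h11, h12, h13, h14⟩ := hoa K g hg hw
  have h15 := grb K g1 h11 h13 h14
  obtain ⟨L, _, _, _, g2, h21, h22, h23⟩ := nsc K g1 h11 h12 h15
  obtain ⟨g3, h3⟩ := hob L g2 h21 h22 h23
  exact chk (rho g3) (axs_proof hwd hxr hsg hod hex hns h7 h8 L g3 h3) D hD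

end Pool.Agent.MCN
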