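import Pool.Agent.MCN.Defs

/-! Basic lemmas used by several modules (all proved) -/

set_option autoImplicit false

namespace Pool.Agent.MCN

theorem dl_strictMono (e : ℕ) : StrictMono (dl e) := by
  intro a b h
  simp only [dl]
  split_ifs <;> omega

theorem dl_ne (e j : ℕ) : dl e j ≠ e := by
  simp only [dl]
  split_ifs <;> omega

theorem dl_lt_of_lt {e j : ℕ} (h : j < e) : dl e j = j := by simp [dl, h]

theorem dl_of_le {e j : ℕ} (h : e ≤ j) : dl e j = j + 1 := by simp [dl, Nat.not_lt.2 h]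

theorem dl_le (e j : ℕ) : dl e j ≤ j + 1 := by
  simp only [dl]
  split_ifs <;> omega

theorem le_dl (e j : ℕ) : j ≤ dl e j := by
  simp only [dl]
  split_ifs <;> omega

/-- letters of the word with a letter deleted -/
theorem lt_dw (w e j : ℕ) : lt (dw w e) j = lt w (dl e j) := by
  have key : dw w e / 3 ^ j % 3 = w / 3 ^ (dl e j) % 3 := by
    unfold dw dl
    split_ifs with h
    · -- j < e
      obtain ⟨k, rfl⟩ := Nat.exists_eq_add_of_lt h
      have h1 : w / 3 ^ (j + k + 1 + 1) * 3 ^ (j + k + 1) =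
          3 ^ j * (3 * (3 ^ k * (w / 3 ^ (j + k + 1 + 1)))) := by ring
      have h2 : w % 3 ^ (j + k + 1) = w % (3 ^ j * (3 * 3 ^ k)) := by
        congr 1; ring
      rw [h1, h2, Nat.add_mul_div_left _ _ (by positivity), Nat.mod_mul_right_div_self,
        Nat.add_mul_mod_self_left, Nat.mod_mul_right_mod]
    · -- e ≤ j
      obtain ⟨k, rfl⟩ := Nat.exists_eq_add_of_le (Nat.not_lt.1 h)
      have h3 : 3 ^ (e + k) = 3 ^ e * 3 ^ k := by ring
      rw [h3, ← Nat.div_div_eq_div_mul, Nat.add_mul_div_right _ _ (by positivity),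
        Nat.div_eq_of_lt (Nat.mod_lt _ (by positivity)), Nat.zero_add, Nat.div_div_eq_div_mul]
      congr 2
      ring
  unfold lt
  ext
  simpa [Fin.ofNat] using key

theorem lt_dw' (w e : ℕ) : lt (dw w e) = fun j => lt w (dl e j) := funext (lt_dw w e)

theorem lt_w2 (u a b : ℕ) : lt (w2 u a b) = fun j => lt u (dl b (dl a j)) := by
  funext j
  simp only [w2, lt_dw]

theorem dw_lt {u e n : ℕ} (h : u < 3 ^ (n + 1)) (he : e ≤ n) : dw u e < 3 ^ n := by
  unfold dw
  obtain ⟨k, rfl⟩ := Nat.exists_eq_add_of_le he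
  have h1 : u % 3 ^ e < 3 ^ e := Nat.mod_lt _ (by positivity)
  have h2 : u / 3 ^ (e + 1) < 3 ^ k := by
    apply Nat.div_lt_of_lt_mul
    calc u < 3 ^ (e + k + 1) := h
      _ = 3 ^ (e + 1) * 3 ^ k := by ring
  calc u % 3 ^ e + u / 3 ^ (e + 1) * 3 ^ e < 3 ^ e + u / 3 ^ (e + 1) * 3 ^ e := by omega
    _ = (u / 3 ^ (e + 1) + 1) * 3 ^ e := by ring
    _ ≤ 3 ^ k * 3 ^ e := Nat.mul_le_mul_right _ h2
    _ = 3 ^ (e + k) := by ring

theorem w2_lt {u a b : ℕ} (h : u < 2187) (hab : a < b) (hb : b < 7) : w2 u a b < 243 := by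
  have h1 : dw u b < 3 ^ 6 := dw_lt (by norm_num; omega) (by omega)
  have h2 : dw (dw u b) a < 3 ^ 5 := dw_lt h1 (by omega)
  simpa [w2] using h2

/-! ### lists -/

/-- filtering a long range by membership in a subset of `range 18` -/
theorem filter_range (N : ℕ) (hN : 18 ≤ N) (S : Finset ℕ) (hS : S ⊆ Finset.range 18) :
    (List.range N).filter (fun i => decide (i ∈ S)) =
      (List.range 18).filter (fun i => decide (i ∈ S)) := by
  obtain ⟨k, rfl⟩ := Nat.exists_eq_add_of_le hN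
  rw [List.range_add, List.filter_append]
  have : (List.map (fun x => 18 + x) (List.range k)).filter (fun i => decide (i ∈ S)) = [] := by
    rw [List.filter_eq_nil_iff]
    intro x hx
    simp only [List.mem_map] at hx
    obtain ⟨y, -, rfl⟩ := hx
    intro h
    have h1 := hS (of_decide_eq_true h)
    rw [Finset.mem_range] at h1
    omega
  rw [this, List.append_nil]

/-! ### literals -/

theorem lT_pos (r : ℕ → Prop) (n : ℕ) : lT r (2 * n) ↔ r n := by
  unfold lT
  rw [if_pos (by omega)]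
  have : 2 * n / 2 = n := by omega
  rw [this]

theorem lT_neg (r : ℕ → Prop) (n : ℕ) : lT r (2 * n + 1) ↔ ¬ r n := by
  unfold lT
  rw [if_neg (by omega)]
  have : (2 * n + 1) / 2 = n := by omega
  rw [this]

section K

variable {K : Type} [Field K] [LinearOrder K]

theorem rho_xA (g : Fin 3 → ℕ → Fin 5 → K) (w : ℕ) :
    rho g (xA w) ↔ 0 < br (vf g (lt w) id) := by
  unfold rho xA
  rw [if_pos (by omega)]
  have : 4 * w / 4 = w := by omega
  rw [this]

theorem rho_zA (g : Fin 3 → ℕ → Fin 5 → K) {a b : ℕ} (ha : a < 243) (hb : b < 243) :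
    rho g (zA a b) ↔ ¬ (0 < br (vf g (lt a) id) ↔ 0 < br (vf g (lt b) id)) := by
  unfold zA
  cases h1 : Nat.beq a b
  · cases h2 : Nat.ble a b
    · simp only [cond_false]
      unfold rho
      rw [if_neg (by omega), if_pos (by omega)]
      have e1 : (4 * (243 * b + a) + 1) / 4 / 243 = b := by omega
      have e2 : (4 * (243 * b + a) + 1) / 4 % 243 = a := by omega
      rw [e1, e2]
      tauto
    · simp only [cond_false, cond_true]
      unfold rho
      rw [if_neg (by omega), if_pos (by omega)]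
      have e1 : (4 * (243 * a + b) + 1) / 4 / 243 = a := by omega
      have e2 : (4 * (243 * a + b) + 1) / 4 % 243 = b := by omega
      rw [e1, e2]
  · have hab : a = b := Nat.eq_of_beq_eq_true h1
    subst hab
    simp [rho]

theorem Sp_swap_left {D : ℕ → ℕ → K} (hD : ∀ i j, D i j = D j i) (a b c d : ℕ) :
    Sp D b a c d ↔ Sp D a b c d := by
  unfold Sp
  rw [hD b a, and_comm]
  have e1 : D b d * D a c = D a c * D b d := by ring
  have e2 : D b c * D a d = D a d * D b c := by ring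
  rw [e1, e2]

theorem Sp_swap_right {D : ℕ → ℕ → K} (hD : ∀ i j, D i j = D j i) (a b c d : ℕ) :
    Sp D a b d c ↔ Sp D a b c d := by
  unfold Sp
  rw [hD d c, and_comm]

theorem Sp_swap_pairs {D : ℕ → ℕ → K} (hD : ∀ i j, D i j = D j i) (a b c d : ℕ) :
    Sp D c d a b ↔ Sp D a b c d := by
  unfold Sp
  have e1 : D c d * D a b = D a b * D c d := by ring
  have e2 : D c a * D d b = D a c * D b d := by rw [hD c a, hD d b]
  have e3 : D c b * D d a = D a d * D b c := by rw [hD c b, hD d a]; ring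
  rw [e1, e2, e3]

theorem tt_pair_comm (q : ℕ → Fin 5 → K) (i j : ℕ) : tt q {i, j} = tt q {j, i} := by
  rw [Finset.pair_comm]

theorem Qt_swap_left (q : ℕ → Fin 5 → K) (a b c d : ℕ) : Qt q b a c d ↔ Qt q a b c d :=
  Sp_swap_left (tt_pair_comm q) a b c d

theorem Qt_swap_right (q : ℕ → Fin 5 → K) (a b c d : ℕ) : Qt q a b d c ↔ Qt q a b c d :=
  Sp_swap_right (tt_pair_comm q) a b c d

theorem Qt_swap_pairs (q : ℕ → Fin 5 → K) (a b c d : ℕ) : Qt q c d a b ↔ Qt q a b c d :=
  Sp_swap_pairs (tt_pair_comm q) a b c d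

theorem rho_sA (g : Fin 3 → ℕ → Fin 5 → K) {u a b c d : ℕ} (ha : a < 8) (hb : b < 8) (hc : c < 8)
    (hd : d < 8) : rho g (sA u a b c d) ↔ Qt (vf g (lt u) id) a b c d := by
  unfold rho sA
  rw [if_neg (by omega), if_neg (by omega)]
  have e1 : (4 * ((((u * 8 + a) * 8 + b) * 8 + c) * 8 + d) + 2) / 16384 = u := by omega
  have e2 : (4 * ((((u * 8 + a) * 8 + b) * 8 + c) * 8 + d) + 2) / 2048 % 8 = a := by omega
  have e3 : (4 * ((((u * 8 + a) * 8 + b) * 8 + c) * 8 + d) + 2) / 256 % 8 = b := by omega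
  have e4 : (4 * ((((u * 8 + a) * 8 + b) * 8 + c) * 8 + d) + 2) / 32 % 8 = c := by omega
  have e5 : (4 * ((((u * 8 + a) * 8 + b) * 8 + c) * 8 + d) + 2) / 4 % 8 = d := by omega
  rw [e1, e2, e3, e4, e5]

/-- truth of the canonical atom of a split -/
theorem rho_cA (g : Fin 3 → ℕ → Fin 5 → K) {u a b c d : ℕ} (ha : a < 8) (hb : b < 8) (hc : c < 8)
    (hd : d < 8) : rho g (cA u a b c d) ↔ Qt (vf g (lt u) id) a b c d := by
  unfold cA cA1 cA2
  cases Nat.blt b a <;> simp only [cond_true, cond_false] <;>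
  cases Nat.blt d c <;> simp only [cond_true, cond_false]
  · cases Nat.blt c a <;> simp only [cond_true, cond_false]
    · exact rho_sA g ha hb hc hd
    · rw [rho_sA g hc hd ha hb, Qt_swap_pairs]
  · cases Nat.blt d a <;> simp only [cond_true, cond_false]
    · rw [rho_sA g ha hb hd hc, Qt_swap_right]
    · rw [rho_sA g hd hc ha hb, Qt_swap_pairs, Qt_swap_right]
  · cases Nat.blt c b <;> simp only [cond_true, cond_false]
    · rw [rho_sA g hb ha hc hd, Qt_swap_left]
    · rw [rho_sA g hc hd hb ha, Qt_swap_pairs, Qt_swap_left]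
  · cases Nat.blt d b <;> simp only [cond_true, cond_false]
    · rw [rho_sA g hb ha hd hc, Qt_swap_left, Qt_swap_right]
    · rw [rho_sA g hd hc hb ha, Qt_swap_pairs, Qt_swap_left, Qt_swap_right]

/-! ### sequences of vectors -/

theorem vf_comp (g : Fin 3 → ℕ → Fin 5 → K) (w : ℕ → Fin 3) (t f : ℕ → ℕ) :
    (fun j => vf g w t (f j)) = vf g (fun j => w (f j)) (fun j => t (f j)) := rfl

theorem br_congr {q q' : ℕ → Fin 5 → K} (h : ∀ j < 5, q j = q' j) : br q = br q' := by
  unfold br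
  congr 1
  ext i j
  simp only [Matrix.of_apply]
  rw [h i i.2]

/-- the sign of a word of five letters at arbitrary times -/
theorem sign_dl (g : Fin 3 → ℕ → Fin 5 → K) (hs : Hs g) (t : ℕ → ℕ) (ht : StrictMono t) (c e : ℕ) :
    (0 < br (fun j => vf g (lt c) t (dl e j))) ↔ 0 < br (vf g (lt (dw c e)) id) := by
  rw [vf_comp, lt_dw']
  exact hs _ _ (ht.comp (dl_strictMono e))

theorem sign_w2 (g : Fin 3 → ℕ → Fin 5 → K) (hs : Hs g) (t : ℕ → ℕ) (ht : StrictMono t)
    (u a b : ℕ) :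
    (0 < br (fun j => vf g (lt u) t (dl b (dl a j)))) ↔ 0 < br (vf g (lt (w2 u a b)) id) := by
  rw [lt_w2]
  exact hs (fun j => lt u (dl b (dl a j))) (fun j => t (dl b (dl a j)))
    (ht.comp ((dl_strictMono b).comp (dl_strictMono a)))

end K

end Pool.Agent.MCN
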