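import Pool.Agent.MCN.Stmts

/-! Soundness of the RUP checker -/

set_option autoImplicit false

namespace Pool.Agent.MCN

namespace CHK_

theorem memN_iff (l : ℕ) (L : List ℕ) : memN l L = true ↔ l ∈ L := by
  induction L with
  | nil => simp [memN]
  | cons a t ih =>
    simp only [memN, List.mem_cons]
    cases h : Nat.beq a l
    · simp only [cond_false]
      rw [ih]
      have : a ≠ l := by
        intro e
        subst e
        rw [Nat.beq_refl] at h
        exact Bool.noConfusion h
      constructor
      · exact Or.inr
      · rintro (e | e)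
        · exact absurd e.symm this
        · exact e
    · simp only [cond_true, true_iff]
      exact Or.inl (Nat.eq_of_beq_eq_true h).symm

theorem xor_even (n : ℕ) : Nat.xor (2 * n) 1 = 2 * n + 1 := by
  have : (2 * n) ^^^ 1 = 2 * n + 1 := by
    apply Nat.eq_of_testBit_eq
    intro i
    rcases i with _ | i
    · simp
    · simp [Nat.testBit_succ]
      try omega
  exact this

theorem xor_odd (n : ℕ) : Nat.xor (2 * n + 1) 1 = 2 * n := by
  have h : (2 * n) ^^^ 1 = 2 * n + 1 := xor_even n
  have : (2 * n + 1) ^^^ 1 = 2 * n := by
    rw [← h, Nat.xor_assoc, Nat.xor_self, Nat.xor_zero]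
  exact this

theorem lT_xor (r : ℕ → Prop) (l : ℕ) : lT r (Nat.xor l 1) ↔ ¬ lT r l := by
  rcases Nat.even_or_odd' l with ⟨n, rfl | rfl⟩
  · rw [xor_even, lT_neg, lT_pos]
  · rw [xor_odd, lT_neg, lT_pos, not_not]

theorem scan_some (r : ℕ → Prop) (as : List ℕ) (has : ∀ l ∈ as, lT r l) (u : ℕ) :
    ∀ C : List ℕ, scan as C (u + 2) ≠ 0 ∧
      ∀ l, scan as C (u + 2) = l + 2 → l = u ∧ ∀ l' ∈ C, lT r l' → l' = u := by
  intro C
  induction C with
  | nil =>
    refine ⟨by simp [scan], fun l h => ?_⟩
    simp only [scan] at h
    exact ⟨by omega, by simp⟩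
  | cons a t ih =>
    simp only [scan]
    cases h1 : memN (Nat.xor a 1) as
    · simp only [cond_false]
      have h2 : Nat.beq (u + 2) 0 = false := rfl
      rw [h2, cond_false]
      cases h3 : Nat.beq (u + 2) (a + 2)
      · simp only [cond_false]
        exact ⟨by norm_num, fun l h => by omega⟩
      · simp only [cond_true]
        have h4 : u + 2 = a + 2 := Nat.eq_of_beq_eq_true h3
        refine ⟨ih.1, fun l h => ?_⟩
        obtain ⟨i1, i2⟩ := ih.2 l h
        refine ⟨i1, fun l' hl' hT => ?_⟩
        rcases List.mem_cons.1 hl' with e | e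
        · omega
        · exact i2 l' e hT
    · simp only [cond_true]
      refine ⟨ih.1, fun l h => ?_⟩
      obtain ⟨i1, i2⟩ := ih.2 l h
      refine ⟨i1, fun l' hl' hT => ?_⟩
      rcases List.mem_cons.1 hl' with e | e
      · subst e
        exact absurd hT ((lT_xor r l').1 (has _ ((memN_iff _ _).1 h1)))
      · exact i2 l' e hT

theorem scan_zero (r : ℕ → Prop) (as : List ℕ) (has : ∀ l ∈ as, lT r l) :
    ∀ C : List ℕ, (scan as C 0 = 0 → ∀ l ∈ C, ¬ lT r l) ∧
      ∀ l, scan as C 0 = l + 2 → ∀ l' ∈ C, lT r l' → l' = l := by
  intro C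
  induction C with
  | nil => exact ⟨by simp, by simp⟩
  | cons a t ih =>
    simp only [scan]
    cases h1 : memN (Nat.xor a 1) as
    · simp only [cond_false]
      have h2 : Nat.beq 0 0 = true := rfl
      rw [h2, cond_true]
      obtain ⟨j1, j2⟩ := scan_some r as has a t
      refine ⟨fun h => absurd h j1, fun l h => ?_⟩
      obtain ⟨i1, i2⟩ := j2 l h
      intro l' hl' hT
      rcases List.mem_cons.1 hl' with e | e
      · omega
      · rw [i1]; exact i2 l' e hT
    · simp only [cond_true]
      have hna : ¬ lT r a := (lT_xor r a).1 (has _ ((memN_iff _ _).1 h1))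
      constructor
      · intro h l hl
        rcases List.mem_cons.1 hl with e | e
        · subst e; exact hna
        · exact ih.1 h l e
      · intro l h l' hl' hT
        rcases List.mem_cons.1 hl' with e | e
        · subst e; exact absurd hT hna
        · exact ih.2 l h l' e hT

theorem nthC_mem : ∀ (db : List (List ℕ)) (n : ℕ) (c : List ℕ), nthC db n = some c → c ∈ db := by
  intro db
  induction db with
  | nil => intro n c h; simp [nthC] at h
  | cons a t ih =>
    intro n c h
    rcases n with _ | n
    · simp only [nthC, Option.some.injEq] at h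
      subst h
      exact List.mem_cons_self
    · simp only [nthC] at h
      exact List.mem_cons_of_mem _ (ih n c h)

theorem get_true (r : ℕ → Prop) (hax : ∀ (h : ℕ) (c : List ℕ), axh h = some c → Tr r c)
    (db : List (List ℕ)) (hdb : ∀ c ∈ db, Tr r c) (h : ℕ) (c : List ℕ)
    (hc : get db h = some c) : Tr r c := by
  unfold get at hc
  cases h1 : Nat.beq (h % 32) 16
  · rw [h1, cond_false] at hc
    exact hax h c hc
  · rw [h1, cond_true] at hc
    exact hdb c (nthC_mem db _ c hc)

theorem rup_sound (r : ℕ → Prop) (hax : ∀ (h : ℕ) (c : List ℕ), axh h = some c → Tr r c)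
    (db : List (List ℕ)) (hdb : ∀ c ∈ db, Tr r c) :
    ∀ (hs as : List ℕ), (∀ l ∈ as, lT r l) → rup db hs as = true → False := by
  intro hs
  induction hs with
  | nil => intro as _ h; simp [rup] at h
  | cons h0 t ih =>
    intro as has h
    unfold rup at h
    split at h
    · exact Bool.noConfusion h
    · rename_i c hc
      obtain ⟨l0, hl0, hT0⟩ := get_true r hax db hdb h0 c hc
      obtain ⟨i1, i2⟩ := scan_zero r as has c
      split at h
      · rename_i h3
        exact i1 h3 l0 hl0 hT0
      · exact Bool.noConfusion h
      · rename_i l h3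
        have h4 := i2 l h3 l0 hl0 hT0
        apply ih (l :: as) _ h
        intro l' hl'
        rcases List.mem_cons.1 hl' with e | e
        · rw [e, ← h4]; exact hT0
        · exact has l' e

theorem negs_true (r : ℕ → Prop) : ∀ c : List ℕ, (∀ l ∈ c, ¬ lT r l) → ∀ l ∈ negs c, lT r l := by
  intro c
  induction c with
  | nil => intro _ l hl; simp [negs] at hl
  | cons a t ih =>
    intro h l hl
    simp only [negs, List.mem_cons] at hl
    rcases hl with e | e
    · rw [e, lT_xor]; exact h a List.mem_cons_self
    · exact ih (fun l hl => h l (List.mem_cons_of_mem _ hl)) l e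

theorem run_sound (r : ℕ → Prop) (hax : ∀ (h : ℕ) (c : List ℕ), axh h = some c → Tr r c) :
    ∀ (D : List (List ℕ × List ℕ)) (db : List (List ℕ)), (∀ c ∈ db, Tr r c) →
      run D db = true → False := by
  intro D
  induction D with
  | nil => intro db _ h; simp [run] at h
  | cons p rest ih =>
    obtain ⟨c, hs⟩ := p
    intro db hdb h
    unfold run at h
    cases h1 : rup db hs (negs c)
    · rw [h1, cond_false] at h
      exact Bool.noConfusion h
    · rw [h1, cond_true] at h
      have hc : Tr r c := by
        by_contra hcon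
        apply rup_sound r hax db hdb hs (negs c) _ h1
        apply negs_true
        intro l hl hT
        exact hcon ⟨l, hl, hT⟩
      cases c with
      | nil =>
        obtain ⟨l, hl, -⟩ := hc
        simp at hl
      | cons a t =>
        apply ih ((a :: t) :: db) _ h
        intro c' hc'
        rcases List.mem_cons.1 hc' with e | e
        · rw [e]; exact hc
        · exact hdb c' e

end CHK_

theorem chk_proof : Stmt_Chk := by
  intro r hax D hD
  exact CHK_.run_sound r hax D [] (by simp) hD

end Pool.Agent.MCN
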