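import Pool.Agent.MCN.Stmts

set_option autoImplicit false

namespace Pool.Agent.MCN

namespace COX_

/-- the Coxeter matrix of type `A_3` -/
def M : CoxeterMatrix (Fin 3) where
  M := !![1, 3, 2; 3, 1, 3; 2, 3, 1]
  isSymm := by
    ext i j
    fin_cases i <;> fin_cases j <;> rfl
  diagonal := by
    intro i
    fin_cases i <;> rfl
  off_diagonal := by
    intro i j h
    fin_cases i <;> fin_cases j <;> first | exact absurd rfl h | decide

/-- the transpositions -/
def g : Fin 3 → Equiv.Perm (Fin 4) := fun i => Equiv.swap i.castSucc i.succ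

theorem lift_g : M.IsLiftable g := by
  intro i j
  fin_cases i <;> fin_cases j <;> decide

section
variable {W : Type} [Group W] (cs : CoxeterSystem M W)

theorem sq (i : Fin 3) : cs.simple i * cs.simple i = 1 := cs.simple_mul_simple_self i

theorem b01 : cs.simple 1 * cs.simple 0 * cs.simple 1 =
    cs.simple 0 * (cs.simple 1 * cs.simple 0) := by
  have h : (cs.simple 0 * cs.simple 1) ^ 3 = 1 := cs.simple_mul_simple_pow 0 1
  have h0 := sq cs 0
  have h1 := sq cs 1
  have h2 : cs.simple 0 * cs.simple 1 * (cs.simple 0 * cs.simple 1) *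
      (cs.simple 0 * cs.simple 1) = 1 := by
    rw [← h, pow_succ, pow_two]
  have h3 : cs.simple 0 * (cs.simple 1 * cs.simple 0) *
      (cs.simple 1 * cs.simple 0 * cs.simple 1) = 1 := by
    rw [← h2]; group
  have h4 : (cs.simple 1 * cs.simple 0 * cs.simple 1) *
      (cs.simple 1 * cs.simple 0 * cs.simple 1) = 1 := by
    calc (cs.simple 1 * cs.simple 0 * cs.simple 1) * (cs.simple 1 * cs.simple 0 * cs.simple 1)
        = cs.simple 1 * cs.simple 0 * (cs.simple 1 * cs.simple 1) * cs.simple 0 *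
          cs.simple 1 := by group
      _ = cs.simple 1 * (cs.simple 0 * cs.simple 0) * cs.simple 1 := by rw [h1]; group
      _ = 1 := by rw [h0, mul_one, h1]
  exact mul_right_cancel (h4.trans h3.symm)

theorem b12 : cs.simple 2 * cs.simple 1 * cs.simple 2 =
    cs.simple 1 * (cs.simple 2 * cs.simple 1) := by
  have h : (cs.simple 1 * cs.simple 2) ^ 3 = 1 := cs.simple_mul_simple_pow 1 2
  have h0 := sq cs 1
  have h1 := sq cs 2
  have h2 : cs.simple 1 * cs.simple 2 * (cs.simple 1 * cs.simple 2) *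
      (cs.simple 1 * cs.simple 2) = 1 := by
    rw [← h, pow_succ, pow_two]
  have h3 : cs.simple 1 * (cs.simple 2 * cs.simple 1) *
      (cs.simple 2 * cs.simple 1 * cs.simple 2) = 1 := by
    rw [← h2]; group
  have h4 : (cs.simple 2 * cs.simple 1 * cs.simple 2) *
      (cs.simple 2 * cs.simple 1 * cs.simple 2) = 1 := by
    calc (cs.simple 2 * cs.simple 1 * cs.simple 2) * (cs.simple 2 * cs.simple 1 * cs.simple 2)
        = cs.simple 2 * cs.simple 1 * (cs.simple 2 * cs.simple 2) * cs.simple 1 *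
          cs.simple 2 := by group
      _ = cs.simple 2 * (cs.simple 1 * cs.simple 1) * cs.simple 2 := by rw [h1]; group
      _ = 1 := by rw [h0, mul_one, h1]
  exact mul_right_cancel (h4.trans h3.symm)

theorem b02 : cs.simple 2 * cs.simple 0 = cs.simple 0 * cs.simple 2 := by
  have h : (cs.simple 0 * cs.simple 2) ^ 2 = 1 := cs.simple_mul_simple_pow 0 2
  have h0 := sq cs 0
  have h1 := sq cs 2
  have h4 : (cs.simple 2 * cs.simple 0) * (cs.simple 0 * cs.simple 2) = 1 := by
    calc (cs.simple 2 * cs.simple 0) * (cs.simple 0 * cs.simple 2)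
        = cs.simple 2 * (cs.simple 0 * cs.simple 0) * cs.simple 2 := by group
      _ = 1 := by rw [h0, mul_one, h1]
  rw [pow_two] at h
  exact mul_right_cancel (h4.trans h.symm)

/-- words of the first factor -/
def wa : Fin 2 → List (Fin 3) := ![[], [0]]
/-- words of the second factor -/
def wb : Fin 3 → List (Fin 3) := ![[], [1], [1, 0]]
/-- words of the third factor -/
def wc : Fin 4 → List (Fin 3) := ![[], [2], [2, 1], [2, 1, 0]]

theorem stepa (a : Fin 2) : ∃ a', cs.wordProd (wa a) * cs.simple 0 = cs.wordProd (wa a') := by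
  fin_cases a
  · exact ⟨1, by simp [wa, CoxeterSystem.wordProd]⟩
  · exact ⟨0, by simp [wa, CoxeterSystem.wordProd]⟩

theorem stepb (b : Fin 3) (i : Fin 3) (hi : i = 0 ∨ i = 1) :
    ∃ b', cs.wordProd (wb b) * cs.simple i = cs.wordProd (wb b') ∨
      cs.wordProd (wb b) * cs.simple i = cs.simple 0 * cs.wordProd (wb b') := by
  rcases hi with rfl | rfl
  · fin_cases b
    · exact ⟨0, Or.inr (by simp [wb, CoxeterSystem.wordProd])⟩
    · exact ⟨2, Or.inl (by simp [wb, CoxeterSystem.wordProd])⟩
    · exact ⟨1, Or.inl (by simp [wb, CoxeterSystem.wordProd])⟩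
  · fin_cases b
    · exact ⟨1, Or.inl (by simp [wb, CoxeterSystem.wordProd])⟩
    · exact ⟨0, Or.inl (by simp [wb, CoxeterSystem.wordProd])⟩
    · refine ⟨2, Or.inr ?_⟩
      simp only [wb, CoxeterSystem.wordProd]
      simpa using b01 cs

theorem stepc (c : Fin 4) (i : Fin 3) :
    ∃ c', cs.wordProd (wc c) * cs.simple i = cs.wordProd (wc c') ∨
      cs.wordProd (wc c) * cs.simple i = cs.simple 0 * cs.wordProd (wc c') ∨
      cs.wordProd (wc c) * cs.simple i = cs.simple 1 * cs.wordProd (wc c') := by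
  have h01 := b01 cs
  have h12 := b12 cs
  have h02 := b02 cs
  have e0 : cs.wordProd (wc 0) = 1 := by simp [wc, CoxeterSystem.wordProd]
  have e1 : cs.wordProd (wc 1) = cs.simple 2 := by simp [wc, CoxeterSystem.wordProd]
  have e2 : cs.wordProd (wc 2) = cs.simple 2 * cs.simple 1 := by
    simp [wc, CoxeterSystem.wordProd]
  have e3 : cs.wordProd (wc 3) = cs.simple 2 * cs.simple 1 * cs.simple 0 := by
    simp [wc, CoxeterSystem.wordProd, mul_assoc]
  fin_cases c
  · change ∃ c', cs.wordProd (wc 0) * cs.simple i = cs.wordProd (wc c') ∨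
      cs.wordProd (wc 0) * cs.simple i = cs.simple 0 * cs.wordProd (wc c') ∨
      cs.wordProd (wc 0) * cs.simple i = cs.simple 1 * cs.wordProd (wc c')
    fin_cases i
    · exact ⟨0, Or.inr (Or.inl (by rw [e0]; simp))⟩
    · exact ⟨0, Or.inr (Or.inr (by rw [e0]; simp))⟩
    · exact ⟨1, Or.inl (by rw [e0, e1]; simp)⟩
  · change ∃ c', cs.wordProd (wc 1) * cs.simple i = cs.wordProd (wc c') ∨
      cs.wordProd (wc 1) * cs.simple i = cs.simple 0 * cs.wordProd (wc c') ∨
      cs.wordProd (wc 1) * cs.simple i = cs.simple 1 * cs.wordProd (wc c')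
    fin_cases i
    · exact ⟨1, Or.inr (Or.inl (by rw [e1]; exact h02))⟩
    · exact ⟨2, Or.inl (by rw [e1, e2]; rfl)⟩
    · exact ⟨0, Or.inl (by rw [e0, e1]; exact sq cs 2)⟩
  · change ∃ c', cs.wordProd (wc 2) * cs.simple i = cs.wordProd (wc c') ∨
      cs.wordProd (wc 2) * cs.simple i = cs.simple 0 * cs.wordProd (wc c') ∨
      cs.wordProd (wc 2) * cs.simple i = cs.simple 1 * cs.wordProd (wc c')
    fin_cases i
    · exact ⟨3, Or.inl (by rw [e2, e3]; rfl)⟩
    · refine ⟨1, Or.inl ?_⟩
      rw [e1, e2]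
      change cs.simple 2 * cs.simple 1 * cs.simple 1 = cs.simple 2
      rw [mul_assoc, sq cs 1, mul_one]
    · exact ⟨2, Or.inr (Or.inr (by rw [e2]; exact h12))⟩
  · change ∃ c', cs.wordProd (wc 3) * cs.simple i = cs.wordProd (wc c') ∨
      cs.wordProd (wc 3) * cs.simple i = cs.simple 0 * cs.wordProd (wc c') ∨
      cs.wordProd (wc 3) * cs.simple i = cs.simple 1 * cs.wordProd (wc c')
    fin_cases i
    · refine ⟨2, Or.inl ?_⟩
      rw [e2, e3]
      change cs.simple 2 * cs.simple 1 * cs.simple 0 * cs.simple 0 = cs.simple 2 * cs.simple 1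
      rw [mul_assoc _ (cs.simple 0), sq cs 0, mul_one]
    · refine ⟨3, Or.inr (Or.inl ?_)⟩
      rw [e3]
      change cs.simple 2 * cs.simple 1 * cs.simple 0 * cs.simple 1 =
        cs.simple 0 * (cs.simple 2 * cs.simple 1 * cs.simple 0)
      calc cs.simple 2 * cs.simple 1 * cs.simple 0 * cs.simple 1
          = cs.simple 2 * (cs.simple 1 * cs.simple 0 * cs.simple 1) := by group
        _ = (cs.simple 2 * cs.simple 0) * (cs.simple 1 * cs.simple 0) := by rw [h01]; group
        _ = _ := by rw [h02]; group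
    · refine ⟨3, Or.inr (Or.inr ?_)⟩
      rw [e3]
      change cs.simple 2 * cs.simple 1 * cs.simple 0 * cs.simple 2 =
        cs.simple 1 * (cs.simple 2 * cs.simple 1 * cs.simple 0)
      calc cs.simple 2 * cs.simple 1 * cs.simple 0 * cs.simple 2
          = cs.simple 2 * cs.simple 1 * (cs.simple 0 * cs.simple 2) := by group
        _ = (cs.simple 2 * cs.simple 1 * cs.simple 2) * cs.simple 0 := by rw [← h02]; group
        _ = _ := by rw [h12]; group

/-- every element is a product of words -/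
theorem nf (w : W) : ∃ (a : Fin 2) (b : Fin 3) (c : Fin 4),
    w = cs.wordProd (wa a) * cs.wordProd (wb b) * cs.wordProd (wc c) := by
  refine cs.simple_induction_right (p := fun w => ∃ (a : Fin 2) (b : Fin 3) (c : Fin 4),
    w = cs.wordProd (wa a) * cs.wordProd (wb b) * cs.wordProd (wc c)) w ?_ ?_
  · exact ⟨0, 0, 0, by simp [wa, wb, wc, CoxeterSystem.wordProd]⟩
  · rintro w i ⟨a, b, c, rfl⟩
    have key : ∀ (i : Fin 3), (i = 0 ∨ i = 1) → ∀ (a : Fin 2) (b : Fin 3),
        ∃ (a' : Fin 2) (b' : Fin 3), cs.wordProd (wa a) * cs.wordProd (wb b) * cs.simple i =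
          cs.wordProd (wa a') * cs.wordProd (wb b') := by
      intro i hi a b
      obtain ⟨b', hb | hb⟩ := stepb cs b i hi
      · exact ⟨a, b', by rw [mul_assoc, hb]⟩
      · obtain ⟨a', ha⟩ := stepa cs a
        exact ⟨a', b', by rw [mul_assoc, hb, ← mul_assoc, ha]⟩
    obtain ⟨c', hc | hc | hc⟩ := stepc cs c i
    · exact ⟨a, b, c', by rw [mul_assoc, hc]⟩
    · obtain ⟨a', b', h⟩ := key 0 (Or.inl rfl) a b
      exact ⟨a', b', c', by rw [mul_assoc, hc, ← mul_assoc, h]⟩
    · obtain ⟨a', b', h⟩ := key 1 (Or.inr rfl) a b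
      exact ⟨a', b', c', by rw [mul_assoc, hc, ← mul_assoc, h]⟩

end

/-- product of transpositions -/
def pp (l : List (Fin 3)) : Equiv.Perm (Fin 4) := (l.map g).prod

/-- number of inversions -/
def inv (w : Equiv.Perm (Fin 4)) : ℕ :=
  ((Finset.univ : Finset (Fin 4 × Fin 4)).filter fun q => q.1 < q.2 ∧ w q.2 < w q.1).card

theorem inv_step : ∀ (w : Equiv.Perm (Fin 4)) (i : Fin 3), inv (w * g i) ≤ inv w + 1 := by
  decide +kernel

theorem inj24 : ∀ (a a' : Fin 2) (b b' : Fin 3) (c c' : Fin 4),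
    pp (wa a ++ wb b ++ wc c) = pp (wa a' ++ wb b' ++ wc c') → a = a' ∧ b = b' ∧ c = c' := by
  decide +kernel

theorem inv_pp (l : List (Fin 3)) : inv (pp l) ≤ l.length := by
  induction l using List.reverseRecOn with
  | nil => decide +kernel
  | append_singleton l i ih =>
    have h : pp (l ++ [i]) = pp l * g i := by
      simp [pp]
    rw [h, List.length_append]
    exact (inv_step _ _).trans (Nat.add_le_add_right ih 1)

end COX_

open COX_ in
theorem cox_proof : Stmt_Cox := by
  let cs : CoxeterSystem M M.Group := M.toCoxeterSystem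
  let f : M.Group →* Equiv.Perm (Fin 4) := cs.lift ⟨g, lift_g⟩
  have hf : ∀ i, f (cs.simple i) = g i := fun i => cs.lift_apply_simple lift_g i
  have hfp : ∀ l : List (Fin 3), f (cs.wordProd l) = pp l := by
    intro l
    unfold CoxeterSystem.wordProd pp
    rw [map_list_prod, List.map_map]
    have h : (f ∘ cs.simple) = g := funext hf
    rw [h]
  have hnf : ∀ w : M.Group, ∃ (a : Fin 2) (b : Fin 3) (c : Fin 4),
      w = cs.wordProd (wa a ++ wb b ++ wc c) := by
    intro w
    obtain ⟨a, b, c, h⟩ := nf cs w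
    exact ⟨a, b, c, by rw [h, CoxeterSystem.wordProd_append, CoxeterSystem.wordProd_append]⟩
  have hinj : Function.Injective f := by
    intro x y hxy
    obtain ⟨a, b, c, rfl⟩ := hnf x
    obtain ⟨a', b', c', rfl⟩ := hnf y
    rw [hfp, hfp] at hxy
    obtain ⟨rfl, rfl, rfl⟩ := inj24 a a' b b' c c' hxy
    rfl
  have hlen : ∀ (a : Fin 2) (b : Fin 3) (c : Fin 4), (wa a ++ wb b ++ wc c).length ≤ 6 := by
    decide
  refine ⟨M, M.Group, inferInstance, cs, cs.wordProd [0, 1, 0, 2, 1, 0], ?_, ?_, ?_, ?_, ?_⟩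
  · exact Finite.of_injective f hinj
  · apply le_antisymm
    · exact cs.length_wordProd_le _
    · obtain ⟨ω, h1, h2⟩ := cs.exists_isReduced (cs.wordProd [0, 1, 0, 2, 1, 0])
      rw [h2, h1.eq]
      have h3 := congrArg f h2
      rw [hfp, hfp] at h3
      have h4 := inv_pp ω
      rw [← h3] at h4
      have h5 : inv (pp [0, 1, 0, 2, 1, 0]) = 6 := by decide +kernel
      omega
  · intro u
    obtain ⟨a, b, c, rfl⟩ := hnf u
    exact (cs.length_wordProd_le _).trans (hlen a b c)
  · intro c hc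
    apply hinj
    rw [hfp, hfp]
    revert c
    decide +kernel
  · intro h
    have h2 := congrArg f h
    rw [hfp, hfp] at h2
    revert h2
    decide +kernel

end Pool.Agent.MCN
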