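import Pool.Agent.MCN.Defs

/-! The RUP checker -/

set_option autoImplicit false

namespace Pool.Agent.MCN

def inc4 (a b c d m : ℕ) : Bool := Nat.blt a b && (Nat.blt b c && (Nat.blt c d && Nat.blt d m))

def ne2 (a b : ℕ) : Bool := bif Nat.beq a b then false else true

def dist4 (a b c d m : ℕ) : Bool :=
  Nat.blt a m && (Nat.blt b m && (Nat.blt c m && (Nat.blt d m && (ne2 a b && (ne2 a c && (ne2 a d &&
    (ne2 b c && (ne2 b d && ne2 c d))))))))

def dist5 (a b c d e m : ℕ) : Bool :=
  dist4 a b c d m && (Nat.blt e m && (ne2 a e && (ne2 b e && (ne2 c e && ne2 d e))))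

def memN (l : ℕ) : List ℕ → Bool
  | [] => false
  | a :: t => bif Nat.beq a l then true else memN l t

/-- an axiom: kind `k`, positions `a … e`, word `u` -/
def ax (k a b c d e u : ℕ) : Option (List ℕ) :=
  match k with
  | 0 => bif memN u RW && Nat.blt a 5 then some (cWd 0 u a) else none
  | 1 => bif memN u RW && Nat.blt a 5 then some (cWd 1 u a) else none
  | 2 => bif Nat.blt (u / 243) (u % 243) && Nat.blt u 59049 then some (cXr 0 (u / 243) (u % 243)) else none
  | 3 => bif Nat.blt (u / 243) (u % 243) && Nat.blt u 59049 then some (cXr 1 (u / 243) (u % 243)) else none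
  | 4 => bif Nat.blt (u / 243) (u % 243) && Nat.blt u 59049 then some (cXr 2 (u / 243) (u % 243)) else none
  | 5 => bif Nat.blt (u / 243) (u % 243) && Nat.blt u 59049 then some (cXr 3 (u / 243) (u % 243)) else none
  | 6 => bif inc4 a b c d 7 && Nat.blt u 2187 then some (cSg 0 u a b c d) else none
  | 7 => bif inc4 a b c d 7 && Nat.blt u 2187 then some (cSg 1 u a b c d) else none
  | 8 => bif inc4 a b c d 7 && Nat.blt u 2187 then some (cOd 0 u a b c d e) else none
  | 9 => bif inc4 a b c d 7 && Nat.blt u 2187 then some (cOd 1 u a b c d e) else none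
  | 10 => bif dist4 a b c d 7 then some (cEx u a b c d) else none
  | 11 => bif Nat.blt a 4 && (Nat.beq (u / 3 ^ (a + 1) % 3) (u / 3 ^ a % 3) &&
      (Nat.beq (u / 3 ^ (a + 2) % 3) (u / 3 ^ a % 3) && Nat.beq (u / 3 ^ (a + 3) % 3) (u / 3 ^ a % 3)))
      then some (cNs u a) else none
  | 12 => bif dist5 a b c d e 7 then some (c7a u a b c d e) else none
  | 13 => bif dist5 a b c d e 7 then some (c7b u a b c d e) else none
  | 14 => bif dist5 a b c d e 8 then some (c8a u a b c d e) else none
  | 15 => bif dist5 a b c d e 8 then some (c8b u a b c d e) else none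
  | 17 => some [3]
  | _ => none

def axh (h : ℕ) : Option (List ℕ) :=
  ax (h % 32) (h / 32 % 8) (h / 256 % 8) (h / 2048 % 8) (h / 16384 % 8) (h / 131072 % 8) (h / 1048576)

def nthC : List (List ℕ) → ℕ → Option (List ℕ)
  | [], _ => none
  | c :: _, 0 => some c
  | _ :: t, n + 1 => nthC t n

/-- scan of a clause: 0 conflict, 1 failure, l + 2 unit `l` -/
def scan (as : List ℕ) : List ℕ → ℕ → ℕ
  | [], r => r
  | l :: t, r => bif memN (Nat.xor l 1) as then scan as t r else
      bif Nat.beq r 0 then scan as t (l + 2) else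
      bif Nat.beq r (l + 2) then scan as t r else 1

def get (db : List (List ℕ)) (h : ℕ) : Option (List ℕ) :=
  bif Nat.beq (h % 32) 16 then nthC db (h / 32) else axh h

def rup (db : List (List ℕ)) : List ℕ → List ℕ → Bool
  | [], _ => false
  | h :: hs, as =>
    match get db h with
    | none => false
    | some c =>
      match scan as c 0 with
      | 0 => true
      | 1 => false
      | l + 2 => rup db hs (l :: as)

def negs : List ℕ → List ℕ
  | [] => []
  | l :: t => Nat.xor l 1 :: negs t

def run : List (List ℕ × List ℕ) → List (List ℕ) → Bool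
  | [], _ => false
  | (c, hs) :: rest, db =>
    bif rup db hs (negs c) then
      (match c with
      | [] => true
      | _ :: _ => run rest (c :: db))
    else false

end Pool.Agent.MCN
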