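import Mathlib

/-!
# MCN: the multi-associahedra of type A_3 are not polytopal (MP_b67d73_co, S10970)

Definitions used by all modules.
-/

set_option autoImplicit false

namespace Pool.Agent.MCN

/-! ### Words, deletions -/

/-- the `j`-th letter of the word with code `w` (base 3, little endian) -/
def lt (w j : ℕ) : Fin 3 := Fin.ofNat 3 (w / 3 ^ j)

/-- the code of the word `w` with the letter at position `e` deleted -/
def dw (w e : ℕ) : ℕ := w % 3 ^ e + w / 3 ^ (e + 1) * 3 ^ e

/-- the increasing map of `ℕ` which skips `e` -/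
def dl (e j : ℕ) : ℕ := if j < e then j else j + 1

/-- the codes of the 16 reduced words of the longest element of the symmetric group `S_4`
(letters `0, 1, 2`) -/
def RW : List ℕ := [138, 102, 291, 420, 312, 145, 532, 208, 520, 196, 583, 416, 308, 437, 626, 590]

/-! ### Determinants of five vectors -/

section K

variable {K : Type} [Field K]

/-- the determinant of the first five vectors of the sequence `q` in `K^5` -/
noncomputable def br (q : ℕ → Fin 5 → K) : K := Matrix.det (Matrix.of fun i j : Fin 5 => q i j)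

/-- the vectors `g_(w j)(t j)`: letters `w`, times `t` -/
def vf (g : Fin 3 → ℕ → Fin 5 → K) (w : ℕ → Fin 3) (t : ℕ → ℕ) (j : ℕ) : Fin 5 → K := g (w j) (t j)

variable [LinearOrder K]

/-- absolute value of the determinant of the first five of the vectors `q j`, `j ∉ s` -/
noncomputable def tt (q : ℕ → Fin 5 → K) (s : Finset ℕ) : K :=
  |br (fun j => q (Nat.nth (fun i => i ∉ s) j))|

/-- `x` is infinitely small with respect to `y` (for positive `x`, `y`) -/
def ll (x y : K) : Prop := ∀ n : ℕ, (n : K) * x < y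

/-- the split `ab|cd` for the function `D` -/
def Sp (D : ℕ → ℕ → K) (a b c d : ℕ) : Prop :=
  ll (D a b * D c d) (D a c * D b d) ∧ ll (D a b * D c d) (D a d * D b c)

/-- the split `ab|cd` of positions of the seven vectors `q 0, …, q 6` -/
def Qt (q : ℕ → Fin 5 → K) (a b c d : ℕ) : Prop := Sp (fun i j => tt q {i, j}) a b c d

/-! ### Configurations -/

/-- all determinants are nonzero -/
def Gen (g : Fin 3 → ℕ → Fin 5 → K) : Prop :=
  ∀ (w : ℕ → Fin 3) (t : ℕ → ℕ), StrictMono t → br (vf g w t) ≠ 0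

/-- the same up to time `k` -/
def GenK (k : ℕ) (g : Fin 3 → ℕ → Fin 5 → K) : Prop :=
  ∀ (w : ℕ → Fin 3) (t : ℕ → ℕ), StrictMono t → t 4 < k → br (vf g w t) ≠ 0

/-- the sign conditions of the reduced words -/
def Wrd (g : Fin 3 → ℕ → Fin 5 → K) : Prop :=
  ∀ c ∈ RW, ∀ t : ℕ → ℕ, StrictMono t → ∀ i < 5,
    br (fun j => vf g (lt c) t (dl i j)) * br (fun j => vf g (lt c) t (dl (i + 1) j)) < 0

/-- the same up to time `k` -/
def WrdK (k : ℕ) (g : Fin 3 → ℕ → Fin 5 → K) : Prop :=
  ∀ c ∈ RW, ∀ t : ℕ → ℕ, StrictMono t → t 5 < k → ∀ i < 5,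
    br (fun j => vf g (lt c) t (dl i j)) * br (fun j => vf g (lt c) t (dl (i + 1) j)) < 0

/-- four consecutive positions with the same letter are not a star -/
def Nst (g : Fin 3 → ℕ → Fin 5 → K) : Prop :=
  ∀ (w : ℕ → Fin 3) (t : ℕ → ℕ), StrictMono t → ∀ p < 4,
    w (p + 1) = w p → w (p + 2) = w p → w (p + 3) = w p →
    Qt (vf g w t) p (p + 1) (p + 2) (p + 3) ∨ Qt (vf g w t) p (p + 3) (p + 1) (p + 2)

/-- signs of determinants depend only on the letters -/
def Hs (g : Fin 3 → ℕ → Fin 5 → K) : Prop :=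
  ∀ (w : ℕ → Fin 3) (t : ℕ → ℕ), StrictMono t → (0 < br (vf g w t) ↔ 0 < br (vf g w id))

/-- splits depend only on the letters -/
def Hq (g : Fin 3 → ℕ → Fin 5 → K) : Prop :=
  ∀ (w : ℕ → Fin 3) (t : ℕ → ℕ), StrictMono t → ∀ a b c d : ℕ, a < 7 → b < 7 → c < 7 → d < 7 →
    (Qt (vf g w t) a b c d ↔ Qt (vf g w id) a b c d)

/-- a homogeneous configuration -/
structure Hcf (g : Fin 3 → ℕ → Fin 5 → K) : Prop where
  gen : Gen g
  wrd : Wrd g
  nst : Nst g
  hs : Hs g
  hq : Hq g

end K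

/-! ### Atoms, literals (literal = 2 * atom + sign, sign 1 = negated), clauses -/

/-- atom: the word `w` is positive -/
def xA (w : ℕ) : ℕ := 4 * w

/-- atom: exactly one of the words `a`, `b` is positive -/
def zA (a b : ℕ) : ℕ :=
  bif Nat.beq a b then 1 else bif Nat.ble a b then 4 * (243 * a + b) + 1 else 4 * (243 * b + a) + 1

/-- atom: the split `ab|cd` of the word `u` -/
def sA (u a b c d : ℕ) : ℕ := 4 * ((((u * 8 + a) * 8 + b) * 8 + c) * 8 + d) + 2

def cA2 (u a b c d : ℕ) : ℕ := bif Nat.blt c a then sA u c d a b else sA u a b c d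

def cA1 (u a b c d : ℕ) : ℕ := bif Nat.blt d c then cA2 u a b d c else cA2 u a b c d

/-- canonical atom for the split `ab|cd` -/
def cA (u a b c d : ℕ) : ℕ := bif Nat.blt b a then cA1 u b a c d else cA1 u a b c d

/-- word `u` without positions `a < b` -/
def w2 (u a b : ℕ) : ℕ := dw (dw u b) a

/-- position of `a` after deletion of `o` -/
def sh (o a : ℕ) : ℕ := bif Nat.blt a o then a else a - 1

/-- the split `ab|cd` of the 8-letter word `w` without position `o` -/
def s8 (w o a b c d : ℕ) : ℕ := cA (dw w o) (sh o a) (sh o b) (sh o c) (sh o d)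

/-- reduced words -/
def cWd (s c i : ℕ) : List ℕ := [2 * xA (dw c i) + s, 2 * xA (dw c (i + 1)) + s]

/-- definition of the xor atoms -/
def cXr (k a b : ℕ) : List ℕ :=
  match k with
  | 0 => [2 * zA a b + 1, 2 * xA a, 2 * xA b]
  | 1 => [2 * zA a b + 1, 2 * xA a + 1, 2 * xA b + 1]
  | 2 => [2 * zA a b, 2 * xA a + 1, 2 * xA b]
  | _ => [2 * zA a b, 2 * xA a, 2 * xA b + 1]

/-- signs of the three Grassmann-Pluecker terms are not all equal -/
def cSg (s u a b c d : ℕ) : List ℕ :=
  [2 * zA (w2 u a b) (w2 u c d) + s, 2 * zA (w2 u a c) (w2 u b d) + (1 - s),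
    2 * zA (w2 u a d) (w2 u b c) + s]

/-- the odd one out is not a split -/
def cOd (s u a b c d e : ℕ) : List ℕ :=
  match e with
  | 0 => [2 * cA u a b c d + 1, 2 * zA (w2 u a b) (w2 u c d) + s,
      2 * zA (w2 u a c) (w2 u b d) + s, 2 * zA (w2 u a d) (w2 u b c) + (1 - s)]
  | 1 => [2 * cA u a c b d + 1, 2 * zA (w2 u a b) (w2 u c d) + (1 - s),
      2 * zA (w2 u a c) (w2 u b d) + (1 - s), 2 * zA (w2 u a d) (w2 u b c) + (1 - s)]
  | _ => [2 * cA u a d b c + 1, 2 * zA (w2 u a b) (w2 u c d) + (1 - s),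
      2 * zA (w2 u a c) (w2 u b d) + s, 2 * zA (w2 u a d) (w2 u b c) + s]

/-- at most one split -/
def cEx (u a b c d : ℕ) : List ℕ := [2 * cA u a b c d + 1, 2 * cA u a c b d + 1]

/-- not a star -/
def cNs (u p : ℕ) : List ℕ :=
  [2 * cA u p (p + 1) (p + 2) (p + 3), 2 * cA u p (p + 3) (p + 1) (p + 2)]

/-- tree axioms for one word of seven letters -/
def c7a (u a b c d e : ℕ) : List ℕ := [2 * cA u a b c d + 1, 2 * cA u a b c e + 1, 2 * cA u a b d e]
def c7b (u a b c d e : ℕ) : List ℕ := [2 * cA u a b c d + 1, 2 * cA u a b c e, 2 * cA u a e c d]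

/-- tree axioms for one word of eight letters -/
def c8a (w a b c d e : ℕ) : List ℕ :=
  [2 * s8 w e a b c d + 1, 2 * s8 w d a b c e + 1, 2 * s8 w c a b d e]
def c8b (w a b c d e : ℕ) : List ℕ := [2 * s8 w e a b c d + 1, 2 * s8 w d a b c e, 2 * s8 w b a e c d]

/-! ### Semantics of atoms, literals, clauses -/

section S

variable {K : Type} [Field K] [LinearOrder K]

/-- truth of an atom -/
def rho (g : Fin 3 → ℕ → Fin 5 → K) (n : ℕ) : Prop :=
  if n % 4 = 0 then 0 < br (vf g (lt (n / 4)) id)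
  else if n % 4 = 1 then
    ¬ (0 < br (vf g (lt (n / 4 / 243)) id) ↔ 0 < br (vf g (lt (n / 4 % 243)) id))
  else Qt (vf g (lt (n / 16384)) id) (n / 2048 % 8) (n / 256 % 8) (n / 32 % 8) (n / 4 % 8)

end S

/-- truth of a literal -/
def lT (r : ℕ → Prop) (l : ℕ) : Prop := if l % 2 = 0 then r (l / 2) else ¬ r (l / 2)

/-- truth of a clause -/
def Tr (r : ℕ → Prop) (C : List ℕ) : Prop := ∃ l ∈ C, lT r l

end Pool.Agent.MCN
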