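import Pool.Agent.MCN.Stmts

/-! FRZ: from the frozen statement to vectors -/

set_option autoImplicit false

namespace Pool.Agent.MCN

namespace FRZ_

theorem le_of_strictMono {t : ℕ → ℕ} (ht : StrictMono t) : 5 ≤ t 5 := ht.le_apply

/-- positions -/
def pos (c : ℕ) (t : ℕ → ℕ) (j : ℕ) : ℕ := 3 * t j + (lt c j : ℕ)

theorem pos_strictMono (c : ℕ) {t : ℕ → ℕ} (ht : StrictMono t) : StrictMono (pos c t) := by
  intro i j hij
  have h1 := ht hij
  have h2 := (lt c i).isLt
  unfold pos
  omega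

theorem pos_lt (c : ℕ) {t : ℕ → ℕ} (ht : StrictMono t) {k j : ℕ} (hk : t 5 < k) (hj : j < 6) :
    pos c t j < k * 3 := by
  have h1 : t j ≤ t 5 := ht.monotone (by omega)
  have h2 := (lt c j).isLt
  unfold pos
  omega

/-- the main step: vectors for one word -/
theorem word {T : Finset ℕ} {P : Finset ℕ → Prop} (g : ℕ → Fin 5 → ℝ)
    (hg : ∀ R : Finset ℕ, R ⊆ T → R.card = 6 → P R →
      ∃ x : ℕ → ℝ, (∀ p ∈ R, 0 < x p) ∧ ∑ p ∈ R, x p • g p = 0 ∧
        ∀ z : ℕ → ℝ, ∑ p ∈ R, z p • g p = 0 → ∃ c : ℝ, ∀ p ∈ R, z p = c * x p)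
    (hS : Stmt_Sgn) (f : ℕ → ℕ) (hf : StrictMono f) (hR : (Finset.range 6).image f ⊆ T)
    (hc : ((Finset.range 6).image f).card = 6) (hP : P ((Finset.range 6).image f)) (i : ℕ)
    (hi : i < 5) :
    br (fun j => g (f (dl i j))) * br (fun j => g (f (dl (i + 1) j))) < 0 := by
  obtain ⟨x, hx, hx0, hxz⟩ := hg _ hR hc hP
  have hinj : Function.Injective f := hf.injective
  have hsum : ∀ z : ℕ → ℝ, ∑ p ∈ (Finset.range 6).image f, z p • g p =
      ∑ j ∈ Finset.range 6, z (f j) • g (f j) := fun z =>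
    Finset.sum_image fun a _ b _ h => hinj h
  have key := hS (fun j => g (f j)) (fun j => x (f j)) ?_ ?_ ?_ i hi
  · exact key
  · intro j hj
    exact hx _ (Finset.mem_image_of_mem f (Finset.mem_range.2 hj))
  · have := hsum x
    rw [hx0] at this
    exact this.symm
  · intro z hz
    have h1 : ∀ j, (fun p => z (Function.invFun f p)) (f j) = z j := fun j => by
      show z (Function.invFun f (f j)) = z j
      rw [Function.leftInverse_invFun hinj j]
    obtain ⟨c, hc⟩ := hxz (fun p => z (Function.invFun f p)) (by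
      rw [hsum]
      simp only [Function.leftInverse_invFun hinj _]
      exact hz)
    refine ⟨c, fun j hj => ?_⟩
    have h2 := hc (f j) (Finset.mem_image_of_mem f (Finset.mem_range.2 hj))
    rw [← h1 j]
    exact h2

end FRZ_

open FRZ_

theorem frz_proof (h1 : Stmt_Cox) (h2 : Stmt_Lis) (h3 : Stmt_Lex) (h4 : Stmt_Gal)
    (h5 : Stmt_Sgn) : Stmt_Frz := by
  intro hFz k
  by_cases hk : k < 6
  · refine ⟨fun _ _ _ => 0, ?_⟩
    intro c _ t ht htk
    have := le_of_strictMono ht
    omega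
  obtain ⟨M, W, _, cs, w₀, hfin, hlen, hmax, hRW, hne⟩ := h1
  have hk6 : 6 ≤ k := Nat.not_lt.1 hk
  -- letters
  let a : ℕ → Fin 3 := fun i => ⟨i % 3, Nat.mod_lt i (by norm_num)⟩
  have ha : ∀ i : ℕ, (a i : ℕ) = i % 3 := fun i => rfl
  have hN : 18 ≤ 3 * (k + 6) := by omega
  have hS18 : ({0, 1, 2, 3, 4, 6} : Finset ℕ) ⊆ Finset.range 18 := by decide
  have hmain := hFz 3 (by norm_num) M W cs hfin 1 a (fun i => rfl) k (by omega) w₀
    (fun u => by rw [hlen]; exact hmax u) {0, 1, 2, 3, 4, 6}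
    ⟨by rw [hlen]; exact hS18, by rw [hlen]; decide, by
      rw [hlen, filter_range _ hN _ hS18]
      have hw := hRW 102 (by decide)
      have hl : ((List.range 18).filter
          (fun i => decide (i ∈ ({0, 1, 2, 3, 4, 6} : Finset ℕ)))).map a =
            (List.range 6).map (lt 102) := by decide
      rw [hl]
      exact hw, by
      rw [hlen]
      intro S' hS' hc' hw' hne'
      exact h3 M W cs w₀ a (3 * (k + 6)) ha hN hne S' hS' hc' hw' hne'⟩ _ rfl
  rw [hlen] at hmain
  obtain ⟨d, v, hF⟩ := hmain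
  -- subsets of range (k * 3)
  have hsub : ∀ f : ℕ → ℕ, (∀ j < 6, f j < k * 3) → (Finset.range 6).image f ⊆
      Finset.range (k * 3) ∪ ({0, 1, 2, 3, 4, 6} : Finset ℕ).image (fun s => s + k * 3) := by
    intro f hf p hp
    obtain ⟨j, hj, rfl⟩ := Finset.mem_image.1 hp
    exact Finset.mem_union_left _ (Finset.mem_range.2 (hf j (Finset.mem_range.1 hj)))
  have hP : ∀ c ∈ RW, ∀ t : ℕ → ℕ, StrictMono t → t 5 < k →
      ((Finset.range 6).image (pos c t)).card = 6 ∧
      cs.wordProd (((List.range (3 * (k + 6))).filter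
        (fun i => decide (i ∈ (Finset.range 6).image (pos c t)))).map a) = w₀ := by
    intro c hc t ht htk
    obtain ⟨e1, e2⟩ := h2 a ha c t (3 * (k + 6)) ht (by omega) _ rfl
    refine ⟨e1, ?_⟩
    have e3 := hRW c hc
    rw [← e2] at e3
    exact e3
  obtain ⟨g, hg⟩ := h4 _ (fun R => cs.wordProd (((List.range (3 * (k + 6))).filter
    (fun i => decide (i ∈ R))).map a) = w₀) d v
    ⟨(Finset.range 6).image (pos 102 id),
      hsub _ fun j hj => pos_lt 102 strictMono_id (show id 5 < k by simp only [id]; omega) hj,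
      (hP 102 (by decide) id strictMono_id (show id 5 < k by simp only [id]; omega)).1,
      (hP 102 (by decide) id strictMono_id (show id 5 < k by simp only [id]; omega)).2⟩ hF
  refine ⟨fun s t => g (3 * t + (s : ℕ)), ?_⟩
  intro c hc t ht htk i hi
  exact word g hg h5 (pos c t) (pos_strictMono c ht) (hsub _ fun j hj => pos_lt c ht htk hj)
    (hP c hc t ht htk).1 (hP c hc t ht htk).2 i hi

end Pool.Agent.MCN
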