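import Pool.Agent.MCN.Stmts

/-! The ultrapower -/

set_option autoImplicit false

namespace Pool.Agent.MCN

theorem ger_proof : Stmt_Ger := by
  intro K _ _ _
  refine ⟨Filter.Germ (Filter.hyperfilter ℕ : Filter ℕ) K, inferInstance, inferInstance,
    inferInstance, Filter.Germ.coeRingHom _, ?_⟩
  intro f hf
  obtain ⟨N, hN⟩ := hf
  have h1 : ∀ᶠ m in (Filter.hyperfilter ℕ : Filter ℕ), 0 < f m := by
    apply Nat.hyperfilter_le_atTop
    exact Filter.eventually_atTop.2 ⟨N, hN⟩
  exact Filter.Germ.coe_lt.2 h1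

end Pool.Agent.MCN
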