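import Pool.Agent.MCN.Stmts

/-! MCN, module GRA: growth (abstract) -/

set_option autoImplicit false

namespace Pool.Agent.MCN

namespace GRA_

variable {K : Type} [Field K] [LinearOrder K] [IsStrictOrderedRing K]

/-- the gap function -/
def gp (E : ℕ → ℕ → K) (x0 i j : ℕ) : K := E i j / (E x0 i * E x0 j)

theorem gp_pos {E : ℕ → ℕ → K} {x0 x3 : ℕ} (hpos : ∀ i j, x0 ≤ i → i < j → j ≤ x3 → 0 < E i j)
    {i j : ℕ} (h1 : x0 < i) (h2 : i < j) (h3 : j ≤ x3) : 0 < gp E x0 i j := by
  unfold gp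
  exact div_pos (hpos i j h1.le h2 h3)
    (mul_pos (hpos x0 i le_rfl h1 (by omega)) (hpos x0 j le_rfl (by omega) h3))

theorem gp_add {E : ℕ → ℕ → K} {x0 x3 : ℕ} (hpos : ∀ i j, x0 ≤ i → i < j → j ≤ x3 → 0 < E i j)
    (hrel : ∀ i j k l, x0 ≤ i → i < j → j < k → k < l → l ≤ x3 →
      E i k * E j l = E i j * E k l + E i l * E j k)
    {i j k : ℕ} (h1 : x0 < i) (h2 : i < j) (h3 : j < k) (h4 : k ≤ x3) :
    gp E x0 i k = gp E x0 i j + gp E x0 j k := by
  have p1 := (hpos x0 i le_rfl h1 (by omega)).ne'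
  have p2 := (hpos x0 j le_rfl (by omega) (by omega)).ne'
  have p3 := (hpos x0 k le_rfl (by omega) h4).ne'
  have h := hrel x0 i j k le_rfl h1 h2 h3 h4
  unfold gp
  rw [div_add_div _ _ (mul_ne_zero p1 p2) (mul_ne_zero p2 p3),
    div_eq_div_iff (mul_ne_zero p1 p3) (mul_ne_zero (mul_ne_zero p1 p2) (mul_ne_zero p2 p3))]
  linear_combination (E x0 i * E x0 j * E x0 k) * h

theorem gp_mono {E : ℕ → ℕ → K} {x0 x3 : ℕ} (hpos : ∀ i j, x0 ≤ i → i < j → j ≤ x3 → 0 < E i j)
    (hrel : ∀ i j k l, x0 ≤ i → i < j → j < k → k < l → l ≤ x3 →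
      E i k * E j l = E i j * E k l + E i l * E j k)
    {i j k : ℕ} (h1 : x0 < i) (h2 : i < j) (h3 : j ≤ k) (h4 : k ≤ x3) :
    gp E x0 i j ≤ gp E x0 i k := by
  rcases h3.eq_or_lt with rfl | h3
  · exact le_rfl
  · rw [gp_add hpos hrel h1 h2 h3 h4]
    linarith [gp_pos hpos (by omega : x0 < j) h3 h4]

theorem gp_mono' {E : ℕ → ℕ → K} {x0 x3 : ℕ} (hpos : ∀ i j, x0 ≤ i → i < j → j ≤ x3 → 0 < E i j)
    (hrel : ∀ i j k l, x0 ≤ i → i < j → j < k → k < l → l ≤ x3 →
      E i k * E j l = E i j * E k l + E i l * E j k)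
    {i j k : ℕ} (h1 : x0 < i) (h2 : i ≤ j) (h3 : j < k) (h4 : k ≤ x3) :
    gp E x0 j k ≤ gp E x0 i k := by
  rcases h2.eq_or_lt with rfl | h2
  · exact le_rfl
  · rw [gp_add hpos hrel h1 h2 h3 h4]
    linarith [gp_pos hpos h1 h2 (by omega)]

end GRA_

open GRA_ in
theorem gra_proof : Stmt_Gra := by
  intro K _ _ _ E x0 x3 hpos hrel
  refine ⟨?_, ?_⟩
  · intro hc x1 x2 m h1 h2 h3 hm
    have p01 := hpos x0 x1 le_rfl h1 (by omega)
    have p02 := hpos x0 x2 le_rfl (by omega) (by omega)
    have p03 := hpos x0 x3 le_rfl (by omega) le_rfl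
    have p12 := hpos x1 x2 (by omega) h2 (by omega)
    have p23 := hpos x2 x3 (by omega) h3 le_rfl
    have hcg : ∀ i j k, x0 < i → i < j → j < k → k ≤ x3 → gp E x0 j k ≤ gp E x0 i j := by
      intro i j k k1 k2 k3 k4
      have q1 := hpos x0 i le_rfl k1 (by omega)
      have q2 := hpos x0 j le_rfl (by omega) (by omega)
      have q3 := hpos x0 k le_rfl (by omega) k4
      have h := hc x0 i j k le_rfl k1 k2 k3 k4
      unfold gp
      rw [div_le_div_iff₀ (mul_pos q2 q3) (mul_pos q1 q2)]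
      have := mul_le_mul_of_nonneg_left h q2.le
      linarith
    have key : ∀ n : ℕ, 1 ≤ n → x1 + n ≤ x2 →
        (n : K) * gp E x0 x2 x3 ≤ gp E x0 x1 (x1 + n) := by
      intro n hn
      induction n, hn using Nat.le_induction with
      | base =>
        intro hn
        rw [Nat.cast_one, one_mul]
        exact (gp_mono' hpos hrel (by omega) hn h3 le_rfl).trans
          (hcg x1 (x1 + 1) x3 h1 (by omega) (by omega) le_rfl)
      | succ n hn ih =>
        intro hn'
        have e1 := ih (by omega)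
        have e2 := gp_add hpos hrel h1 (by omega : x1 < x1 + n) (by omega : x1 + n < x1 + (n + 1))
          (by omega)
        have e3 : gp E x0 x2 x3 ≤ gp E x0 (x1 + n) (x1 + (n + 1)) :=
          (gp_mono' hpos hrel (by omega) hn' h3 le_rfl).trans
            (hcg (x1 + n) (x1 + (n + 1)) x3 (by omega) (by omega) (by omega) le_rfl)
        rw [e2]
        push_cast
        linarith
    rcases Nat.eq_zero_or_pos m with rfl | hm0
    · rw [Nat.cast_zero, zero_mul]
      exact (mul_pos p03 p12).le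
    · have e := (key m hm0 hm).trans (gp_mono hpos hrel h1 (by omega) hm (by omega))
      unfold gp at e
      rw [← mul_div_assoc, div_le_div_iff₀ (mul_pos p02 p03) (mul_pos p01 p02)] at e
      have e' : E x0 x2 * ((m : K) * (E x0 x1 * E x2 x3)) ≤ E x0 x2 * (E x0 x3 * E x1 x2) := by
        linarith
      exact le_of_mul_le_mul_left e' p02
  · intro hc x1 x2 m h1 h2 h3 hm
    have p01 := hpos x0 x1 le_rfl h1 (by omega)
    have p02 := hpos x0 x2 le_rfl (by omega) (by omega)
    have p03 := hpos x0 x3 le_rfl (by omega) le_rfl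
    have p12 := hpos x1 x2 (by omega) h2 (by omega)
    have p23 := hpos x2 x3 (by omega) h3 le_rfl
    have hcg : ∀ i j k, x0 < i → i < j → j < k → k ≤ x3 → gp E x0 i j ≤ gp E x0 j k := by
      intro i j k k1 k2 k3 k4
      have q1 := hpos x0 i le_rfl k1 (by omega)
      have q2 := hpos x0 j le_rfl (by omega) (by omega)
      have q3 := hpos x0 k le_rfl (by omega) k4
      have h := hc x0 i j k le_rfl k1 k2 k3 k4
      unfold gp
      rw [div_le_div_iff₀ (mul_pos q1 q2) (mul_pos q2 q3)]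
      have := mul_le_mul_of_nonneg_left h q2.le
      linarith
    have key : ∀ n : ℕ, 1 ≤ n → x2 + n ≤ x3 →
        (n : K) * gp E x0 x1 x2 ≤ gp E x0 x2 (x2 + n) := by
      intro n hn
      induction n, hn using Nat.le_induction with
      | base =>
        intro hn
        rw [Nat.cast_one, one_mul]
        exact hcg x1 x2 (x2 + 1) h1 h2 (by omega) hn
      | succ n hn ih =>
        intro hn'
        have e1 := ih (by omega)
        have e2 := gp_add hpos hrel (by omega : x0 < x2) (by omega : x2 < x2 + n)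
          (by omega : x2 + n < x2 + (n + 1)) (by omega)
        have e3 : gp E x0 x1 x2 ≤ gp E x0 (x2 + n) (x2 + (n + 1)) :=
          (gp_mono hpos hrel h1 h2 (by omega : x2 ≤ x2 + n) (by omega)).trans
            (hcg x1 (x2 + n) (x2 + (n + 1)) h1 (by omega) (by omega) (by omega))
        rw [e2]
        push_cast
        linarith
    rcases Nat.eq_zero_or_pos m with rfl | hm0
    · rw [Nat.cast_zero, zero_mul]
      exact (mul_pos p01 p23).le
    · have e := (key m hm0 hm).trans (gp_mono hpos hrel (by omega) (by omega) hm le_rfl)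
      unfold gp at e
      rw [← mul_div_assoc, div_le_div_iff₀ (mul_pos p01 p02) (mul_pos p02 p03)] at e
      have e' : E x0 x2 * ((m : K) * (E x0 x3 * E x1 x2)) ≤ E x0 x2 * (E x0 x1 * E x2 x3) := by
        linarith
      exact le_of_mul_le_mul_left e' p02

end Pool.Agent.MCN
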