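import Pool.Agent.MCN.Stmts

/-! MCN: GRB, growth for configurations -/

set_option autoImplicit false

namespace Pool.Agent.MCN

namespace GRB_

/-- the word without the positions `p + 2`, `p + 3` -/
def wd (w : ℕ → Fin 3) (p r : ℕ) : Fin 3 := if r < p + 2 then w r else w (r + 2)

/-- the times with `i`, `j` at the positions `p`, `p + 1` -/
def td (t : ℕ → ℕ) (p i j r : ℕ) : ℕ :=
  if r < p then t r else if r = p then i else if r = p + 1 then j else t (r + 2)

/-- the times with `i j k l` at the positions `p, …, p + 3` -/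
def tf (t : ℕ → ℕ) (p i j k l r : ℕ) : ℕ :=
  if r < p then t r else if r = p then i else if r = p + 1 then j else if r = p + 2 then k
    else if r = p + 3 then l else t r

theorem td_mono {t : ℕ → ℕ} (ht : StrictMono t) {p i j : ℕ} (h1 : t p ≤ i) (h2 : i < j)
    (h3 : j ≤ t (p + 3)) : StrictMono (td t p i j) := by
  apply strictMono_nat_of_lt_succ
  intro r
  unfold td
  have e1 := ht (show r < r + 1 by omega)
  have e2 := ht (show r + 2 < r + 1 + 2 by omega)
  by_cases c1 : r + 1 < p
  · rw [if_pos (by omega), if_pos c1]; exact e1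
  · by_cases c2 : r + 1 = p
    · subst c2
      rw [if_pos (by omega), if_neg (by omega), if_pos rfl]
      exact lt_of_lt_of_le e1 h1
    · by_cases c3 : r = p
      · subst c3
        rw [if_neg (by omega), if_pos rfl, if_neg (by omega), if_neg (by omega), if_pos rfl]
        exact h2
      · by_cases c4 : r = p + 1
        · subst c4
          rw [if_neg (by omega), if_neg (by omega), if_pos rfl, if_neg (by omega),
            if_neg (by omega), if_neg (by omega)]
          have e3 := ht (show p + 3 < p + 1 + 1 + 2 by omega)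
          omega
        · rw [if_neg (by omega), if_neg (by omega), if_neg (by omega), if_neg (by omega),
            if_neg (by omega), if_neg (by omega)]
          exact e2

theorem tf_mono {t : ℕ → ℕ} (ht : StrictMono t) {p i j k l : ℕ} (h1 : t p ≤ i) (h2 : i < j)
    (h3 : j < k) (h4 : k < l) (h5 : l ≤ t (p + 3)) : StrictMono (tf t p i j k l) := by
  apply strictMono_nat_of_lt_succ
  intro r
  unfold tf
  have e1 := ht (show r < r + 1 by omega)
  by_cases c1 : r + 1 < p
  · rw [if_pos (by omega), if_pos c1]; exact e1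
  · by_cases c2 : r + 1 = p
    · subst c2
      rw [if_pos (by omega), if_neg (by omega), if_pos rfl]
      exact lt_of_lt_of_le e1 h1
    · by_cases c3 : r = p
      · subst c3
        rw [if_neg (by omega), if_pos rfl, if_neg (by omega), if_neg (by omega), if_pos rfl]
        exact h2
      · by_cases c4 : r = p + 1
        · subst c4
          rw [if_neg (by omega), if_neg (by omega), if_pos rfl, if_neg (by omega),
            if_neg (by omega), if_neg (by omega), if_pos (by omega)]
          exact h3
        · by_cases c5 : r = p + 2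
          · subst c5
            rw [if_neg (by omega), if_neg (by omega), if_neg (by omega), if_pos rfl,
              if_neg (by omega), if_neg (by omega), if_neg (by omega), if_neg (by omega),
              if_pos (by omega)]
            exact h4
          · by_cases c6 : r = p + 3
            · subst c6
              rw [if_neg (by omega), if_neg (by omega), if_neg (by omega), if_neg (by omega),
                if_pos rfl, if_neg (by omega), if_neg (by omega), if_neg (by omega),
                if_neg (by omega), if_neg (by omega)]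
              exact lt_of_le_of_lt h5 e1
            · rw [if_neg (by omega), if_neg (by omega), if_neg (by omega), if_neg (by omega),
                if_neg (by omega), if_neg (by omega), if_neg (by omega), if_neg (by omega),
                if_neg (by omega), if_neg (by omega)]
              exact e1

theorem tf_out {t : ℕ → ℕ} {p i j k l : ℕ} (r : ℕ) (h : r < p ∨ p + 4 ≤ r) :
    tf t p i j k l r = t r := by
  unfold tf
  rcases h with h | h
  · rw [if_pos h]
  · rw [if_neg (by omega), if_neg (by omega), if_neg (by omega), if_neg (by omega),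
      if_neg (by omega)]

theorem tf_0 {t : ℕ → ℕ} {p i j k l : ℕ} : tf t p i j k l p = i := by
  unfold tf
  rw [if_neg (by omega), if_pos rfl]

theorem tf_1 {t : ℕ → ℕ} {p i j k l : ℕ} : tf t p i j k l (p + 1) = j := by
  unfold tf
  rw [if_neg (by omega), if_neg (by omega), if_pos rfl]

theorem tf_2 {t : ℕ → ℕ} {p i j k l : ℕ} : tf t p i j k l (p + 2) = k := by
  unfold tf
  rw [if_neg (by omega), if_neg (by omega), if_neg (by omega), if_pos rfl]

theorem tf_3 {t : ℕ → ℕ} {p i j k l : ℕ} : tf t p i j k l (p + 3) = l := by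
  unfold tf
  rw [if_neg (by omega), if_neg (by omega), if_neg (by omega), if_neg (by omega), if_pos rfl]

variable {K : Type} [Field K]

theorem vf_of (g : Fin 3 → ℕ → Fin 5 → K) {w : ℕ → Fin 3} {t t' : ℕ → ℕ} {p : ℕ}
    (ht : ∀ r, r < p ∨ p + 4 ≤ r → t' r = t r) (hw : ∀ x < 4, w (p + x) = w p)
    (f : ℕ → ℕ) (x y : ℕ) (hf : ∀ j, j < p → f j = j) (hp : f p = p + x)
    (hp1 : f (p + 1) = p + y) (h2 : ∀ j, p + 2 ≤ j → f j = j + 2) (hx : x < 4) (hy : y < 4) :
    (fun j => vf g w t' (f j)) = vf g (wd w p) (td t p (t' (p + x)) (t' (p + y))) := by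
  funext j
  show g (w (f j)) (t' (f j)) = g (wd w p j) (td t p (t' (p + x)) (t' (p + y)) j)
  unfold wd td
  by_cases c1 : j < p
  · rw [hf j c1, if_pos (by omega), if_pos c1, ht j (Or.inl c1)]
  · by_cases c2 : j = p
    · subst c2
      rw [hp, if_pos (by omega), if_neg (by omega), if_pos rfl, hw x hx]
    · by_cases c3 : j = p + 1
      · subst c3
        rw [hp1, if_pos (by omega), if_neg (by omega), if_neg (by omega), if_pos rfl, hw y hy,
          hw 1 (by omega)]
      · rw [h2 j (by omega), if_neg (by omega), if_neg (by omega), if_neg (by omega),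
          if_neg (by omega), ht (j + 2) (Or.inr (by omega))]

section
variable (g : Fin 3 → ℕ → Fin 5 → K) {w : ℕ → Fin 3} {t t' : ℕ → ℕ} {p : ℕ}
    (ht : ∀ r, r < p ∨ p + 4 ≤ r → t' r = t r) (hw : ∀ x < 4, w (p + x) = w p)
include ht hw

theorem v01 : (fun j => vf g w t' (dl (p + 3) (dl (p + 2) j))) =
    vf g (wd w p) (td t p (t' p) (t' (p + 1))) :=
  vf_of g ht hw (fun j => dl (p + 3) (dl (p + 2) j)) 0 1
    (fun j hj => by simp only [dl]; split_ifs <;> omega)
    (by simp only [dl]; split_ifs <;> omega) (by simp only [dl]; split_ifs <;> omega)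
    (fun j hj => by simp only [dl]; split_ifs <;> omega) (by omega) (by omega)

theorem v23 : (fun j => vf g w t' (dl (p + 1) (dl p j))) =
    vf g (wd w p) (td t p (t' (p + 2)) (t' (p + 3))) :=
  vf_of g ht hw (fun j => dl (p + 1) (dl p j)) 2 3
    (fun j hj => by simp only [dl]; split_ifs <;> omega)
    (by simp only [dl]; split_ifs <;> omega) (by simp only [dl]; split_ifs <;> omega)
    (fun j hj => by simp only [dl]; split_ifs <;> omega) (by omega) (by omega)

theorem v12 : (fun j => vf g w t' (dl (p + 3) (dl p j))) =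
    vf g (wd w p) (td t p (t' (p + 1)) (t' (p + 2))) :=
  vf_of g ht hw (fun j => dl (p + 3) (dl p j)) 1 2
    (fun j hj => by simp only [dl]; split_ifs <;> omega)
    (by simp only [dl]; split_ifs <;> omega) (by simp only [dl]; split_ifs <;> omega)
    (fun j hj => by simp only [dl]; split_ifs <;> omega) (by omega) (by omega)

theorem v03 : (fun j => vf g w t' (dl (p + 2) (dl (p + 1) j))) =
    vf g (wd w p) (td t p (t' p) (t' (p + 3))) :=
  vf_of g ht hw (fun j => dl (p + 2) (dl (p + 1) j)) 0 3
    (fun j hj => by simp only [dl]; split_ifs <;> omega)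
    (by simp only [dl]; split_ifs <;> omega) (by simp only [dl]; split_ifs <;> omega)
    (fun j hj => by simp only [dl]; split_ifs <;> omega) (by omega) (by omega)

theorem v13 : (fun j => vf g w t' (dl (p + 2) (dl p j))) =
    vf g (wd w p) (td t p (t' (p + 1)) (t' (p + 3))) :=
  vf_of g ht hw (fun j => dl (p + 2) (dl p j)) 1 3
    (fun j hj => by simp only [dl]; split_ifs <;> omega)
    (by simp only [dl]; split_ifs <;> omega) (by simp only [dl]; split_ifs <;> omega)
    (fun j hj => by simp only [dl]; split_ifs <;> omega) (by omega) (by omega)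

theorem v02 : (fun j => vf g w t' (dl (p + 3) (dl (p + 1) j))) =
    vf g (wd w p) (td t p (t' p) (t' (p + 2))) :=
  vf_of g ht hw (fun j => dl (p + 3) (dl (p + 1) j)) 0 2
    (fun j hj => by simp only [dl]; split_ifs <;> omega)
    (by simp only [dl]; split_ifs <;> omega) (by simp only [dl]; split_ifs <;> omega)
    (fun j hj => by simp only [dl]; split_ifs <;> omega) (by omega) (by omega)

end

variable [LinearOrder K]

theorem tt_eq (h : Stmt_Nth) (q : ℕ → Fin 5 → K) {a b : ℕ} (hab : a < b) :
    tt q {a, b} = |br (fun j => q (dl b (dl a j)))| := by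
  unfold tt
  have e : (fun j => q (Nat.nth (fun i => i ∉ ({a, b} : Finset ℕ)) j)) =
      fun j => q (dl b (dl a j)) := by
    funext j
    rw [h.2 a b j hab]
  rw [e]

end GRB_

open GRB_ in
/-- GRB: growth for configurations. -/
theorem grb_proof (h1 : Stmt_Gra) (h2 : Stmt_Plu) (h3 : Stmt_Nth) : Stmt_Grb := by
  intro K _ _ _ g hG hS hC w p hp w1 w2 w3
  have hw : ∀ x < 4, w (p + x) = w p := by
    intro x hx
    interval_cases x
    · rfl
    · exact w1
    · exact w2
    · exact w3
  -- the four products in terms of `E`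
  set E : (ℕ → ℕ) → ℕ → ℕ → K := fun t i j => |br (vf g (wd w p) (td t p i j))| with hE
  have L : ∀ (t t' : ℕ → ℕ), (∀ r, r < p ∨ p + 4 ≤ r → t' r = t r) →
      tt (vf g w t') {p, p + 1} * tt (vf g w t') {p + 2, p + 3} =
        E t (t' p) (t' (p + 1)) * E t (t' (p + 2)) (t' (p + 3)) ∧
      tt (vf g w t') {p, p + 3} * tt (vf g w t') {p + 1, p + 2} =
        E t (t' p) (t' (p + 3)) * E t (t' (p + 1)) (t' (p + 2)) := by
    intro t t' ht
    rw [tt_eq h3 _ (show p < p + 1 by omega), tt_eq h3 _ (show p + 2 < p + 3 by omega),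
      tt_eq h3 _ (show p < p + 3 by omega), tt_eq h3 _ (show p + 1 < p + 2 by omega),
      v01 g ht hw, v23 g ht hw, v12 g ht hw, v03 g ht hw]
    exact ⟨mul_comm _ _, mul_comm _ _⟩
  have hpos : ∀ t : ℕ → ℕ, StrictMono t → ∀ i j, t p ≤ i → i < j → j ≤ t (p + 3) →
      0 < E t i j := fun t ht i j a b c => abs_pos.2 (hG _ _ (td_mono ht a b c))
  have hrel : ∀ t : ℕ → ℕ, StrictMono t → ∀ i j k l, t p ≤ i → i < j → j < k → k < l →
      l ≤ t (p + 3) → E t i k * E t j l = E t i j * E t k l + E t i l * E t j k := by
    intro t ht i j k l a b c d e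
    have ho := fun r hr => tf_out (t := t) (p := p) (i := i) (j := j) (k := k) (l := l) r hr
    have h4 := h2 K (vf g w (tf t p i j k l)) p (p + 1) (p + 2) (p + 3) (by omega) (by omega)
      (by omega) (by omega)
    rw [v01 g ho hw, v23 g ho hw, v12 g ho hw, v03 g ho hw, v13 g ho hw, v02 g ho hw, tf_0, tf_1,
      tf_2, tf_3] at h4
    have sg : ∀ i' j', t p ≤ i' → i' < j' → j' ≤ t (p + 3) →
        (0 < br (vf g (wd w p) (td t p i' j')) ↔ 0 < br (vf g (wd w p) id)) :=
      fun i' j' x y z => hS _ _ (td_mono ht x y z)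
    have gn : ∀ i' j', t p ≤ i' → i' < j' → j' ≤ t (p + 3) →
        br (vf g (wd w p) (td t p i' j')) ≠ 0 := fun i' j' x y z => hG _ _ (td_mono ht x y z)
    by_cases h0 : 0 < br (vf g (wd w p) id)
    · have A : ∀ i' j', t p ≤ i' → i' < j' → j' ≤ t (p + 3) →
          E t i' j' = br (vf g (wd w p) (td t p i' j')) :=
        fun i' j' x y z => abs_of_pos ((sg i' j' x y z).2 h0)
      rw [A i k a (by omega) (by omega), A j l (by omega) (by omega) e,
        A i j a b (by omega), A k l (by omega) d e, A i l a (by omega) e,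
        A j k (by omega) c (by omega)]
      linear_combination (-1 : K) * h4
    · have A : ∀ i' j', t p ≤ i' → i' < j' → j' ≤ t (p + 3) →
          E t i' j' = - br (vf g (wd w p) (td t p i' j')) :=
        fun i' j' x y z => abs_of_neg (lt_of_le_of_ne
          (not_lt.1 fun h => h0 ((sg i' j' x y z).1 h)) (gn i' j' x y z))
      rw [A i k a (by omega) (by omega), A j l (by omega) (by omega) e,
        A i j a b (by omega), A k l (by omega) d e, A i l a (by omega) e,
        A j k (by omega) c (by omega)]
      linear_combination (-1 : K) * h4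
  have hcmp : ∀ t : ℕ → ℕ, StrictMono t → ∀ i j k l, t p ≤ i → i < j → j < k → k < l →
      l ≤ t (p + 3) → (E t i j * E t k l ≤ E t i l * E t j k ↔
        tt (vf g w id) {p, p + 1} * tt (vf g w id) {p + 2, p + 3} ≤
        tt (vf g w id) {p, p + 3} * tt (vf g w id) {p + 1, p + 2}) := by
    intro t ht i j k l a b c d e
    have ho := fun r hr => tf_out (t := t) (p := p) (i := i) (j := j) (k := k) (l := l) r hr
    have h5 := hC w (tf t p i j k l) (tf_mono ht a b c d e) p hp
    obtain ⟨e1, e2⟩ := L t (tf t p i j k l) ho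
    rw [e1, e2, tf_0, tf_1, tf_2, tf_3] at h5
    exact h5
  by_cases h0 : tt (vf g w id) {p, p + 1} * tt (vf g w id) {p + 2, p + 3} ≤
      tt (vf g w id) {p, p + 3} * tt (vf g w id) {p + 1, p + 2}
  · left
    intro t m ht hm
    obtain ⟨e1, e2⟩ := L t t (fun r _ => rfl)
    rw [e1, e2]
    exact (h1 K (E t) (t p) (t (p + 3)) (hpos t ht) (hrel t ht)).1
      (fun i j k l a b c d e => (hcmp t ht i j k l a b c d e).2 h0) (t (p + 1)) (t (p + 2)) m
      (ht (by omega)) (ht (by omega)) (ht (by omega)) (hm (p + 1))
  · right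
    intro t m ht hm
    obtain ⟨e1, e2⟩ := L t t (fun r _ => rfl)
    rw [e1, e2]
    exact (h1 K (E t) (t p) (t (p + 3)) (hpos t ht) (hrel t ht)).2
      (fun i j k l a b c d e => (not_le.1 fun h => h0
        ((hcmp t ht i j k l a b c d e).1 h)).le) (t (p + 1)) (t (p + 2)) m
      (ht (by omega)) (ht (by omega)) (ht (by omega)) (hm (p + 2))

end Pool.Agent.MCN
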