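import Pool.Agent.MCN.Stmts

/-! HOA: passing to a homogeneous subsequence (signs and comparisons) -/

set_option autoImplicit false

namespace Pool.Agent.MCN

namespace HOA_

/-- extension of a word of seven letters by 0 -/
def ext (w : Fin 7 → Fin 3) (j : ℕ) : Fin 3 := if h : j < 7 then w ⟨j, h⟩ else 0

theorem ext_apply (w : ℕ → Fin 3) {j : ℕ} (hj : j < 7) : ext (fun i : Fin 7 => w i) j = w j := by
  simp [ext, hj]

theorem nth_lt (s : Finset ℕ) (j : ℕ) : Nat.nth (fun i => i ∉ s) j < j + s.card + 1 := by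
  apply Nat.nth_lt_of_lt_count
  rw [Nat.count_eq_card_filter_range]
  have h1 := Finset.card_filter_add_card_filter_not (s := Finset.range (j + s.card + 1))
    (fun i => i ∈ s)
  have h2 : ((Finset.range (j + s.card + 1)).filter (fun i => i ∈ s)).card ≤ s.card := by
    apply Finset.card_le_card
    intro x hx
    exact (Finset.mem_filter.1 hx).2
  rw [Finset.card_range] at h1
  omega

section K

variable {K : Type} [Field K] [LinearOrder K]

theorem tt_congr {q q' : ℕ → Fin 5 → K} (h : ∀ j < 7, q j = q' j) (a b : ℕ) :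
    tt q {a, b} = tt q' {a, b} := by
  unfold tt
  congr 1
  apply br_congr
  intro j hj
  apply h
  have h1 := nth_lt {a, b} j
  have h2 : ({a, b} : Finset ℕ).card ≤ 2 := Finset.card_le_two
  omega

theorem vf_congr (g : Fin 3 → ℕ → Fin 5 → K) {w w' : ℕ → Fin 3} {t t' : ℕ → ℕ} {j : ℕ}
    (hw : w j = w' j) (ht : t j = t' j) : vf g w t j = vf g w' t' j := by
  unfold vf
  rw [hw, ht]

/-- the colour -/
noncomputable def col (g : Fin 3 → ℕ → Fin 5 → K) (t : ℕ → ℕ) :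
    ((Fin 7 → Fin 3) → Prop) × ((Fin 7 → Fin 3) → Fin 4 → Prop) :=
  (fun w => 0 < br (vf g (ext w) t),
   fun w p => tt (vf g (ext w) t) {(p : ℕ), (p : ℕ) + 1} *
      tt (vf g (ext w) t) {(p : ℕ) + 2, (p : ℕ) + 3} ≤
      tt (vf g (ext w) t) {(p : ℕ), (p : ℕ) + 3} *
      tt (vf g (ext w) t) {(p : ℕ) + 1, (p : ℕ) + 2})

theorem col_congr (g : Fin 3 → ℕ → Fin 5 → K) (t t' : ℕ → ℕ) (h : ∀ i < 7, t i = t' i) :
    col g t = col g t' := by
  have hv : ∀ w : ℕ → Fin 3, ∀ j < 7, vf g w t j = vf g w t' j := fun w j hj =>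
    vf_congr g rfl (h j hj)
  unfold col
  refine Prod.ext ?_ ?_
  · funext w
    dsimp only
    rw [br_congr (fun j hj => hv (ext w) j (by omega))]
  · funext w p
    dsimp only
    simp only [tt_congr (hv (ext w))]

/-- the configuration along a subsequence -/
def sub (g : Fin 3 → ℕ → Fin 5 → K) (h : ℕ → ℕ) : Fin 3 → ℕ → Fin 5 → K := fun s t => g s (h t)

theorem vf_sub (g : Fin 3 → ℕ → Fin 5 → K) (h : ℕ → ℕ) (w : ℕ → Fin 3) (t : ℕ → ℕ) :
    vf (sub g h) w t = vf g w (h ∘ t) := rfl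

theorem gen_sub {g : Fin 3 → ℕ → Fin 5 → K} {h : ℕ → ℕ} (hh : StrictMono h) (hg : Gen g) :
    Gen (sub g h) := by
  intro w t ht
  rw [vf_sub]
  exact hg w _ (hh.comp ht)

theorem wrd_sub {g : Fin 3 → ℕ → Fin 5 → K} {h : ℕ → ℕ} (hh : StrictMono h) (hg : Wrd g) :
    Wrd (sub g h) := by
  intro c hc t ht i hi
  rw [vf_sub]
  exact hg c hc _ (hh.comp ht) i hi

theorem hs_sub {g : Fin 3 → ℕ → Fin 5 → K} {h : ℕ → ℕ}
    (hc : ∀ t : ℕ → ℕ, StrictMono t → col g (h ∘ t) = col g (h ∘ id)) : Hs (sub g h) := by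
  intro w t ht
  rw [vf_sub, vf_sub]
  have h1 := congrFun (congrArg Prod.fst (hc t ht)) (fun i : Fin 7 => w i)
  unfold col at h1
  dsimp only at h1
  have h2 : ∀ t' : ℕ → ℕ, br (vf g (ext (fun i : Fin 7 => w i)) t') = br (vf g w t') := fun t' =>
    br_congr (fun j hj => vf_congr g (ext_apply w (by omega)) rfl)
  rw [h2, h2] at h1
  exact iff_of_eq h1

theorem hc_sub {g : Fin 3 → ℕ → Fin 5 → K} {h : ℕ → ℕ}
    (hc : ∀ t : ℕ → ℕ, StrictMono t → col g (h ∘ t) = col g (h ∘ id)) : Hc (sub g h) := by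
  intro w t ht p hp
  rw [vf_sub, vf_sub]
  have h1 := congrFun (congrFun (congrArg Prod.snd (hc t ht)) (fun i : Fin 7 => w i)) ⟨p, hp⟩
  unfold col at h1
  dsimp only at h1
  have h2 : ∀ t' : ℕ → ℕ, ∀ a b : ℕ, tt (vf g (ext (fun i : Fin 7 => w i)) t') {a, b} =
      tt (vf g w t') {a, b} := fun t' a b =>
    tt_congr (fun j hj => vf_congr g (ext_apply w hj) rfl) a b
  simp only [h2] at h1
  exact iff_of_eq h1

end K

end HOA_

open HOA_ in
theorem hoa_proof (h1 : Stmt_Ram) : Stmt_Hoa := by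
  intro K _ _ _ g hg hw
  obtain ⟨h, hh, c, hc⟩ := h1 7 (((Fin 7 → Fin 3) → Prop) × ((Fin 7 → Fin 3) → Fin 4 → Prop))
    (col g) (col_congr g)
  have hc' : ∀ t : ℕ → ℕ, StrictMono t → col g (h ∘ t) = col g (h ∘ id) := fun t ht => by
    rw [hc t ht, hc id strictMono_id]
  exact ⟨sub g h, gen_sub hh hg, wrd_sub hh hw, hs_sub hc', hc_sub hc'⟩

end Pool.Agent.MCN
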