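import Pool.Agent.MCN.Stmts

/-! MCN, module HOB: second application of the Ramsey theorem -/

set_option autoImplicit false

namespace Pool.Agent.MCN

namespace HOB_

/-- extension of a word of length 7 -/
def ex (w : Fin 7 → Fin 3) (j : ℕ) : Fin 3 := if h : j < 7 then w ⟨j, h⟩ else 0

theorem ex_eq (w : ℕ → Fin 3) (j : ℕ) (hj : j < 7) : ex (fun i => w i) j = w j := by
  unfold ex
  rw [dif_pos hj]

theorem nth_lt (i k j : ℕ) : Nat.nth (fun x => x ∉ ({i, k} : Finset ℕ)) j < j + 3 := by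
  classical
  apply Nat.nth_lt_of_lt_count
  rw [Nat.count_eq_card_filter_range]
  have h1 : (Finset.range (j + 3)).filter (fun x => x ∉ ({i, k} : Finset ℕ)) =
      Finset.range (j + 3) \ {i, k} := by
    ext x
    simp [Finset.mem_filter, Finset.mem_sdiff]
  rw [h1]
  have h2 := Finset.le_card_sdiff ({i, k} : Finset ℕ) (Finset.range (j + 3))
  have h3 : ({i, k} : Finset ℕ).card ≤ 2 := Finset.card_le_two
  rw [Finset.card_range] at h2
  omega

variable {K : Type} [Field K] [LinearOrder K]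

theorem tt_congr {q q' : ℕ → Fin 5 → K} (h : ∀ j < 7, q j = q' j) (i k : ℕ) :
    tt q {i, k} = tt q' {i, k} := by
  unfold tt
  rw [br_congr (q := fun j => q (Nat.nth (fun x => x ∉ ({i, k} : Finset ℕ)) j))
    (q' := fun j => q' (Nat.nth (fun x => x ∉ ({i, k} : Finset ℕ)) j))]
  intro j hj
  apply h
  have := nth_lt i k j
  omega

theorem Qt_congr {q q' : ℕ → Fin 5 → K} (h : ∀ j < 7, q j = q' j) (a b c d : ℕ) :
    Qt q a b c d = Qt q' a b c d := by
  unfold Qt
  congr 1
  funext i j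
  exact tt_congr h i j

end HOB_

open HOB_ in
theorem hob_proof (hR : Stmt_Ram) : Stmt_Hob := by
  intro K _ _ _ g hgen hwrd hnst
  obtain ⟨h, hh, c, hc⟩ := hR 7 (((Fin 7 → Fin 3) → Prop) ×
      ((Fin 7 → Fin 3) → Fin 7 → Fin 7 → Fin 7 → Fin 7 → Prop))
    (fun t => (fun w => 0 < br (vf g (ex w) t), fun w a b c d => Qt (vf g (ex w) t) a b c d)) (by
      intro t t' htt
      have h1 : ∀ w : Fin 7 → Fin 3, ∀ j < 7, vf g (ex w) t j = vf g (ex w) t' j := by
        intro w j hj
        unfold vf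
        rw [htt j hj]
      ext1
      · funext w
        have : br (vf g (ex w) t) = br (vf g (ex w) t') :=
          br_congr fun j hj => h1 w j (by omega)
        simp only [this]
      · funext w a b c d
        exact Qt_congr (h1 w) a b c d)
  have hvf : ∀ (w : ℕ → Fin 3) (t : ℕ → ℕ), vf (fun s t => g s (h t)) w t = vf g w (h ∘ t) :=
    fun _ _ => rfl
  have hex : ∀ (w : ℕ → Fin 3) (t : ℕ → ℕ), ∀ j < 7,
      vf g (ex fun i => w i) t j = vf g w t j := by
    intro w t j hj
    unfold vf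
    rw [ex_eq w j hj]
  have key : ∀ t : ℕ → ℕ, StrictMono t →
      (fun w : Fin 7 → Fin 3 => 0 < br (vf g (ex w) (h ∘ t)),
        fun (w : Fin 7 → Fin 3) (a b c d : Fin 7) => Qt (vf g (ex w) (h ∘ t)) a b c d) =
      (fun w : Fin 7 → Fin 3 => 0 < br (vf g (ex w) (h ∘ id)),
        fun (w : Fin 7 → Fin 3) (a b c d : Fin 7) => Qt (vf g (ex w) (h ∘ id)) a b c d) := by
    intro t ht
    exact (hc t ht).trans (hc id strictMono_id).symm
  refine ⟨fun s t => g s (h t), ?_, ?_, ?_, ?_, ?_⟩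
  · intro w t ht
    rw [hvf]
    exact hgen w _ (hh.comp ht)
  · intro c' hc' t ht i hi
    exact hwrd c' hc' _ (hh.comp ht) i hi
  · intro w t ht p hp h1 h2 h3
    rw [hvf]
    exact hnst w _ (hh.comp ht) p hp h1 h2 h3
  · intro w t ht
    rw [hvf, hvf]
    have h1 := congrFun (congrArg Prod.fst (key t ht)) (fun i => w i)
    simp only at h1
    rw [br_congr fun j hj => hex w (h ∘ t) j (by omega),
      br_congr fun j hj => hex w (h ∘ id) j (by omega)] at h1
    exact iff_of_eq h1
  · intro w t ht a b c d ha hb hc hd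
    rw [hvf, hvf]
    have h1 := congrFun (congrFun (congrFun (congrFun (congrFun (congrArg Prod.snd (key t ht))
      (fun i => w i)) ⟨a, ha⟩) ⟨b, hb⟩) ⟨c, hc⟩) ⟨d, hd⟩
    simp only at h1
    rw [Qt_congr (hex w (h ∘ t)), Qt_congr (hex w (h ∘ id))] at h1
    exact iff_of_eq h1

end Pool.Agent.MCN
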