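import Pool.Agent.MCN.Stmts

set_option autoImplicit false

namespace Pool.Agent.MCN

namespace KON_

/-- determinants commute with a ring homomorphism from a ring of functions -/
theorem br_phi {L : Type} [Field L] (φ : (ℕ → ℝ) →+* L) (F : ℕ → Fin 5 → ℕ → ℝ) :
    br (fun j i => φ (F j i)) = φ (fun m => br (fun j i => F j i m)) := by
  have h1 : (fun m => br (fun j i => F j i m)) =
      Matrix.det (Matrix.of fun i j : Fin 5 => (F i j : ℕ → ℝ)) := by
    funext m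
    have h2 := RingHom.map_det (Pi.evalRingHom (fun _ : ℕ => ℝ) m)
      (Matrix.of fun i j : Fin 5 => (F i j : ℕ → ℝ))
    rw [Pi.evalRingHom_apply] at h2
    rw [h2]
    rfl
  rw [h1, RingHom.map_det]
  rfl

theorem phi_ne {L : Type} [Field L] [LinearOrder L] [IsStrictOrderedRing L]
    (φ : (ℕ → ℝ) →+* L) (hφ : ∀ f : ℕ → ℝ, (∃ N, ∀ m, N ≤ m → 0 < f m) → 0 < φ f)
    (f : ℕ → ℝ) (hf : ∃ N, ∀ m, N ≤ m → f m ≠ 0) : φ f ≠ 0 := by
  obtain ⟨N, hN⟩ := hf
  have h1 : 0 < φ (f * f) := by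
    refine hφ _ ⟨N, fun m hm => ?_⟩
    exact mul_self_pos.2 (hN m hm)
  intro h0
  rw [map_mul, h0, mul_zero] at h1
  exact lt_irrefl _ h1

theorem phi_neg {L : Type} [Field L] [LinearOrder L] [IsStrictOrderedRing L]
    (φ : (ℕ → ℝ) →+* L) (hφ : ∀ f : ℕ → ℝ, (∃ N, ∀ m, N ≤ m → 0 < f m) → 0 < φ f)
    (f : ℕ → ℝ) (hf : ∃ N, ∀ m, N ≤ m → f m < 0) : φ f < 0 := by
  obtain ⟨N, hN⟩ := hf
  have h1 : 0 < φ (-f) := by
    refine hφ _ ⟨N, fun m hm => ?_⟩
    exact neg_pos.2 (hN m hm)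
  rw [map_neg] at h1
  exact neg_pos.1 h1

end KON_

open KON_ in
theorem kon_proof (h1 : Stmt_Ger) : Stmt_Kon := by
  intro hall
  choose G hG1 hG2 using hall
  obtain ⟨L, fL, oL, sL, φ, hφ⟩ := h1 ℝ
  refine ⟨L, fL, oL, sL, fun s t i => φ (fun m => G m s t i), ?_, ?_⟩
  · intro w t ht
    have e : br (vf (fun s t i => φ (fun m => G m s t i)) w t) =
        φ (fun m => br (vf (G m) w t)) :=
      br_phi φ (fun j i m => G m (w j) (t j) i)
    rw [e]
    refine phi_ne φ hφ _ ⟨t 4 + 1, fun m hm => hG1 m w t ht (by omega)⟩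
  · intro c hc t ht i hi
    have e : ∀ d : ℕ, br (fun j => vf (fun s t i => φ (fun m => G m s t i)) (lt c) t (dl d j)) =
        φ (fun m => br (fun j => vf (G m) (lt c) t (dl d j))) := fun d =>
      br_phi φ (fun j i m => G m (lt c (dl d j)) (t (dl d j)) i)
    rw [e i, e (i + 1), ← map_mul]
    refine phi_neg φ hφ _ ⟨t 5 + 1, fun m hm => ?_⟩
    exact hG2 m c hc t ht (by omega) i hi

end Pool.Agent.MCN
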