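import Pool.Agent.MCN.Stmts

/-! LEX: lexicographically first word -/

set_option autoImplicit false

namespace Pool.Agent.MCN

theorem lex_proof : Stmt_Lex := by
  intro M W _ cs w₀ a N ha hN hne S' hS' hcard hprod hneq
  have hex : ∃ m, ¬ (m ∈ ({0, 1, 2, 3, 4, 6} : Finset ℕ) ↔ m ∈ S') := by
    by_contra hcon
    push Not at hcon
    apply hneq
    ext m
    exact (hcon m).symm
  classical
  have hm := Nat.find_spec hex
  have hmin : ∀ m' : ℕ, m' < Nat.find hex → (m' ∈ ({0, 1, 2, 3, 4, 6} : Finset ℕ) ↔ m' ∈ S') := by
    intro m' hm'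
    have := Nat.find_min hex hm'
    exact not_not.1 this
  by_cases hmS : Nat.find hex ∈ ({0, 1, 2, 3, 4, 6} : Finset ℕ)
  · refine ⟨Nat.find hex, hmS, ?_, hmin⟩
    intro h
    exact hm ⟨fun _ => h, fun _ => hmS⟩
  · exfalso
    have hmS' : Nat.find hex ∈ S' := by
      by_contra h
      exact hm ⟨fun h' => absurd h' hmS, fun h' => absurd h' h⟩
    generalize Nat.find hex = m at hm hmin hmS hmS'
    simp only [Finset.mem_insert, Finset.mem_singleton, not_or] at hmS
    obtain ⟨n0, n1, n2, n3, n4, n6⟩ := hmS
    have h0 : 0 ∈ S' := (hmin 0 (by omega)).1 (by simp)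
    have h1 : 1 ∈ S' := (hmin 1 (by omega)).1 (by simp)
    have h2 : 2 ∈ S' := (hmin 2 (by omega)).1 (by simp)
    have h3 : 3 ∈ S' := (hmin 3 (by omega)).1 (by simp)
    have h4 : 4 ∈ S' := (hmin 4 (by omega)).1 (by simp)
    by_cases h5 : m = 5
    · subst h5
      have hsub : Finset.range 6 ⊆ S' := by
        intro i hi
        rw [Finset.mem_range] at hi
        interval_cases i
        · exact h0
        · exact h1
        · exact h2
        · exact h3
        · exact h4
        · exact hmS'
      have heq : Finset.range 6 = S' :=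
        Finset.eq_of_subset_of_card_le hsub (by rw [hcard, Finset.card_range])
      rw [filter_range N hN S' hS', ← heq] at hprod
      have e1 : (List.range 18).filter (fun i => decide (i ∈ Finset.range 6)) =
          [0, 1, 2, 3, 4, 5] := by decide
      rw [e1] at hprod
      have a0 : a 0 = 0 := Fin.ext (by rw [ha]; rfl)
      have a1 : a 1 = 1 := Fin.ext (by rw [ha]; rfl)
      have a2 : a 2 = 2 := Fin.ext (by rw [ha]; rfl)
      have a3 : a 3 = 0 := Fin.ext (by rw [ha]; rfl)
      have a4 : a 4 = 1 := Fin.ext (by rw [ha]; rfl)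
      have a5 : a 5 = 2 := Fin.ext (by rw [ha]; rfl)
      apply hne
      rw [← hprod]
      simp only [List.map_cons, List.map_nil, a0, a1, a2, a3, a4, a5]
    · have h6 : 6 ∈ S' := (hmin 6 (by omega)).1 (by simp)
      have hsub : insert m ({0, 1, 2, 3, 4, 6} : Finset ℕ) ⊆ S' := by
        intro i hi
        simp only [Finset.mem_insert, Finset.mem_singleton] at hi
        rcases hi with rfl | rfl | rfl | rfl | rfl | rfl | rfl
        · exact hmS'
        · exact h0
        · exact h1
        · exact h2
        · exact h3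
        · exact h4
        · exact h6
      have hc := Finset.card_le_card hsub
      rw [Finset.card_insert_of_notMem (by simp; omega), hcard] at hc
      have : ({0, 1, 2, 3, 4, 6} : Finset ℕ).card = 6 := by decide
      omega

end Pool.Agent.MCN
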