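import Pool.Agent.MCN.Stmts

set_option autoImplicit false

namespace Pool.Agent.MCN

namespace NSC_

section
variable {K L : Type} [Field K] [LinearOrder K] [IsStrictOrderedRing K]
  [Field L] [LinearOrder L] [IsStrictOrderedRing L]

theorem br_map (φ : (ℕ → K) →+* L) (F : ℕ → ℕ → Fin 5 → K) :
    br (fun j c => φ (fun m => F m j c)) = φ (fun m => br (F m)) := by
  have h1 : (fun m => br (F m)) =
      Matrix.det (Matrix.of fun i j : Fin 5 => (fun m => F m i j : ℕ → K)) := by
    funext m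
    have h2 := (Pi.evalRingHom (fun _ : ℕ => K) m).map_det
      (Matrix.of fun i j : Fin 5 => (fun m => F m i j : ℕ → K))
    have h3 : Matrix.det (Matrix.of fun i j : Fin 5 => (fun m => F m i j : ℕ → K)) m =
      (Pi.evalRingHom (fun _ : ℕ => K) m)
        (Matrix.det (Matrix.of fun i j : Fin 5 => (fun m => F m i j : ℕ → K))) := rfl
    rw [h3, h2]
    rfl
  rw [h1, RingHom.map_det]
  rfl

variable (φ : (ℕ → K) →+* L) (hφ : ∀ f : ℕ → K, (∃ N, ∀ m, N ≤ m → 0 < f m) → 0 < φ f)
include hφ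

theorem ne0 (f : ℕ → K) (hf : ∀ m, f m ≠ 0) : φ f ≠ 0 := by
  intro h
  have h1 : 0 < φ (f * f) := hφ _ ⟨0, fun m _ => by
    rw [Pi.mul_apply]; exact mul_self_pos.2 (hf m)⟩
  rw [map_mul, h, zero_mul] at h1
  exact lt_irrefl _ h1

theorem abs_map (f : ℕ → K) (hf : ∀ m, f m ≠ 0) : |φ f| = φ (fun m => |f m|) := by
  have h1 : 0 < φ (fun m => |f m|) := hφ _ ⟨0, fun m _ => abs_pos.2 (hf m)⟩
  have h2 : φ (fun m => |f m|) ^ 2 = φ f ^ 2 := by
    rw [← map_pow, ← map_pow]
    congr 1
    funext m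
    simp [sq_abs]
  have h3 := (sq_eq_sq_iff_abs_eq_abs _ _).1 h2
  rw [← h3, abs_of_pos h1]

end

theorem sm {t : ℕ → ℕ} (ht : StrictMono t) (m : ℕ) : StrictMono fun i => (m + 1) * t i :=
  fun _ _ h => Nat.mul_lt_mul_of_pos_left (ht h) (Nat.succ_pos m)

theorem nth_sm (s : Finset ℕ) : StrictMono (Nat.nth fun i => i ∉ s) := by
  apply Nat.nth_strictMono
  exact s.finite_toSet.infinite_compl

end NSC_

open NSC_

theorem nsc_proof (h1 : Stmt_Ger) (h2 : Stmt_Ttp) : Stmt_Nsc := by
  intro K _ _ _ g hg hw hgr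
  obtain ⟨L, _, _, _, φ, hφ⟩ := h1 K
  let g' : Fin 3 → ℕ → Fin 5 → L := fun s t i => φ (fun m => g s ((m + 1) * t) i)
  have hbr : ∀ (w : ℕ → Fin 3) (t f : ℕ → ℕ), br (fun j => vf g' w t (f j)) =
      φ (fun m => br (fun j => vf g w (fun i => (m + 1) * t i) (f j))) := by
    intro w t f
    exact br_map φ (fun m j => vf g w (fun i => (m + 1) * t i) (f j))
  have hne : ∀ (w : ℕ → Fin 3) (t f : ℕ → ℕ), StrictMono t → StrictMono f → ∀ m : ℕ,
      br (fun j => vf g w (fun i => (m + 1) * t i) (f j)) ≠ 0 := by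
    intro w t f ht hf m
    rw [vf_comp]
    exact hg _ _ ((sm ht m).comp hf)
  have hgen : Gen g' := by
    intro w t ht
    have := hbr w t id
    simp only [id_eq] at this
    rw [this]
    exact ne0 φ hφ _ (fun m => hne w t id ht strictMono_id m)
  have htt : ∀ (w : ℕ → Fin 3) (t : ℕ → ℕ) (s : Finset ℕ), StrictMono t →
      tt (vf g' w t) s = φ (fun m => tt (vf g w (fun i => (m + 1) * t i)) s) := by
    intro w t s ht
    unfold tt
    rw [hbr w t]
    exact abs_map φ hφ _ (fun m => hne w t _ ht (nth_sm s) m)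
  have htp : ∀ (w : ℕ → Fin 3) (t : ℕ → ℕ) (s : Finset ℕ), StrictMono t →
      0 < tt (vf g w t) s := by
    intro w t s ht
    unfold tt
    rw [vf_comp]
    exact abs_pos.2 (hg _ _ (ht.comp (nth_sm s)))
  refine ⟨L, inferInstance, inferInstance, inferInstance, g', hgen, ?_, ?_⟩
  · intro c hc t ht i hi
    rw [hbr, hbr, ← map_mul]
    have h3 : 0 < φ (-((fun m => br (fun j => vf g (lt c) (fun i => (m + 1) * t i) (dl i j))) *
        (fun m => br (fun j => vf g (lt c) (fun i => (m + 1) * t i) (dl (i + 1) j))))) := by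
      apply hφ
      refine ⟨0, fun m _ => ?_⟩
      rw [Pi.neg_apply, Pi.mul_apply]
      exact neg_pos.2 (hw c hc _ (sm ht m) i hi)
    rw [map_neg] at h3
    exact neg_pos.1 h3
  · intro w t ht p hp e1 e2 e3
    obtain ⟨-, -, hT⟩ := h2 L (vf g' w t)
    obtain ⟨-, hfour⟩ := hT (by
      intro a b _ _
      rw [vf_comp]
      exact hgen _ _ (ht.comp ((dl_strictMono b).comp (dl_strictMono a))))
    have hgap : ∀ m i : ℕ, (m + 1) * t i + (m + 1) ≤ (m + 1) * t (i + 1) := by
      intro m i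
      have : t i + 1 ≤ t (i + 1) := ht (Nat.lt_succ_self i)
      calc (m + 1) * t i + (m + 1) = (m + 1) * (t i + 1) := by ring
        _ ≤ (m + 1) * t (i + 1) := Nat.mul_le_mul_left _ this
    -- comparison transported to `L`
    have key : ∀ (s1 s2 s3 s4 : Finset ℕ),
        (∀ m : ℕ, ((m + 1 : ℕ) : K) * (tt (vf g w (fun i => (m + 1) * t i)) s1 *
            tt (vf g w (fun i => (m + 1) * t i)) s2) ≤
          tt (vf g w (fun i => (m + 1) * t i)) s3 * tt (vf g w (fun i => (m + 1) * t i)) s4) →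
        ll (tt (vf g' w t) s1 * tt (vf g' w t) s2) (tt (vf g' w t) s3 * tt (vf g' w t) s4) := by
      intro s1 s2 s3 s4 hc n
      rw [htt w t s1 ht, htt w t s2 ht, htt w t s3 ht, htt w t s4 ht, ← map_mul, ← map_mul,
        ← map_natCast φ n, ← map_mul, ← sub_pos, ← map_sub]
      apply hφ
      refine ⟨n, fun m hm => ?_⟩
      have h5 := hc m
      have h6 : 0 < tt (vf g w (fun i => (m + 1) * t i)) s1 *
          tt (vf g w (fun i => (m + 1) * t i)) s2 :=
        mul_pos (htp w _ s1 (sm ht m)) (htp w _ s2 (sm ht m))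
      have h7 : (n : K) < ((m + 1 : ℕ) : K) := by
        exact_mod_cast Nat.lt_succ_of_le hm
      have h8 := mul_lt_mul_of_pos_right h7 h6
      simp only [Pi.sub_apply, Pi.mul_apply, Pi.natCast_apply]
      exact sub_pos.2 (lt_of_lt_of_le h8 h5)
    have third : ∀ X Y Z : L, ll X Y → Y ≤ X + Z → ll X Z := by
      intro X Y Z hXY hle n
      have h5 := hXY (n + 1)
      push_cast at h5
      linarith
    rcases hgr w p hp e1 e2 e3 with hA | hB
    · left
      have hY := key {p, p + 1} {p + 2, p + 3} {p, p + 3} {p + 1, p + 2}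
        (fun m => hA _ (m + 1) (sm ht m) (hgap m))
      refine ⟨third _ _ _ hY ?_, hY⟩
      have := hfour p (p + 3) (p + 1) (p + 2) (by omega) (by omega) (by omega) (by omega)
        (by omega) (by omega) (by omega) (by omega) (by omega) (by omega)
      rw [tt_pair_comm _ (p + 3) (p + 2), tt_pair_comm _ (p + 3) (p + 1)] at this
      exact this
    · right
      have hX := key {p, p + 3} {p + 1, p + 2} {p, p + 1} {p + 2, p + 3}
        (fun m => hB _ (m + 1) (sm ht m) (hgap m))
      have hX' : ll (tt (vf g' w t) {p, p + 3} * tt (vf g' w t) {p + 1, p + 2})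
          (tt (vf g' w t) {p, p + 1} * tt (vf g' w t) {p + 3, p + 2}) := by
        rw [tt_pair_comm _ (p + 3) (p + 2)]
        exact hX
      refine ⟨hX', ?_⟩
      refine third _ _ _ hX' ?_
      have := hfour p (p + 1) (p + 2) (p + 3) (by omega) (by omega) (by omega) (by omega)
        (by omega) (by omega) (by omega) (by omega) (by omega) (by omega)
      simp only [tt_pair_comm _ (p + 3) (p + 2), tt_pair_comm _ (p + 3) (p + 1)]
      linarith

end Pool.Agent.MCN
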