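import Pool.Agent.MCN.Stmts

/-! Module NTH: `Nat.nth` of complements -/

set_option autoImplicit false

namespace Pool.Agent.MCN

namespace NTH_

theorem nth_eq_of_range (p : ℕ → Prop) (f : ℕ → ℕ) (hf : StrictMono f)
    (hr : Set.range f = Set.ofPred p) : Nat.nth p = f := by
  have hinf : (Set.ofPred p).Infinite := by
    rw [← hr]; exact Set.infinite_range_of_injective hf.injective
  refine (StrictMono.range_inj (Nat.nth_strictMono hinf) hf).1 ?_
  rw [Nat.range_nth_of_infinite hinf, hr]

theorem range_dl (e : ℕ) : Set.range (dl e) = {i | i ≠ e} := by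
  ext i
  simp only [Set.mem_range, Set.mem_ofPred_eq]
  constructor
  · rintro ⟨j, rfl⟩; exact dl_ne e j
  · intro h
    by_cases h1 : i < e
    · exact ⟨i, dl_lt_of_lt h1⟩
    · refine ⟨i - 1, ?_⟩
      rw [dl_of_le (by omega)]
      omega

theorem inf_compl (s : Finset ℕ) : (Set.ofPred (fun i => i ∉ s)).Infinite := by
  have h : Set.ofPred (fun i => i ∉ s) = ((s : Set ℕ))ᶜ := by
    ext i; simp
  rw [h]
  exact s.finite_toSet.infinite_compl

end NTH_

open NTH_

theorem nth_proof : Stmt_Nth := by
  constructor
  · intro s e j
    have h := nth_eq_of_range (fun i => i ∉ insert e (s.image (dl e)))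
      (fun j => dl e (Nat.nth (fun i => i ∉ s) j))
      ((dl_strictMono e).comp (Nat.nth_strictMono (inf_compl s))) (by
        have h1 : Set.range (fun j => dl e (Nat.nth (fun i => i ∉ s) j)) =
            dl e '' (Set.range (Nat.nth (fun i => i ∉ s))) := by
          rw [← Set.range_comp]; rfl
        rw [h1, Nat.range_nth_of_infinite (inf_compl s)]
        ext i
        simp only [Set.mem_image, Set.mem_ofPred_eq, Finset.mem_insert, Finset.mem_image, not_or,
          not_exists, not_and]
        constructor
        · rintro ⟨x, hx, rfl⟩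
          refine ⟨dl_ne e x, fun y hy hxy => hx ?_⟩
          rw [← (dl_strictMono e).injective hxy]; exact hy
        · rintro ⟨h2, h3⟩
          have h4 : i ∈ Set.range (dl e) := by rw [range_dl]; exact h2
          obtain ⟨x, rfl⟩ := h4
          exact ⟨x, fun hx => h3 x hx rfl, rfl⟩)
    exact congrFun h j
  · intro a b j hab
    have h := nth_eq_of_range (fun i => i ∉ ({a, b} : Finset ℕ))
      (fun j => dl b (dl a j)) ((dl_strictMono b).comp (dl_strictMono a)) (by
        ext i
        simp only [Set.mem_range, Set.mem_ofPred_eq, Finset.mem_insert, Finset.mem_singleton,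
          not_or]
        constructor
        · rintro ⟨y, rfl⟩
          refine ⟨?_, dl_ne b _⟩
          intro h1
          rw [show a = dl b a from (dl_lt_of_lt hab).symm] at h1
          have h2 := (dl_strictMono b).injective h1
          rw [dl_lt_of_lt hab] at h2
          exact dl_ne a y h2
        · rintro ⟨h1, h2⟩
          have h3 : i ∈ Set.range (dl b) := by rw [range_dl]; exact h2
          obtain ⟨x, rfl⟩ := h3
          have h4 : x ≠ a := by
            rintro rfl
            exact h1 (dl_lt_of_lt hab)
          have h5 : x ∈ Set.range (dl a) := by rw [range_dl]; exact h4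
          obtain ⟨y, rfl⟩ := h5
          exact ⟨y, rfl⟩)
    exact congrFun h j

end Pool.Agent.MCN
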