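import Pool.Agent.MCN.Stmts

/-! PER: perturbation by the moment curve -/

set_option autoImplicit false

namespace Pool.Agent.MCN.PER_

open Filter Topology Polynomial

/-- the point of the moment curve -/
noncomputable def mc (s : Fin 3) (t : ℕ) (j : Fin 5) : ℝ := ((3 * t + (s : ℕ) : ℕ) : ℝ) ^ (j : ℕ)

/-- the perturbed configuration -/
noncomputable def pg (g : Fin 3 → ℕ → Fin 5 → ℝ) (ε : ℝ) (s : Fin 3) (t : ℕ) (j : Fin 5) : ℝ :=
  g s t j + ε * mc s t j

theorem pg_zero (g : Fin 3 → ℕ → Fin 5 → ℝ) : pg g 0 = g := by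
  funext s t j
  simp [pg]

/-- a line of matrices `A + ε M` with `det M ≠ 0` is invertible for small `ε ≠ 0` -/
theorem line (A M : Matrix (Fin 5) (Fin 5) ℝ) (hM : M.det ≠ 0) :
    ∀ᶠ ε : ℝ in 𝓝[≠] 0, (A + ε • M).det ≠ 0 := by
  set P : ℝ[X] := Matrix.det ((X : ℝ[X]) • M.map C + A.map C) with hP
  have hc : P.coeff (Fintype.card (Fin 5)) = M.det := coeff_det_X_add_C_card M A
  have hP0 : P ≠ 0 := by
    intro h
    rw [h, coeff_zero] at hc
    exact hM hc.symm
  have he : ∀ ε : ℝ, P.eval ε = (A + ε • M).det := by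
    intro ε
    have h1 : P.eval ε = (evalRingHom ε) P := (coe_evalRingHom ε ▸ rfl)
    have h2 : (evalRingHom ε).mapMatrix ((X : ℝ[X]) • M.map C + A.map C) = A + ε • M := by
      ext i j
      simp only [RingHom.mapMatrix_apply, Matrix.map_apply, Matrix.add_apply, Matrix.smul_apply,
        smul_eq_mul, coe_evalRingHom, eval_add, eval_mul, eval_X, eval_C]
      ring
    rw [h1, hP, RingHom.map_det, h2]
  have hf : {ε : ℝ | P.eval ε = 0}.Finite := by
    refine (P.roots.toFinset.finite_toSet).subset ?_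
    intro ε hε
    simp only [Finset.mem_coe, Multiset.mem_toFinset]
    exact (mem_roots hP0).2 hε
  have h2 : ({ε : ℝ | P.eval ε = 0} \ {0})ᶜ ∈ 𝓝 (0 : ℝ) := by
    apply (hf.subset Set.sdiff_subset).isClosed.isOpen_compl.mem_nhds
    simp
  have h3 : ∀ᶠ ε : ℝ in 𝓝[≠] 0, ε ∈ ({ε : ℝ | P.eval ε = 0} \ {0})ᶜ :=
    mem_nhdsWithin_of_mem_nhds h2
  filter_upwards [h3, self_mem_nhdsWithin] with ε h4 h5
  rw [← he]
  intro h6
  exact h4 ⟨h6, h5⟩

theorem det_mc (W : Fin 5 → Fin 3) (T : Fin 5 → ℕ) (hT : StrictMono T) :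
    (Matrix.of fun i j : Fin 5 => mc (W i) (T i) j).det ≠ 0 := by
  have e : (Matrix.of fun i j : Fin 5 => mc (W i) (T i) j) =
      Matrix.vandermonde (fun i : Fin 5 => ((3 * T i + (W i : ℕ) : ℕ) : ℝ)) := by
    ext i j
    rfl
  rw [e, Matrix.det_vandermonde_ne_zero_iff]
  intro i j h
  have h' : 3 * T i + (W i : ℕ) = 3 * T j + (W j : ℕ) := by
    simp only at h
    exact_mod_cast h
  have hi := (W i).2
  have hj := (W j).2
  have : T i = T j := by omega
  exact hT.injective this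

theorem gen_ev (g : Fin 3 → ℕ → Fin 5 → ℝ) (W : Fin 5 → Fin 3) (T : Fin 5 → ℕ)
    (hT : StrictMono T) :
    ∀ᶠ ε : ℝ in 𝓝[≠] 0, (Matrix.of fun i j : Fin 5 => pg g ε (W i) (T i) j).det ≠ 0 := by
  have h := line (Matrix.of fun i j : Fin 5 => g (W i) (T i) j)
    (Matrix.of fun i j : Fin 5 => mc (W i) (T i) j) (det_mc W T hT)
  filter_upwards [h] with ε h1
  have e : (Matrix.of fun i j : Fin 5 => pg g ε (W i) (T i) j) =
      (Matrix.of fun i j : Fin 5 => g (W i) (T i) j) +
        ε • (Matrix.of fun i j : Fin 5 => mc (W i) (T i) j) := by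
    ext i j
    simp only [Matrix.of_apply, Matrix.add_apply, Matrix.smul_apply, smul_eq_mul, pg]
  rw [e]
  exact h1

theorem br_cont (g : Fin 3 → ℕ → Fin 5 → ℝ) (W : ℕ → Fin 3) (T : ℕ → ℕ) (f : ℕ → ℕ) :
    Continuous fun ε : ℝ => br (fun j => vf (pg g ε) W T (f j)) := by
  unfold br
  apply Continuous.matrix_det
  apply continuous_matrix
  intro i j
  simp only [Matrix.of_apply, vf, pg]
  exact continuous_const.add (continuous_id.mul continuous_const)

/-- extension of a finite sequence -/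
def ex {k : ℕ} (T : Fin 6 → Fin k) (n : ℕ) : ℕ := if h : n < 6 then (T ⟨n, h⟩ : ℕ) else 0

theorem wrd_ev (g : Fin 3 → ℕ → Fin 5 → ℝ) (W : ℕ → Fin 3) (T : ℕ → ℕ) (i : ℕ)
    (h : br (fun j => vf g W T (dl i j)) * br (fun j => vf g W T (dl (i + 1) j)) < 0) :
    ∀ᶠ ε : ℝ in 𝓝[≠] 0, br (fun j => vf (pg g ε) W T (dl i j)) *
      br (fun j => vf (pg g ε) W T (dl (i + 1) j)) < 0 := by
  have hc : Continuous fun ε : ℝ => br (fun j => vf (pg g ε) W T (dl i j)) *
      br (fun j => vf (pg g ε) W T (dl (i + 1) j)) :=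
    (br_cont g W T (dl i)).mul (br_cont g W T (dl (i + 1)))
  have h0 : (fun ε : ℝ => br (fun j => vf (pg g ε) W T (dl i j)) *
      br (fun j => vf (pg g ε) W T (dl (i + 1) j))) 0 < 0 := by
    simp only [pg_zero]
    exact h
  have h1 : ∀ᶠ ε : ℝ in 𝓝 0, (fun ε : ℝ => br (fun j => vf (pg g ε) W T (dl i j)) *
      br (fun j => vf (pg g ε) W T (dl (i + 1) j))) ε < 0 :=
    hc.continuousAt.eventually_lt continuousAt_const h0
  exact h1.filter_mono nhdsWithin_le_nhds

end Pool.Agent.MCN.PER_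

namespace Pool.Agent.MCN

open Filter Topology

theorem per_proof : Stmt_Per := by
  intro k g hg
  have h1 : ∀ᶠ ε : ℝ in 𝓝[≠] 0, ∀ W : Fin 5 → Fin 3, ∀ T : Fin 5 → Fin k, StrictMono T →
      (Matrix.of fun i j : Fin 5 => PER_.pg g ε (W i) (T i) j).det ≠ 0 := by
    rw [eventually_all]
    intro W
    rw [eventually_all]
    intro T
    by_cases hT : StrictMono T
    · have h := PER_.gen_ev g W (fun i => (T i : ℕ)) (fun i j h => hT h)
      filter_upwards [h] with ε h2 _
      exact h2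
    · exact Eventually.of_forall fun ε h => absurd h hT
  have h2 : ∀ᶠ ε : ℝ in 𝓝[≠] 0, ∀ c ∈ {c | c ∈ RW}, ∀ T : Fin 6 → Fin k, ∀ i : Fin 5,
      br (fun j => vf g (lt c) (PER_.ex T) (dl i j)) *
        br (fun j => vf g (lt c) (PER_.ex T) (dl (i + 1) j)) < 0 →
      br (fun j => vf (PER_.pg g ε) (lt c) (PER_.ex T) (dl i j)) *
        br (fun j => vf (PER_.pg g ε) (lt c) (PER_.ex T) (dl (i + 1) j)) < 0 := by
    rw [eventually_all_finite (List.finite_toSet RW)]
    intro c _
    rw [eventually_all]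
    intro T
    rw [eventually_all]
    intro i
    by_cases hT : br (fun j => vf g (lt c) (PER_.ex T) (dl i j)) *
        br (fun j => vf g (lt c) (PER_.ex T) (dl (i + 1) j)) < 0
    · have h := PER_.wrd_ev g (lt c) (PER_.ex T) i hT
      filter_upwards [h] with ε h2 _
      exact h2
    · exact Eventually.of_forall fun ε h => absurd h hT
  obtain ⟨ε, h3, h4⟩ := (h1.and h2).exists
  refine ⟨PER_.pg g ε, ?_, ?_⟩
  · intro w t ht htk
    have hlt : ∀ i : Fin 5, t i < k := by
      intro i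
      have : t i ≤ t 4 := ht.monotone (by have := i.2; omega)
      omega
    exact h3 (fun i => w i) (fun i => ⟨t i, hlt i⟩) (fun i j h => ht h)
  · intro c hc t ht htk i hi
    have hlt : ∀ i : Fin 6, t i < k := by
      intro i
      have : t i ≤ t 5 := ht.monotone (by have := i.2; omega)
      omega
    have hex : ∀ n < 6, PER_.ex (fun i : Fin 6 => (⟨t i, hlt i⟩ : Fin k)) n = t n := by
      intro n hn
      unfold PER_.ex
      rw [dif_pos hn]
    have key : ∀ (g' : Fin 3 → ℕ → Fin 5 → ℝ) (e : ℕ),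
        br (fun j => vf g' (lt c) (PER_.ex (fun i : Fin 6 => (⟨t i, hlt i⟩ : Fin k))) (dl e j)) =
          br (fun j => vf g' (lt c) t (dl e j)) := by
      intro g' e
      apply br_congr
      intro j hj
      unfold vf
      rw [hex]
      have := dl_le e j
      omega
    have h5 := h4 c hc (fun i : Fin 6 => (⟨t i, hlt i⟩ : Fin k)) ⟨i, hi⟩
    simp only at h5
    rw [key, key, key, key] at h5
    exact h5 (hg c hc t ht htk i hi)

end Pool.Agent.MCN
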