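import Pool.Agent.MCN.Stmts

/-! PLU: three-term Grassmann-Pluecker relation in terms of complements -/

set_option autoImplicit false

namespace Pool.Agent.MCN

namespace PLU_

set_option linter.unusedSectionVars false

variable {K : Type} [Field K]

/-- the matrix with columns `u`, `v` and the five columns of `q` -/
def W (q : ℕ → Fin 5 → K) (u v : Fin 7 → K) : Matrix (Fin 7) (Fin 7) K :=
  Matrix.of fun i j => (Fin.cons (u i) (Fin.cons (v i) (q i) : Fin 6 → K) : Fin 7 → K) j

theorem W_zero (q : ℕ → Fin 5 → K) (u v : Fin 7 → K) (i : Fin 7) : W q u v i 0 = u i := rfl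

theorem W_succ_zero (q : ℕ → Fin 5 → K) (u v : Fin 7 → K) (i : Fin 7) :
    W q u v i (Fin.succ 0) = v i := rfl

theorem W_succ_succ (q : ℕ → Fin 5 → K) (u v : Fin 7 → K) (i : Fin 7) (k : Fin 5) :
    W q u v i (Fin.succ (Fin.succ k)) = q i k := rfl

theorem W_succ (q : ℕ → Fin 5 → K) (u v : Fin 7 → K) (i : Fin 7) (k : Fin 6) :
    W q u v i (Fin.succ k) = (Fin.cons (v i) (q i) : Fin 6 → K) k := rfl

theorem update_zero (q : ℕ → Fin 5 → K) (u v w : Fin 7 → K) :
    (W q u v).updateCol 0 w = W q w v := by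
  ext i j
  refine Fin.cases ?_ (fun k => ?_) j
  · simp [Matrix.updateCol_self, W_zero]
  · rw [Matrix.updateCol_ne (Fin.succ_ne_zero k), W_succ, W_succ]

theorem update_one (q : ℕ → Fin 5 → K) (u v w : Fin 7 → K) :
    (W q u v).updateCol (Fin.succ 0) w = W q u w := by
  ext i j
  refine Fin.cases ?_ (fun k => ?_) j
  · rw [Matrix.updateCol_ne (Fin.succ_ne_zero 0).symm, W_zero, W_zero]
  · refine Fin.cases ?_ (fun l => ?_) k
    · rw [Matrix.updateCol_self, W_succ_zero]
    · rw [Matrix.updateCol_ne (fun h => Fin.succ_ne_zero l (Fin.succ_injective _ h)),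
        W_succ_succ, W_succ_succ]

/-- cofactors of the first column -/
theorem det_linear (q : ℕ → Fin 5 → K) (v : Fin 7 → K) :
    ∃ c : Fin 7 → K, ∀ u : Fin 7 → K, (W q u v).det = ∑ i, u i * c i := by
  refine ⟨fun i => (-1) ^ (i : ℕ) * ((W q 0 v).submatrix i.succAbove Fin.succ).det, fun u => ?_⟩
  rw [Matrix.det_succ_column_zero]
  refine Finset.sum_congr rfl fun i _ => ?_
  have h : (W q u v).submatrix i.succAbove Fin.succ = (W q 0 v).submatrix i.succAbove Fin.succ := by
    ext a b
    simp only [Matrix.submatrix_apply, W_succ]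
  rw [h, W_zero]
  ring

theorem det_swap (q : ℕ → Fin 5 → K) (u v : Fin 7 → K) : (W q v u).det = - (W q u v).det := by
  have h : W q v u = (W q u v).submatrix id (Equiv.swap (0 : Fin 7) (Fin.succ 0)) := by
    ext i j
    rw [Matrix.submatrix_apply]
    refine Fin.cases ?_ (fun k => ?_) j
    · rw [Equiv.swap_apply_left, W_succ_zero, W_zero]; rfl
    · refine Fin.cases ?_ (fun l => ?_) k
      · rw [Equiv.swap_apply_right, W_succ_zero, W_zero]; rfl
      · rw [Equiv.swap_apply_of_ne_of_ne (Fin.succ_ne_zero _)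
          (fun h => Fin.succ_ne_zero l (Fin.succ_injective _ h)), W_succ_succ, W_succ_succ]; rfl
  rw [h, Matrix.det_permute', Equiv.Perm.sign_swap (Fin.succ_ne_zero 0).symm]
  simp

theorem relation (q : ℕ → Fin 5 → K) (u1 u2 u3 u4 : Fin 7 → K) :
    (W q u3 u2).det * (W q u1 u4).det + (W q u1 u3).det * (W q u2 u4).det =
      (W q u1 u2).det * (W q u3 u4).det := by
  obtain ⟨c, hc⟩ := det_linear q u4
  have h0 : ∀ k : Fin 5, ∑ i : Fin 7, q i k * c i = 0 := by
    intro k
    rw [← hc (fun i => q i k)]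
    refine Matrix.det_zero_of_column_eq (i := 0) (j := Fin.succ (Fin.succ k))
      (Fin.succ_ne_zero _).symm fun i => ?_
    rw [W_zero, W_succ_succ]
  have h1 := Matrix.mulVec_cramer (W q u1 u2) u3
  have h2 : ∀ i : Fin 7, u1 i * (W q u3 u2).det + (u2 i * (W q u1 u3).det +
      ∑ k : Fin 5, q i k * Matrix.cramer (W q u1 u2) u3 (Fin.succ (Fin.succ k))) =
      (W q u1 u2).det * u3 i := by
    intro i
    have h3 := congrFun h1 i
    rw [Matrix.mulVec, dotProduct, Fin.sum_univ_succ, Fin.sum_univ_succ, Matrix.cramer_apply,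
      Matrix.cramer_apply, update_zero, update_one] at h3
    simpa only [W_zero, W_succ_zero, W_succ_succ, Pi.smul_apply, smul_eq_mul] using h3
  rw [hc u1, hc u2, hc u3, Finset.mul_sum, Finset.mul_sum, Finset.mul_sum,
    ← Finset.sum_add_distrib]
  have h4 : ∑ i : Fin 7, (∑ k : Fin 5, q i k *
      Matrix.cramer (W q u1 u2) u3 (Fin.succ (Fin.succ k))) * c i = 0 := by
    simp only [Finset.sum_mul]
    rw [Finset.sum_comm]
    refine Finset.sum_eq_zero fun k _ => ?_
    have h5 : ∀ i : Fin 7, q i k * Matrix.cramer (W q u1 u2) u3 (Fin.succ (Fin.succ k)) * c i =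
        Matrix.cramer (W q u1 u2) u3 (Fin.succ (Fin.succ k)) * (q i k * c i) := fun i => by ring
    rw [Finset.sum_congr rfl fun i _ => h5 i, ← Finset.mul_sum, h0, mul_zero]
  rw [← add_zero (∑ i : Fin 7, ((W q u3 u2).det * (u1 i * c i) +
    (W q u1 u3).det * (u2 i * c i))), ← h4, ← Finset.sum_add_distrib]
  refine Finset.sum_congr rfl fun i _ => ?_
  have h6 : (u1 i * (W q u3 u2).det + (u2 i * (W q u1 u3).det +
      ∑ k : Fin 5, q i k * Matrix.cramer (W q u1 u2) u3 (Fin.succ (Fin.succ k)))) * c i =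
      ((W q u1 u2).det * u3 i) * c i := by rw [h2 i]
  linear_combination h6

theorem succAbove_val {n : ℕ} (b : Fin (n + 1)) (i : Fin n) :
    ((b.succAbove i : Fin (n + 1)) : ℕ) = dl b i := by
  unfold dl Fin.succAbove
  split_ifs with h1 h2 h2
  · rfl
  · exact absurd h1 h2
  · exact absurd h2 h1
  · rfl

theorem det_basis (q : ℕ → Fin 5 → K) (a b : ℕ) (hab : a < b) (hb : b < 7) :
    (W q (Pi.single ⟨b, hb⟩ 1) (Pi.single ⟨a, hab.trans hb⟩ 1)).det =
      (-1) ^ (a + b) * br (fun j => q (dl b (dl a j))) := by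
  rw [Matrix.det_succ_column_zero, Finset.sum_eq_single ⟨b, hb⟩]
  · rw [W_zero, Pi.single_eq_same, Matrix.det_succ_column_zero,
      Finset.sum_eq_single ⟨a, by omega⟩]
    · have h1 : (⟨b, hb⟩ : Fin 7).succAbove ⟨a, by omega⟩ = ⟨a, hab.trans hb⟩ := by
        apply Fin.ext
        rw [succAbove_val, dl_lt_of_lt hab]
      have h2 : ((W q (Pi.single ⟨b, hb⟩ 1) (Pi.single ⟨a, hab.trans hb⟩ 1)).submatrix
          (⟨b, hb⟩ : Fin 7).succAbove Fin.succ) ⟨a, by omega⟩ 0 = 1 := by
        rw [Matrix.submatrix_apply, W_succ, Fin.cons_zero, h1, Pi.single_eq_same]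
      rw [h2, pow_add, br]
      have h3 : (((W q (Pi.single ⟨b, hb⟩ 1) (Pi.single ⟨a, hab.trans hb⟩ 1)).submatrix
          (⟨b, hb⟩ : Fin 7).succAbove Fin.succ).submatrix (⟨a, by omega⟩ : Fin 6).succAbove
            Fin.succ) = Matrix.of fun i j : Fin 5 => q (dl b (dl a i)) j := by
        ext i j
        rw [Matrix.submatrix_apply, Matrix.submatrix_apply, W_succ_succ, succAbove_val,
          succAbove_val, Matrix.of_apply]
      rw [h3]
      ring
    · intro i _ hi
      have h1 : ((W q (Pi.single ⟨b, hb⟩ 1) (Pi.single ⟨a, hab.trans hb⟩ 1)).submatrix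
          (⟨b, hb⟩ : Fin 7).succAbove Fin.succ) i 0 = 0 := by
        rw [Matrix.submatrix_apply, W_succ, Fin.cons_zero]
        refine Pi.single_eq_of_ne ?_ _
        intro h
        apply hi
        have h4 := congrArg Fin.val h
        rw [succAbove_val] at h4
        simp only at h4
        apply Fin.ext
        simp only
        unfold dl at h4
        split_ifs at h4 <;> omega
      rw [h1, mul_zero, zero_mul]
    · intro h; exact absurd (Finset.mem_univ _) h
  · intro i _ hi
    rw [W_zero, Pi.single_eq_of_ne hi, mul_zero, zero_mul]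
  · intro h; exact absurd (Finset.mem_univ _) h

end PLU_

theorem plu_proof : Stmt_Plu := by
  intro K _ q a b c d hab hbc hcd hd
  have h := PLU_.relation q (Pi.single ⟨d, hd⟩ 1) (Pi.single ⟨c, by omega⟩ 1)
    (Pi.single ⟨b, by omega⟩ 1) (Pi.single ⟨a, by omega⟩ 1)
  rw [PLU_.det_swap q (Pi.single ⟨c, by omega⟩ 1) (Pi.single ⟨b, by omega⟩ 1),
    PLU_.det_basis q b c hbc (by omega), PLU_.det_basis q a d (by omega) hd,
    PLU_.det_basis q b d (by omega) hd, PLU_.det_basis q a c (by omega) (by omega),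
    PLU_.det_basis q c d hcd hd, PLU_.det_basis q a b hab (by omega)] at h
  have hs : ((-1 : K) ^ (a + b + c + d)) ≠ 0 := pow_ne_zero _ (by norm_num)
  apply mul_left_cancel₀ hs
  rw [mul_zero]
  have e1 : (-1 : K) ^ (b + c) * (-1) ^ (a + d) = (-1) ^ (a + b + c + d) := by
    rw [← pow_add]; congr 1; ring
  have e2 : (-1 : K) ^ (b + d) * (-1) ^ (a + c) = (-1) ^ (a + b + c + d) := by
    rw [← pow_add]; congr 1; ring
  have e3 : (-1 : K) ^ (c + d) * (-1) ^ (a + b) = (-1) ^ (a + b + c + d) := by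
    rw [← pow_add]; congr 1; ring
  generalize (-1 : K) ^ (b + c) = s1 at *
  generalize (-1 : K) ^ (a + d) = s2 at *
  generalize (-1 : K) ^ (b + d) = s3 at *
  generalize (-1 : K) ^ (a + c) = s4 at *
  generalize (-1 : K) ^ (c + d) = s5 at *
  generalize (-1 : K) ^ (a + b) = s6 at *
  generalize (-1 : K) ^ (a + b + c + d) = s at *
  generalize br (fun j => q (dl b (dl a j))) = x1 at *
  generalize br (fun j => q (dl d (dl c j))) = x2 at *
  generalize br (fun j => q (dl c (dl a j))) = x3 at *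
  generalize br (fun j => q (dl d (dl b j))) = x4 at *
  generalize br (fun j => q (dl d (dl a j))) = x5 at *
  generalize br (fun j => q (dl c (dl b j))) = x6 at *
  linear_combination (-1) * h - x5 * x6 * e1 + x3 * x4 * e2 - x1 * x2 * e3

end Pool.Agent.MCN
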