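import Pool.Agent.MCN.Stmts

/-! Infinite Ramsey theorem -/

set_option autoImplicit false

namespace Pool.Agent.MCN

namespace RAM_

/-- sequence with first value `a` and then `t` -/
def cns (a : ℕ) (t : ℕ → ℕ) : ℕ → ℕ
  | 0 => a
  | n + 1 => t n

/-- Ramsey statement relative to an infinite set given by a strictly increasing function `f` -/
def R (r : ℕ) : Prop := ∀ (C : Type) [Finite C] (χ : (ℕ → ℕ) → C),
  (∀ t t' : ℕ → ℕ, (∀ i < r, t i = t' i) → χ t = χ t') →
  ∃ h : ℕ → ℕ, StrictMono h ∧ ∃ c : C, ∀ t : ℕ → ℕ, StrictMono t → χ (h ∘ t) = c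

/-- relative version -/
theorem R.rel {r : ℕ} (hr : R r) (C : Type) [Finite C] (χ : (ℕ → ℕ) → C)
    (hχ : ∀ t t' : ℕ → ℕ, (∀ i < r, t i = t' i) → χ t = χ t') (f : ℕ → ℕ) (hf : StrictMono f) :
    ∃ h : ℕ → ℕ, StrictMono h ∧ (∀ n, ∃ m, h n = f m) ∧
      ∃ c : C, ∀ t : ℕ → ℕ, StrictMono t → χ (h ∘ t) = c := by
  obtain ⟨h, hh, c, hc⟩ := hr C (fun t => χ (f ∘ t)) (by
    intro t t' htt
    apply hχ
    intro i hi
    simp only [Function.comp_apply]
    rw [htt i hi])
  exact ⟨f ∘ h, hf.comp hh, fun n => ⟨h n, rfl⟩, c, fun t ht => hc t ht⟩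

theorem zero : R 0 := by
  intro C _ χ hχ
  refine ⟨id, strictMono_id, χ id, fun t _ => ?_⟩
  exact hχ _ _ (by simp)

/-- a strictly increasing sequence with values in the range of `f` factors through `f` -/
theorem factor {f h : ℕ → ℕ} (hf : StrictMono f) (hh : StrictMono h)
    (hv : ∀ n, ∃ m, h n = f m) : ∃ s : ℕ → ℕ, StrictMono s ∧ h = f ∘ s := by
  choose s hs using hv
  refine ⟨s, fun a b hab => ?_, funext hs⟩
  have : f (s a) < f (s b) := by rw [← hs a, ← hs b]; exact hh hab
  exact hf.lt_iff_lt.1 this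

/-- one step of the diagonal construction: state = strictly increasing function (infinite set);
the head `f 0` is used -/
theorem step {r : ℕ} (hr : R r) (C : Type) [Finite C] (χ : (ℕ → ℕ) → C)
    (hχ : ∀ t t' : ℕ → ℕ, (∀ i < r + 1, t i = t' i) → χ t = χ t') (f : ℕ → ℕ) (hf : StrictMono f) :
    ∃ h : ℕ → ℕ, StrictMono h ∧ (∀ n, ∃ m, h n = f (m + 1)) ∧
      ∃ c : C, ∀ t : ℕ → ℕ, StrictMono t → χ (cns (f 0) (h ∘ t)) = c := by
  have hf' : StrictMono (fun n => f (n + 1)) := fun a b hab => hf (by omega)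
  obtain ⟨h, h1, h2, c, h3⟩ := hr.rel C (fun t => χ (cns (f 0) t)) (by
    intro t t' htt
    apply hχ
    intro i hi
    rcases i with _ | i
    · rfl
    · exact htt i (by omega)) (fun n => f (n + 1)) hf'
  exact ⟨h, h1, h2, c, h3⟩

theorem succ {r : ℕ} (hr : R r) : R (r + 1) := by
  intro C _ χ hχ
  classical
  -- the sequence of infinite sets
  let St := {f : ℕ → ℕ // StrictMono f}
  have hstep : ∀ f : St, ∃ (h : St) (c : C), (∀ n, ∃ m, h.1 n = f.1 (m + 1)) ∧
      ∀ t : ℕ → ℕ, StrictMono t → χ (cns (f.1 0) (h.1 ∘ t)) = c := by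
    intro f
    obtain ⟨h, h1, h2, c, h3⟩ := step hr C χ hχ f.1 f.2
    exact ⟨⟨h, h1⟩, c, h2, h3⟩
  choose nx col hnx hcol using hstep
  let F : ℕ → St := fun n => Nat.rec ⟨id, strictMono_id⟩ (fun _ f => nx f) n
  have hF : ∀ n, F (n + 1) = nx (F n) := fun n => rfl
  -- heads
  let a : ℕ → ℕ := fun n => (F n).1 0
  -- later sets are contained in the earlier ones (shifted)
  have hsub : ∀ n k, ∀ i, ∃ m, (F (n + 1 + k)).1 i = (F (n + 1)).1 m := by
    intro n k
    induction k with
    | zero => intro i; exact ⟨i, rfl⟩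
    | succ k ih =>
      intro i
      obtain ⟨m, hm⟩ := hnx (F (n + 1 + k)) i
      obtain ⟨m', hm'⟩ := ih (m + 1)
      exact ⟨m', by
        have : F (n + 1 + (k + 1)) = nx (F (n + 1 + k)) := rfl
        rw [this, hm, hm']⟩
  have hsub' : ∀ n k, ∃ m, a (n + 1 + k) = (F (n + 1)).1 m := fun n k => hsub n k 0
  have ha : StrictMono a := by
    apply strictMono_nat_of_lt_succ
    intro n
    obtain ⟨m, hm⟩ := hnx (F n) 0
    have : a (n + 1) = (F n).1 (m + 1) := hm
    rw [this]
    exact (F n).2 (by omega)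
  -- pigeonhole on colours
  obtain ⟨c, hc⟩ := Finite.exists_infinite_fiber (fun n : ℕ => col (F n))
  have hinf : Set.Infinite {n : ℕ | col (F n) = c} := by
    have := Set.infinite_coe_iff.1 hc
    exact this
  let e : ℕ → ℕ := Nat.nth (fun n => col (F n) = c)
  have he : StrictMono e := Nat.nth_strictMono hinf
  have hec : ∀ n, col (F (e n)) = c := fun n => Nat.nth_mem_of_infinite hinf n
  refine ⟨a ∘ e, ha.comp he, c, fun t ht => ?_⟩
  -- the tail lies in the set F (e (t 0) + 1)
  set n := e (t 0) with hn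
  have htail : ∀ i, ∃ m, a (e (t (i + 1))) = (F (n + 1)).1 m := by
    intro i
    have h1 : e (t 0) < e (t (i + 1)) := he (ht (by omega))
    obtain ⟨k, hk⟩ := Nat.exists_eq_add_of_lt h1
    have : e (t (i + 1)) = n + 1 + k := by omega
    rw [this]
    exact hsub' n k
  have hmono : StrictMono (fun i => a (e (t (i + 1)))) := fun x y hxy => ha (he (ht (by omega)))
  obtain ⟨s, hs, hfs⟩ := factor (F (n + 1)).2 hmono htail
  have hval := hcol (F n) s hs
  rw [hec (t 0)] at hval
  rw [← hval]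
  congr 1
  funext i
  rcases i with _ | i
  · rfl
  · have := congrFun hfs i
    simp only [Function.comp_apply] at this ⊢
    simp only [cns, Function.comp_apply]
    exact this

end RAM_

theorem ram_proof : Stmt_Ram := by
  intro r
  induction r with
  | zero => exact RAM_.zero
  | succ r ih => exact RAM_.succ ih

end Pool.Agent.MCN
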