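import Pool.Agent.MCN.Stmts

/-!
# MCN: S7, tree axioms for words of seven letters
-/

set_option autoImplicit false

namespace Pool.Agent.MCN

theorem s7_proof (h1 : Stmt_Tre) (h2 : Stmt_Ttp) : Stmt_S7 := by
  intro K _ _ _ g hg u a b c d e ha hb hc hd he hab hac had hae hbc hbd hbe hcd hce hde
  classical
  set q : ℕ → Fin 5 → K := vf g (lt u) id with hq
  have gen : ∀ x y : ℕ, x < y → y < 7 → br (fun j => q (dl y (dl x j))) ≠ 0 := by
    intro x y _ _
    exact hg.gen (fun j => lt u (dl y (dl x j))) (fun j => dl y (dl x j))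
      ((dl_strictMono y).comp (dl_strictMono x))
  obtain ⟨-, -, h3⟩ := h2 K q
  obtain ⟨hpos, hineq⟩ := h3 gen
  have hY : ∀ i ∈ ({a, b, c, d, e} : Finset ℕ), i < 7 := by
    intro i hi
    simp only [Finset.mem_insert, Finset.mem_singleton] at hi
    rcases hi with rfl | rfl | rfl | rfl | rfl <;> assumption
  have h4 := h1 K (fun i j => tt q {i, j}) {a, b, c, d, e} (tt_pair_comm q)
    (fun i hi j hj hij => hpos i j (hY i hi) (hY j hj) hij)
    (fun i hi j hj k hk l hl e1 e2 e3 e4 e5 e6 =>
      hineq i j k l (hY i hi) (hY j hj) (hY k hk) (hY l hl) e1 e2 e3 e4 e5 e6)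
    a (by simp) b (by simp) c (by simp) d (by simp) e (by simp)
    hab hac had hae hbc hbd hbe hcd hce hde
  obtain ⟨t1, t2⟩ := h4
  have r1 : rho g (cA u a b c d) ↔ Sp (fun i j => tt q {i, j}) a b c d :=
    rho_cA g (by omega) (by omega) (by omega) (by omega)
  have r2 : rho g (cA u a b c e) ↔ Sp (fun i j => tt q {i, j}) a b c e :=
    rho_cA g (by omega) (by omega) (by omega) (by omega)
  have r3 : rho g (cA u a b d e) ↔ Sp (fun i j => tt q {i, j}) a b d e :=
    rho_cA g (by omega) (by omega) (by omega) (by omega)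
  have r4 : rho g (cA u a e c d) ↔ Sp (fun i j => tt q {i, j}) a e c d :=
    rho_cA g (by omega) (by omega) (by omega) (by omega)
  constructor
  · by_contra hcon
    unfold Tr c7a at hcon
    push Not at hcon
    have c1 := hcon (2 * cA u a b c d + 1) (by simp)
    have c2 := hcon (2 * cA u a b c e + 1) (by simp)
    have c3 := hcon (2 * cA u a b d e) (by simp)
    rw [lT_neg, not_not, r1] at c1
    rw [lT_neg, not_not, r2] at c2
    rw [lT_pos, r3] at c3
    exact c3 (t1 c1 c2)
  · by_contra hcon
    unfold Tr c7b at hcon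
    push Not at hcon
    have c1 := hcon (2 * cA u a b c d + 1) (by simp)
    have c2 := hcon (2 * cA u a b c e) (by simp)
    have c3 := hcon (2 * cA u a e c d) (by simp)
    rw [lT_neg, not_not, r1] at c1
    rw [lT_pos, r2] at c2
    rw [lT_pos, r4] at c3
    rcases t2 c1 with h | h
    · exact c2 h
    · exact c3 h

end Pool.Agent.MCN
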