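import Pool.Agent.MCN.Stmts

/-! S8: tree axioms for words of eight letters -/

set_option autoImplicit false

namespace Pool.Agent.MCN

namespace S8_

theorem sh_eq (o a : ℕ) : sh o a = if a < o then a else a - 1 := by
  unfold sh
  by_cases h : a < o
  · have : Nat.blt a o = true := Nat.ble_eq_true_of_le h
    rw [this, if_pos h]
    rfl
  · have : Nat.blt a o = false := by
      cases hb : Nat.blt a o with
      | false => rfl
      | true => exact absurd (Nat.le_of_ble_eq_true hb) h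
    rw [this, if_neg h]
    rfl

theorem sh_lt {o a : ℕ} (ho : o < 8) (ha : a < 8) (h : a ≠ o) : sh o a < 7 := by
  rw [sh_eq]
  split_ifs <;> omega

theorem dl_sh {o a : ℕ} (h : a ≠ o) : dl o (sh o a) = a := by
  rw [sh_eq]
  unfold dl
  split_ifs <;> omega

theorem sh_ne {o a b : ℕ} (ha : a ≠ o) (hb : b ≠ o) (h : a ≠ b) : sh o a ≠ sh o b := by
  intro he
  have h1 := dl_sh ha
  rw [he, dl_sh hb] at h1
  exact h h1.symm

section

variable {K : Type} [Field K] [LinearOrder K] [IsStrictOrderedRing K]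
  {g : Fin 3 → ℕ → Fin 5 → K}

/-- the distance function of the five letters `Y` -/
noncomputable def DD (q : ℕ → Fin 5 → K) (Y : Finset ℕ) (i j : ℕ) : K := tt q (Y \ {i, j})

theorem DD_eq (h2 : Stmt_Ttp) (q : ℕ → Fin 5 → K) {Y : Finset ℕ} {i j k l o : ℕ}
    (hY : Y = {i, j, k, l, o}) (hij : i ≠ j) (hik : i ≠ k) (hil : i ≠ l) (hio : i ≠ o)
    (hjk : j ≠ k) (hjl : j ≠ l) (hjo : j ≠ o) (hkl : k ≠ l) (hko : k ≠ o) (hlo : l ≠ o) :
    DD q Y i j = tt (fun n => q (dl o n)) {sh o k, sh o l} := by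
  rw [(h2 K q).2.1, dl_sh hko, dl_sh hlo]
  unfold DD
  congr 1
  rw [hY]
  ext x
  simp only [Finset.mem_sdiff, Finset.mem_insert, Finset.mem_singleton]
  omega

theorem perm_Y {i j k l o : ℕ} {Y : Finset ℕ} (hY : Y = {i, j, k, l, o}) {i' j' k' l' o' : ℕ}
    (h : ∀ x, (x = i ∨ x = j ∨ x = k ∨ x = l ∨ x = o) ↔
      (x = i' ∨ x = j' ∨ x = k' ∨ x = l' ∨ x = o')) : Y = {i', j', k', l', o'} := by
  rw [hY]
  ext x
  simp only [Finset.mem_insert, Finset.mem_singleton]
  exact h x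

theorem sp_iff (h2 : Stmt_Ttp) (hg : Hcf g) (u : ℕ) {Y : Finset ℕ} {a b c d o : ℕ}
    (hY : Y = {a, b, c, d, o}) (ha : a < 8) (hb : b < 8) (hc : c < 8) (hd : d < 8) (ho : o < 8)
    (hab : a ≠ b) (hac : a ≠ c) (had : a ≠ d) (hao : a ≠ o) (hbc : b ≠ c) (hbd : b ≠ d)
    (hbo : b ≠ o) (hcd : c ≠ d) (hco : c ≠ o) (hdo : d ≠ o) :
    rho g (s8 u o a b c d) ↔ Sp (DD (vf g (lt u) id) Y) a b c d := by
  have s1 := sh_lt ho ha hao
  have s2 := sh_lt ho hb hbo
  have s3 := sh_lt ho hc hco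
  have s4 := sh_lt ho hd hdo
  unfold s8
  rw [rho_cA g (by omega) (by omega) (by omega) (by omega),
    ← hg.hq (lt (dw u o)) (dl o) (dl_strictMono o) _ _ _ _ s1 s2 s3 s4, lt_dw']
  have e0 : vf g (fun j => lt u (dl o j)) (dl o) = fun n => vf g (lt u) id (dl o n) := rfl
  rw [e0]
  have e1 : DD (vf g (lt u) id) Y a b = tt (fun n => vf g (lt u) id (dl o n)) {sh o c, sh o d} :=
    DD_eq h2 _ (perm_Y hY (fun x => by clear * -; omega)) hab hac had hao hbc hbd hbo hcd hco hdo
  have e2 : DD (vf g (lt u) id) Y c d = tt (fun n => vf g (lt u) id (dl o n)) {sh o a, sh o b} :=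
    DD_eq h2 _ (perm_Y hY (fun x => by clear * -; omega)) hcd hac.symm hbc.symm hco had.symm hbd.symm hdo
      hab hao hbo
  have e3 : DD (vf g (lt u) id) Y a c = tt (fun n => vf g (lt u) id (dl o n)) {sh o b, sh o d} :=
    DD_eq h2 _ (perm_Y hY (fun x => by clear * -; omega)) hac hab had hao hbc.symm hcd hco hbd hbo hdo
  have e4 : DD (vf g (lt u) id) Y b d = tt (fun n => vf g (lt u) id (dl o n)) {sh o a, sh o c} :=
    DD_eq h2 _ (perm_Y hY (fun x => by clear * -; omega)) hbd hab.symm hbc hbo had.symm hcd.symm hdo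
      hac hao hco
  have e5 : DD (vf g (lt u) id) Y a d = tt (fun n => vf g (lt u) id (dl o n)) {sh o b, sh o c} :=
    DD_eq h2 _ (perm_Y hY (fun x => by clear * -; omega)) had hab hac hao hbd.symm hcd.symm hdo hbc hbo hco
  have e6 : DD (vf g (lt u) id) Y b c = tt (fun n => vf g (lt u) id (dl o n)) {sh o a, sh o d} :=
    DD_eq h2 _ (perm_Y hY (fun x => by clear * -; omega)) hbc hab.symm hbd hbo hac.symm hcd hco had hao hdo
  unfold Qt Sp
  rw [e1, e2, e3, e4, e5, e6]
  simp only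
  rw [mul_comm (tt _ {sh o c, sh o d}), mul_comm (tt _ {sh o b, sh o d}),
    mul_comm (tt _ {sh o b, sh o c})]

theorem gen8 (hg : Hcf g) (u o : ℕ) : ∀ a b : ℕ, a < b → b < 7 →
    br (fun j => (fun n => vf g (lt u) id (dl o n)) (dl b (dl a j))) ≠ 0 := by
  intro a b _ _
  exact hg.gen (fun j => lt u (dl o (dl b (dl a j)))) (fun j => dl o (dl b (dl a j)))
    ((dl_strictMono o).comp ((dl_strictMono b).comp (dl_strictMono a)))

end

end S8_

open S8_ in
theorem s8_proof (h1 : Stmt_Tre) (h2 : Stmt_Ttp) : Stmt_S8 := by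
  intro K _ _ _ g hg u a b c d e ha hb hc hd he hab hac had hae hbc hbd hbe hcd hce hde
  obtain ⟨Y, hY⟩ : ∃ Y : Finset ℕ, Y = {a, b, c, d, e} := ⟨_, rfl⟩
  have hY8 : ∀ x ∈ Y, x < 8 := by
    intro x hx
    rw [hY] at hx
    simp only [Finset.mem_insert, Finset.mem_singleton] at hx
    omega
  have hcard : Y.card = 5 := by
    rw [hY, Finset.card_insert_of_notMem, Finset.card_insert_of_notMem,
      Finset.card_insert_of_notMem, Finset.card_pair hde]
    · simp only [Finset.mem_insert, Finset.mem_singleton]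
      omega
    · simp only [Finset.mem_insert, Finset.mem_singleton]
      omega
    · simp only [Finset.mem_insert, Finset.mem_singleton]
      omega
  -- fifth element
  have fifth : ∀ i ∈ Y, ∀ j ∈ Y, ∀ k ∈ Y, ∀ l ∈ Y, i ≠ j → i ≠ k → i ≠ l → j ≠ k → j ≠ l →
      k ≠ l → ∃ o, o < 8 ∧ Y = {i, j, k, l, o} ∧ i ≠ o ∧ j ≠ o ∧ k ≠ o ∧ l ≠ o := by
    intro i hi j hj k hk l hl hij hik hil hjk hjl hkl
    have hc4 : ({i, j, k, l} : Finset ℕ).card = 4 := by
      rw [Finset.card_insert_of_notMem, Finset.card_insert_of_notMem, Finset.card_pair hkl]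
      · simp only [Finset.mem_insert, Finset.mem_singleton]
        omega
      · simp only [Finset.mem_insert, Finset.mem_singleton]
        omega
    have hsub : ({i, j, k, l} : Finset ℕ) ⊆ Y := by
      intro x hx
      simp only [Finset.mem_insert, Finset.mem_singleton] at hx
      rcases hx with rfl | rfl | rfl | rfl <;> assumption
    have h5 : (Y \ {i, j, k, l}).card = 1 := by
      rw [Finset.card_sdiff_of_subset hsub, hcard, hc4]
    obtain ⟨o, ho⟩ := Finset.card_eq_one.1 h5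
    have ho1 : o ∈ Y \ {i, j, k, l} := by
      rw [ho]
      exact Finset.mem_singleton_self o
    have ho2 := Finset.mem_sdiff.1 ho1
    simp only [Finset.mem_insert, Finset.mem_singleton] at ho2
    refine ⟨o, hY8 o ho2.1, ?_, by omega, by omega, by omega, by omega⟩
    ext x
    constructor
    · intro hx
      by_cases hx4 : x ∈ ({i, j, k, l} : Finset ℕ)
      · simp only [Finset.mem_insert, Finset.mem_singleton] at hx4 ⊢
        omega
      · have : x ∈ Y \ {i, j, k, l} := Finset.mem_sdiff.2 ⟨hx, hx4⟩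
        rw [ho] at this
        simp only [Finset.mem_insert, Finset.mem_singleton] at this ⊢
        omega
    · intro hx
      simp only [Finset.mem_insert, Finset.mem_singleton] at hx
      rcases hx with h | h | h | h | h
      · rw [h]; exact hi
      · rw [h]; exact hj
      · rw [h]; exact hk
      · rw [h]; exact hl
      · rw [h]; exact ho2.1
  obtain ⟨q, hq⟩ : ∃ q, q = vf g (lt u) id := ⟨_, rfl⟩
  have hg8 : ∀ o a b : ℕ, a < b → b < 7 →
      br (fun j => (fun n => q (dl o n)) (dl b (dl a j))) ≠ 0 := by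
    intro o a b h h'
    rw [hq]
    exact gen8 hg u o a b h h'
  have hT3 := fun o => (h2 K (fun n => q (dl o n))).2.2 (hg8 o)
  have hsym : ∀ i j, DD q Y i j = DD q Y j i := by
    intro i j
    unfold DD
    rw [Finset.pair_comm]
  have hpos : ∀ i ∈ Y, ∀ j ∈ Y, i ≠ j → 0 < DD q Y i j := by
    intro i hi j hj hij
    have h2c : ({i, j} : Finset ℕ).card = 2 := Finset.card_pair hij
    have hsub : ({i, j} : Finset ℕ) ⊆ Y := by
      intro x hx
      simp only [Finset.mem_insert, Finset.mem_singleton] at hx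
      rcases hx with rfl | rfl <;> assumption
    have h3 : (Y \ {i, j}).card = 3 := by
      rw [Finset.card_sdiff_of_subset hsub, hcard, h2c]
    obtain ⟨k, l, m, hkl, hkm, hlm, hklm⟩ := Finset.card_eq_three.1 h3
    have hk : k ∈ Y \ {i, j} := by rw [hklm]; simp
    have hl : l ∈ Y \ {i, j} := by rw [hklm]; simp
    have hk' := Finset.mem_sdiff.1 hk
    have hl' := Finset.mem_sdiff.1 hl
    simp only [Finset.mem_insert, Finset.mem_singleton] at hk' hl'
    obtain ⟨o, ho8, hYo, hio, hjo, hko, hlo⟩ := fifth i hi j hj k hk'.1 l hl'.1 hij (by omega)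
      (by omega) (by omega) (by omega) hkl
    rw [DD_eq h2 q hYo hij (by omega) (by omega) hio (by omega) (by omega) hjo hkl hko hlo]
    exact (hT3 o).1 _ _ (sh_lt ho8 (hY8 k hk'.1) hko)
      (sh_lt ho8 (hY8 l hl'.1) hlo) (sh_ne hko hlo hkl)
  have hfour : ∀ i ∈ Y, ∀ j ∈ Y, ∀ k ∈ Y, ∀ l ∈ Y, i ≠ j → i ≠ k → i ≠ l → j ≠ k → j ≠ l →
      k ≠ l → DD q Y i j * DD q Y k l ≤ DD q Y i k * DD q Y j l + DD q Y i l * DD q Y j k := by
    intro i hi j hj k hk l hl hij hik hil hjk hjl hkl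
    obtain ⟨o, ho8, hYo, hio, hjo, hko, hlo⟩ := fifth i hi j hj k hk l hl hij hik hil hjk hjl hkl
    have e1 : DD q Y i j = tt (fun n => q (dl o n)) {sh o k, sh o l} :=
      DD_eq h2 _ (perm_Y hYo (fun x => by clear * -; omega)) hij hik hil hio hjk hjl hjo hkl hko hlo
    have e2 : DD q Y k l = tt (fun n => q (dl o n)) {sh o i, sh o j} :=
      DD_eq h2 _ (perm_Y hYo (fun x => by clear * -; omega)) hkl hik.symm hjk.symm hko hil.symm hjl.symm hlo
        hij hio hjo
    have e3 : DD q Y i k = tt (fun n => q (dl o n)) {sh o j, sh o l} :=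
      DD_eq h2 _ (perm_Y hYo (fun x => by clear * -; omega)) hik hij hil hio hjk.symm hkl hko hjl hjo hlo
    have e4 : DD q Y j l = tt (fun n => q (dl o n)) {sh o i, sh o k} :=
      DD_eq h2 _ (perm_Y hYo (fun x => by clear * -; omega)) hjl hij.symm hjk hjo hil.symm hkl.symm hlo
        hik hio hko
    have e5 : DD q Y i l = tt (fun n => q (dl o n)) {sh o j, sh o k} :=
      DD_eq h2 _ (perm_Y hYo (fun x => by clear * -; omega)) hil hij hik hio hjl.symm hkl.symm hlo hjk hjo hko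
    have e6 : DD q Y j k = tt (fun n => q (dl o n)) {sh o i, sh o l} :=
      DD_eq h2 _ (perm_Y hYo (fun x => by clear * -; omega)) hjk hij.symm hjl hjo hik.symm hkl hko hil hio hlo
    rw [e1, e2, e3, e4, e5, e6, mul_comm (tt _ {sh o k, sh o l}),
      mul_comm (tt _ {sh o j, sh o l}), mul_comm (tt _ {sh o j, sh o k})]
    exact (hT3 o).2 _ _ _ _ (sh_lt ho8 (hY8 i hi) hio)
      (sh_lt ho8 (hY8 j hj) hjo) (sh_lt ho8 (hY8 k hk) hko) (sh_lt ho8 (hY8 l hl) hlo)
      (sh_ne hio hjo hij) (sh_ne hio hko hik) (sh_ne hio hlo hil) (sh_ne hjo hko hjk)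
      (sh_ne hjo hlo hjl) (sh_ne hko hlo hkl)
  have haY : a ∈ Y := by rw [hY]; simp
  have hbY : b ∈ Y := by rw [hY]; simp
  have hcY : c ∈ Y := by rw [hY]; simp
  have hdY : d ∈ Y := by rw [hY]; simp
  have heY : e ∈ Y := by rw [hY]; simp
  obtain ⟨t1, t2⟩ := h1 K (DD q Y) Y hsym hpos hfour a haY b hbY c hcY d hdY e heY hab hac had hae
    hbc hbd hbe hcd hce hde
  rw [hq] at t1 t2
  have r1 : rho g (s8 u e a b c d) ↔ Sp (DD (vf g (lt u) id) Y) a b c d :=
    sp_iff h2 hg u (perm_Y hY (fun x => by clear * -; omega)) ha hb hc hd he hab hac had hae hbc hbd hbe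
      hcd hce hde
  have r2 : rho g (s8 u d a b c e) ↔ Sp (DD (vf g (lt u) id) Y) a b c e :=
    sp_iff h2 hg u (perm_Y hY (fun x => by clear * -; omega)) ha hb hc he hd hab hac hae had hbc hbe hbd
      hce hcd hde.symm
  have r3 : rho g (s8 u c a b d e) ↔ Sp (DD (vf g (lt u) id) Y) a b d e :=
    sp_iff h2 hg u (perm_Y hY (fun x => by clear * -; omega)) ha hb hd he hc hab had hae hac hbd hbe hbc
      hde hcd.symm hce.symm
  have r4 : rho g (s8 u b a e c d) ↔ Sp (DD (vf g (lt u) id) Y) a e c d :=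
    sp_iff h2 hg u (perm_Y hY (fun x => by clear * -; omega)) ha he hc hd hb hae hac had hab hce.symm
      hde.symm hbe.symm hcd hbc.symm hbd.symm
  rw [← r1, ← r2, ← r3] at t1
  rw [← r1, ← r2, ← r4] at t2
  constructor
  · unfold Tr c8a
    by_cases k1 : rho g (s8 u e a b c d)
    · by_cases k2 : rho g (s8 u d a b c e)
      · exact ⟨2 * s8 u c a b d e, by simp, (lT_pos _ _).2 (t1 k1 k2)⟩
      · exact ⟨2 * s8 u d a b c e + 1, by simp, (lT_neg _ _).2 k2⟩
    · exact ⟨2 * s8 u e a b c d + 1, by simp, (lT_neg _ _).2 k1⟩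
  · unfold Tr c8b
    by_cases k1 : rho g (s8 u e a b c d)
    · rcases t2 k1 with k2 | k2
      · exact ⟨2 * s8 u d a b c e, by simp, (lT_pos _ _).2 k2⟩
      · exact ⟨2 * s8 u b a e c d, by simp, (lT_pos _ _).2 k2⟩
    · exact ⟨2 * s8 u e a b c d + 1, by simp, (lT_neg _ _).2 k1⟩

end Pool.Agent.MCN
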