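import Pool.Agent.MCN.Stmts

/-!
# MCN, SEX: two different splits exclude each other
-/

set_option autoImplicit false

namespace Pool.Agent.MCN

namespace SEX_

theorem ll_one {K : Type} [Field K] [LinearOrder K] [IsStrictOrderedRing K] {x y : K}
    (h : ll x y) : x < y := by
  have := h 1
  simpa using this

end SEX_

open SEX_ in
theorem sex_proof : Stmt_Sex := by
  intro K _ _ _ g hg u a b c d ha hb hc hd
  by_contra hno
  unfold Tr at hno
  push Not at hno
  simp only [cEx, List.mem_cons, List.not_mem_nil, or_false, forall_eq_or_imp, forall_eq, lT_neg,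
    not_not] at hno
  obtain ⟨h1, h2⟩ := hno
  rw [rho_cA g (by omega) (by omega) (by omega) (by omega)] at h1 h2
  have h3 := ll_one h1.1
  have h4 := ll_one h2.1
  exact lt_asymm h3 h4

end Pool.Agent.MCN
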