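import Pool.Agent.MCN.Stmts

/-! MCN, module SGN: signs of the determinants from the positive relation -/

set_option autoImplicit false

namespace Pool.Agent.MCN

namespace SGN_

theorem sum_split {M : Type} [AddCommMonoid M] (f : ℕ → M) {i : ℕ} (hi : i < 5) :
    ∑ l ∈ Finset.range 6, f l = f (i + 1) + ∑ j : Fin 5, f (dl (i + 1) j) := by
  interval_cases i <;>
    simp [Finset.sum_range_succ, Fin.sum_univ_five, dl] <;> abel

/-- inverse of `dl e`, with value `0` at `e` -/
noncomputable def zz (e : ℕ) (v : ℕ → ℝ) (l : ℕ) : ℝ :=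
  if l < e then v l else if l = e then 0 else v (l - 1)

theorem zz_self (e : ℕ) (v : ℕ → ℝ) : zz e v e = 0 := by simp [zz]

theorem zz_dl (e : ℕ) (v : ℕ → ℝ) (j : ℕ) : zz e v (dl e j) = v j := by
  unfold zz dl
  by_cases h : j < e
  · simp [h]
  · have h1 : ¬ j + 1 < e := by omega
    have h2 : ¬ j + 1 = e := by omega
    simp [h, h1, h2]

end SGN_

open SGN_

theorem sgn_proof : Stmt_Sgn := by
  intro u x hx h0 huniq i hi
  let A : Matrix (Fin 5) (Fin 5) ℝ := Matrix.of fun j => u (dl (i + 1) j)
  have hA : br (fun j => u (dl (i + 1) j)) = A.det := rfl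
  have hxi : 0 < x (i + 1) := hx _ (by omega)
  have hxi' : 0 < x i := hx _ (by omega)
  have hsum : u (i + 1) = ∑ k : Fin 5, (-(x (dl (i + 1) k) / x (i + 1))) • A k := by
    rw [sum_split (fun l => x l • u l) hi] at h0
    have h1 : x (i + 1) • u (i + 1) = -∑ j : Fin 5, x (dl (i + 1) j) • u (dl (i + 1) j) :=
      eq_neg_of_add_eq_zero_left h0
    have h2 : u (i + 1) = (x (i + 1))⁻¹ • (x (i + 1) • u (i + 1)) := by
      rw [smul_smul, inv_mul_cancel₀ hxi.ne', one_smul]
    rw [h2, h1, smul_neg, Finset.smul_sum, ← Finset.sum_neg_distrib]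
    apply Finset.sum_congr rfl
    intro k _
    rw [smul_smul, ← neg_smul]
    change _ = _ • u (dl (i + 1) k)
    congr 1
    rw [div_eq_inv_mul]
  have hB : br (fun j => u (dl i j)) = (A.updateRow ⟨i, hi⟩ (u (i + 1))).det := by
    unfold br
    congr 1
    ext j k
    by_cases hj : j = ⟨i, hi⟩
    · subst hj
      rw [Matrix.updateRow_self]
      simp [Matrix.of_apply, dl]
    · rw [Matrix.updateRow_ne hj]
      have hj' : (j : ℕ) ≠ i := fun h => hj (Fin.ext h)
      change u (dl i j) k = u (dl (i + 1) j) k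
      have : dl i j = dl (i + 1) j := by
        unfold dl
        by_cases h : (j : ℕ) < i
        · have h' : (j : ℕ) < i + 1 := by omega
          simp [h, h']
        · have h' : ¬ (j : ℕ) < i + 1 := by omega
          simp [h, h']
      rw [this]
  have hB' : (A.updateRow ⟨i, hi⟩ (u (i + 1))).det = -(x i / x (i + 1)) * A.det := by
    rw [hsum, Matrix.det_updateRow_sum, smul_eq_mul]
    have : dl (i + 1) ((⟨i, hi⟩ : Fin 5) : ℕ) = i := by simp [dl]
    rw [this]
  have hdet : A.det ≠ 0 := by
    intro hd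
    obtain ⟨v, hv, hvA⟩ := Matrix.exists_vecMul_eq_zero_iff.2 hd
    have h1 : ∑ j : Fin 5, v j • u (dl (i + 1) j) = 0 := by
      ext k
      have := congrFun hvA k
      rw [Matrix.vecMul, dotProduct] at this
      simp only [Finset.sum_apply, Pi.smul_apply, smul_eq_mul, Pi.zero_apply]
      exact this
    let v' : ℕ → ℝ := fun n => if h : n < 5 then v ⟨n, h⟩ else 0
    have hv' : ∀ j : Fin 5, v' j = v j := by
      intro j
      simp only [v']
      rw [dif_pos j.2]
    obtain ⟨c, hc⟩ := huniq (zz (i + 1) v') (by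
      rw [sum_split (fun l => zz (i + 1) v' l • u l) hi]
      simp only [zz_self, zero_smul, zero_add, zz_dl, hv']
      exact h1)
    have hc0 : c = 0 := by
      have := hc (i + 1) (by omega)
      rw [zz_self] at this
      rcases mul_eq_zero.1 this.symm with h | h
      · exact h
      · exact absurd h hxi.ne'
    apply hv
    ext j
    have h2 : dl (i + 1) j < 6 := by
      have := dl_le (i + 1) j
      have := j.2
      omega
    have h3 := hc _ h2
    rw [zz_dl, hv', hc0, zero_mul] at h3
    exact h3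
  rw [hA, hB, hB']
  have h4 : 0 < A.det * A.det := mul_self_pos.2 hdet
  have h5 : 0 < x i / x (i + 1) := div_pos hxi' hxi
  nlinarith [mul_pos h5 h4]

end Pool.Agent.MCN
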