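import Pool.Agent.MCN.Stmts

/-! The nonstar clause -/

set_option autoImplicit false

namespace Pool.Agent.MCN

theorem sns_proof : Stmt_Sns := by
  intro K _ _ _ g hg u p hp h1 h2 h3
  rcases hg.nst (lt u) id strictMono_id p hp h1 h2 h3 with h | h
  · refine ⟨2 * cA u p (p + 1) (p + 2) (p + 3), by simp [cNs], ?_⟩
    rw [lT_pos, rho_cA g (by omega) (by omega) (by omega) (by omega)]
    exact h
  · refine ⟨2 * cA u p (p + 3) (p + 1) (p + 2), by simp [cNs], ?_⟩
    rw [lT_pos, rho_cA g (by omega) (by omega) (by omega) (by omega)]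
    exact h

end Pool.Agent.MCN
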