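import Pool.Agent.MCN.Stmts

/-! MCN, module SOD: the odd one out is not a split -/

set_option autoImplicit false

namespace Pool.Agent.MCN

namespace SOD_

variable {K : Type} [Field K] [LinearOrder K] [IsStrictOrderedRing K]

theorem ll_one {x y : K} (h : ll x y) : x < y := by
  have := h 1
  rwa [Nat.cast_one, one_mul] at this

theorem mul_neg_iff' {x y : K} (hx : x ≠ 0) (hy : y ≠ 0) : ¬ (0 < x ↔ 0 < y) ↔ x * y < 0 := by
  rcases lt_or_gt_of_ne hx with h1 | h1 <;> rcases lt_or_gt_of_ne hy with h2 | h2
  · have h3 : 0 < x * y := mul_pos_of_neg_of_neg h1 h2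
    have h4 := not_lt.2 h1.le
    have h5 := not_lt.2 h2.le
    have h6 := not_lt.2 h3.le
    tauto
  · have h3 : x * y < 0 := mul_neg_of_neg_of_pos h1 h2
    have h4 := not_lt.2 h1.le
    tauto
  · have h3 : x * y < 0 := mul_neg_of_pos_of_neg h1 h2
    have h4 := not_lt.2 h2.le
    tauto
  · have h3 : 0 < x * y := mul_pos h1 h2
    have h6 := not_lt.2 h3.le
    tauto

end SOD_

open SOD_ in
theorem sod_proof (hP : Stmt_Plu) (hT : Stmt_Ttp) : Stmt_Sod := by
  intro K _ _ _ g hg s u a b c d e hs hu hab hbc hcd hd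
  have plu := hP K (vf g (lt u) id) a b c d hab hbc hcd hd
  obtain ⟨t1, -, -⟩ := hT K (vf g (lt u) id)
  have nz : ∀ i j, br (fun k => vf g (lt u) id (dl j (dl i k))) ≠ 0 := fun i j =>
    hg.gen (fun k => lt u (dl j (dl i k))) (fun k => dl j (dl i k))
      ((dl_strictMono j).comp (dl_strictMono i))
  have sg : ∀ i j, (0 < br (fun k => vf g (lt u) id (dl j (dl i k)))) ↔
      0 < br (vf g (lt (w2 u i j)) id) := fun i j => sign_w2 g hg.hs id strictMono_id u i j
  have rz : ∀ i j k l, i < j → j < 7 → k < l → l < 7 → (rho g (zA (w2 u i j) (w2 u k l)) ↔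
      br (fun m => vf g (lt u) id (dl j (dl i m))) *
        br (fun m => vf g (lt u) id (dl l (dl k m))) < 0) := by
    intro i j k l hij hj hkl hl
    rw [rho_zA g (w2_lt hu hij hj) (w2_lt hu hkl hl), ← sg, ← sg]
    exact mul_neg_iff' (nz i j) (nz k l)
  have zx := rz a b c d hab (by omega) hcd hd
  have zy := rz a c b d (by omega) (by omega) (by omega) hd
  have zz := rz a d b c (by omega) hd hbc (by omega)
  have nx := mul_ne_zero (nz a b) (nz c d)
  have ny := mul_ne_zero (nz a c) (nz b d)
  have nzz := mul_ne_zero (nz a d) (nz b c)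
  have q0 := rho_cA g (u := u) (a := a) (b := b) (c := c) (d := d) (by omega) (by omega) (by omega)
    (by omega)
  have q1 := rho_cA g (u := u) (a := a) (b := c) (c := b) (d := d) (by omega) (by omega) (by omega)
    (by omega)
  have q2 := rho_cA g (u := u) (a := a) (b := d) (c := b) (d := c) (by omega) (by omega) (by omega)
    (by omega)
  have w0 : Qt (vf g (lt u) id) a b c d →
      |br (fun m => vf g (lt u) id (dl b (dl a m))) *
        br (fun m => vf g (lt u) id (dl d (dl c m)))| <
      |br (fun m => vf g (lt u) id (dl c (dl a m))) *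
        br (fun m => vf g (lt u) id (dl d (dl b m)))| := by
    intro h
    have h1 := ll_one h.1
    dsimp only at h1
    rw [t1 a b hab, t1 c d hcd, t1 a c (by omega), t1 b d (by omega), ← abs_mul, ← abs_mul] at h1
    exact h1
  have w1 : Qt (vf g (lt u) id) a c b d →
      |br (fun m => vf g (lt u) id (dl c (dl a m))) *
        br (fun m => vf g (lt u) id (dl d (dl b m)))| <
      |br (fun m => vf g (lt u) id (dl b (dl a m))) *
        br (fun m => vf g (lt u) id (dl d (dl c m)))| := by
    intro h
    have h1 := ll_one h.1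
    dsimp only at h1
    rw [t1 a b hab, t1 c d hcd, t1 a c (by omega), t1 b d (by omega), ← abs_mul, ← abs_mul] at h1
    exact h1
  have w2' : Qt (vf g (lt u) id) a d b c →
      |br (fun m => vf g (lt u) id (dl d (dl a m))) *
        br (fun m => vf g (lt u) id (dl c (dl b m)))| <
      |br (fun m => vf g (lt u) id (dl b (dl a m))) *
        br (fun m => vf g (lt u) id (dl d (dl c m)))| := by
    intro h
    have h1 := ll_one h.1
    dsimp only at h1
    rw [tt_pair_comm _ d c, t1 a b hab, t1 c d hcd, t1 a d (by omega), t1 b c (by omega),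
      ← abs_mul, ← abs_mul] at h1
    exact h1
  rw [← q0] at w0
  rw [← q1] at w1
  rw [← q2] at w2'
  revert plu zx zy zz nx ny nzz w0 w1 w2'
  generalize br (fun m => vf g (lt u) id (dl b (dl a m))) *
        br (fun m => vf g (lt u) id (dl d (dl c m))) = x
  generalize br (fun m => vf g (lt u) id (dl c (dl a m))) *
        br (fun m => vf g (lt u) id (dl d (dl b m))) = y
  generalize br (fun m => vf g (lt u) id (dl d (dl a m))) *
        br (fun m => vf g (lt u) id (dl c (dl b m))) = z
  intro plu zx zy zz nx ny nzz w0 w1 w2'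
  by_contra hno
  unfold Tr at hno
  push Not at hno
  have hs' : s = 0 ∨ s = 1 := by omega
  rcases e with _ | _ | e <;> rcases hs' with rfl | rfl <;>
    simp only [cOd, List.mem_cons, List.not_mem_nil, or_false, forall_eq_or_imp, forall_eq,
      Nat.add_zero, Nat.sub_zero, Nat.sub_self, lT_pos, lT_neg, not_not, zx, zy, zz,
      not_lt, not_le] at hno
  · obtain ⟨h0, h1, h2, h3⟩ := hno
    have h4 := w0 h0
    rw [abs_of_nonneg h1, abs_of_nonneg h2] at h4
    linarith
  · obtain ⟨h0, h1, h2, h3⟩ := hno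
    have h4 := w0 h0
    rw [abs_of_neg h1, abs_of_neg h2] at h4
    linarith
  · obtain ⟨h0, h1, h2, h3⟩ := hno
    have h4 := w1 h0
    rw [abs_of_neg h1, abs_of_neg h2] at h4
    linarith
  · obtain ⟨h0, h1, h2, h3⟩ := hno
    have h4 := w1 h0
    rw [abs_of_nonneg h1, abs_of_nonneg h2] at h4
    linarith
  · obtain ⟨h0, h1, h2, h3⟩ := hno
    have h4 := w2' h0
    rw [abs_of_neg h1, abs_of_nonneg h3] at h4
    linarith
  · obtain ⟨h0, h1, h2, h3⟩ := hno
    have h4 := w2' h0
    rw [abs_of_nonneg h1, abs_of_neg h3] at h4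
    linarith

end Pool.Agent.MCN
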