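import Pool.Agent.MCN.Stmts

/-!
# MCN: SSG, signs of the Grassmann-Pluecker terms
-/

set_option autoImplicit false

namespace Pool.Agent.MCN

namespace SSG_

variable {K : Type} [Field K] [LinearOrder K] [IsStrictOrderedRing K]

theorem neg_iff {x y : K} (hx : x ≠ 0) (hy : y ≠ 0) : ¬ (0 < x ↔ 0 < y) ↔ x * y < 0 := by
  rcases lt_or_gt_of_ne hx with h1 | h1 <;> rcases lt_or_gt_of_ne hy with h2 | h2
  · have h3 : 0 < x * y := mul_pos_of_neg_of_neg h1 h2
    constructor
    · intro h
      exact absurd ⟨fun h4 => absurd h4 (not_lt.2 h1.le), fun h4 => absurd h4 (not_lt.2 h2.le)⟩ h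
    · intro h
      exact absurd h (not_lt.2 h3.le)
  · have h3 : x * y < 0 := mul_neg_of_neg_of_pos h1 h2
    exact ⟨fun _ => h3, fun _ h => absurd (h.2 h2) (not_lt.2 h1.le)⟩
  · have h3 : x * y < 0 := mul_neg_of_pos_of_neg h1 h2
    exact ⟨fun _ => h3, fun _ h => absurd (h.1 h1) (not_lt.2 h2.le)⟩
  · have h3 : 0 < x * y := mul_pos h1 h2
    constructor
    · intro h
      exact absurd ⟨fun _ => h2, fun _ => h1⟩ h
    · intro h
      exact absurd h (not_lt.2 h3.le)

end SSG_

theorem ssg_proof (h1 : Stmt_Plu) : Stmt_Ssg := by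
  intro K _ _ _ g hg s u a b c d hs hu hab hbc hcd hd
  have plu := h1 K (vf g (lt u) id) a b c d hab hbc hcd hd
  -- the atoms
  have key : ∀ x y z w : ℕ, x < y → y < 7 → z < w → w < 7 →
      (rho g (zA (w2 u x y) (w2 u z w)) ↔
        br (fun j => vf g (lt u) id (dl y (dl x j))) *
          br (fun j => vf g (lt u) id (dl w (dl z j))) < 0) := by
    intro x y z w hxy hy hzw hw
    have gen : ∀ x y : ℕ, br (fun j => vf g (lt u) id (dl y (dl x j))) ≠ 0 := by
      intro x y
      exact hg.gen (fun j => lt u (dl y (dl x j))) (fun j => dl y (dl x j))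
        ((dl_strictMono y).comp (dl_strictMono x))
    rw [rho_zA g (w2_lt hu hxy hy) (w2_lt hu hzw hw), ← sign_w2 g hg.hs id strictMono_id u x y,
      ← sign_w2 g hg.hs id strictMono_id u z w]
    exact SSG_.neg_iff (gen x y) (gen z w)
  have k1 := key a b c d hab (by omega) hcd hd
  have k2 := key a c b d (by omega) (by omega) (by omega) hd
  have k3 := key a d b c (by omega) hd hbc (by omega)
  have gen : ∀ x y : ℕ, br (fun j => vf g (lt u) id (dl y (dl x j))) ≠ 0 := by
    intro x y
    exact hg.gen (fun j => lt u (dl y (dl x j))) (fun j => dl y (dl x j))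
      ((dl_strictMono y).comp (dl_strictMono x))
  have n1 := mul_ne_zero (gen a b) (gen c d)
  have n2 := mul_ne_zero (gen a c) (gen b d)
  have n3 := mul_ne_zero (gen a d) (gen b c)
  set T1 := br (fun j => vf g (lt u) id (dl b (dl a j))) *
    br (fun j => vf g (lt u) id (dl d (dl c j))) with hT1
  set T2 := br (fun j => vf g (lt u) id (dl c (dl a j))) *
    br (fun j => vf g (lt u) id (dl d (dl b j))) with hT2
  set T3 := br (fun j => vf g (lt u) id (dl d (dl a j))) *
    br (fun j => vf g (lt u) id (dl c (dl b j))) with hT3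
  by_contra hcon
  unfold Tr cSg at hcon
  push Not at hcon
  have c1 := hcon (2 * zA (w2 u a b) (w2 u c d) + s) (by simp)
  have c2 := hcon (2 * zA (w2 u a c) (w2 u b d) + (1 - s)) (by simp)
  have c3 := hcon (2 * zA (w2 u a d) (w2 u b c) + s) (by simp)
  have hs' : s = 0 ∨ s = 1 := by omega
  rcases hs' with rfl | rfl
  · rw [Nat.add_zero, lT_pos, k1, not_lt] at c1
    rw [Nat.sub_zero, lT_neg, k2, not_not] at c2
    rw [Nat.add_zero, lT_pos, k3, not_lt] at c3
    have p1 := lt_of_le_of_ne c1 (Ne.symm n1)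
    linarith
  · rw [lT_neg, k1, not_not] at c1
    rw [Nat.sub_self, Nat.add_zero, lT_pos, k2, not_lt] at c2
    rw [lT_neg, k3, not_not] at c3
    linarith

end Pool.Agent.MCN
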