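import Pool.Agent.MCN.Stmts

/-! The clauses of the reduced words -/

set_option autoImplicit false

namespace Pool.Agent.MCN

theorem swd_proof : Stmt_Swd := by
  intro K _ _ _ g hg s c i hs hc hi
  have h := hg.wrd c hc id strictMono_id i hi
  have e1 := sign_dl g hg.hs id strictMono_id c i
  have e2 := sign_dl g hg.hs id strictMono_id c (i + 1)
  have r1 := rho_xA g (dw c i)
  have r2 := rho_xA g (dw c (i + 1))
  rw [← r1] at e1
  rw [← r2] at e2
  have key : rho g (xA (dw c i)) ↔ ¬ rho g (xA (dw c (i + 1))) := by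
    rw [← e1, ← e2]
    rcases mul_neg_iff.1 h with ⟨h1, h2⟩ | ⟨h1, h2⟩
    · exact ⟨fun _ => not_lt.2 h2.le, fun _ => h1⟩
    · exact ⟨fun h3 => absurd h3 (not_lt.2 h1.le), fun h3 => absurd h2 h3⟩
  have hs' : s = 0 ∨ s = 1 := by omega
  unfold Tr cWd
  rcases hs' with rfl | rfl
  · simp only [Nat.add_zero, List.mem_cons, List.not_mem_nil, or_false, exists_eq_or_imp,
      exists_eq_left, lT_pos]
    tauto
  · simp only [List.mem_cons, List.not_mem_nil, or_false, exists_eq_or_imp,
      exists_eq_left, lT_neg]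
    tauto

end Pool.Agent.MCN
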