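import Pool.Agent.MCN.Stmts

/-! The xor clauses -/

set_option autoImplicit false

namespace Pool.Agent.MCN

theorem sxr_proof : Stmt_Sxr := by
  intro K _ _ _ g k a b hab hb
  have hz := rho_zA g (lt_trans hab hb) hb
  have ha := rho_xA g a
  have hb' := rho_xA g b
  rw [← ha, ← hb'] at hz
  unfold Tr cXr
  split <;> simp only [List.mem_cons, List.not_mem_nil, or_false, exists_eq_or_imp, exists_eq_left,
    lT_pos, lT_neg] <;> tauto

end Pool.Agent.MCN
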