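import Pool.Agent.MCN.Stmts

/-! Module TRE: trees on five leaves (abstract inequalities) -/

set_option autoImplicit false

namespace Pool.Agent.MCN

namespace TRE_

variable {K : Type} [Field K] [LinearOrder K] [IsStrictOrderedRing K]

theorem aux1 {ab ac ad bc bd be cd ce de : K} (hab : 0 < ab) (hbc : 0 < bc)
    (hbd : 0 < bd) (hbe : 0 < be)
    (h1 : ll (ab * cd) (ac * bd)) (h2 : ll (ab * cd) (ad * bc)) (h3 : ll (ab * ce) (ac * be))
    (r1 : bc * de ≤ bd * ce + be * cd) (r2 : ac * bd ≤ ab * cd + ad * bc) :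
    ll (ab * de) (ad * be) := by
  intro n
  have k1 := h1 (4 * n)
  have k2 := h2 1
  have k3 := h3 (4 * n)
  push_cast at k1 k2 k3
  have hn : (0 : K) ≤ n := Nat.cast_nonneg n
  have e1 : 4 * (n : K) * ab * (bc * de) ≤ 4 * (n : K) * ab * (bd * ce + be * cd) :=
    mul_le_mul_of_nonneg_left r1 (by positivity)
  have e2 : be * (4 * (n : K) * (ab * cd)) < be * (ac * bd) := mul_lt_mul_of_pos_left k1 hbe
  have e3 : bd * (4 * (n : K) * (ab * ce)) < bd * (ac * be) := mul_lt_mul_of_pos_left k3 hbd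
  have e4 : ac * bd ≤ 2 * (ad * bc) := by linarith
  have e5 : be * (ac * bd) ≤ be * (2 * (ad * bc)) := mul_le_mul_of_nonneg_left e4 hbe.le
  have e6 : bc * (4 * ((n : K) * (ab * de))) < bc * (4 * (ad * be)) := by
    calc bc * (4 * ((n : K) * (ab * de))) = 4 * (n : K) * ab * (bc * de) := by ring
      _ ≤ 4 * (n : K) * ab * (bd * ce + be * cd) := e1
      _ = bd * (4 * (n : K) * (ab * ce)) + be * (4 * (n : K) * (ab * cd)) := by ring
      _ < bd * (ac * be) + be * (ac * bd) := add_lt_add e3 e2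
      _ = 2 * (be * (ac * bd)) := by ring
      _ ≤ 2 * (be * (2 * (ad * bc))) := mul_le_mul_of_nonneg_left e5 (by norm_num)
      _ = bc * (4 * (ad * be)) := by ring
  have e7 := lt_of_mul_lt_mul_left e6 hbc.le
  exact lt_of_mul_lt_mul_left e7 (by norm_num)

theorem aux2 {ab ac ad ae bc cd ce de : K} (hbc : 0 < bc)
    (hcd : 0 < cd) (hce : 0 < ce) (n : ℕ)
    (h1 : ll (ab * cd) (ad * bc)) (h2 : ae * bc ≤ (n + 1 : K) * (ab * ce))
    (r1 : ad * ce ≤ ac * de + ae * cd) :
    ll (ae * cd) (ac * de) ∧ ll (ae * cd) (ad * ce) := by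
  have key : ll (ae * cd) (ad * ce) := by
    intro m
    have k1 := h1 (m * (n + 1))
    push_cast at k1
    have hn : (0 : K) ≤ n := Nat.cast_nonneg n
    have hm : (0 : K) ≤ m := Nat.cast_nonneg m
    have hn1 : (0 : K) < n + 1 := by positivity
    have e1 : (m : K) * cd * (ae * bc) ≤ (m : K) * cd * ((n + 1 : K) * (ab * ce)) :=
      mul_le_mul_of_nonneg_left h2 (by positivity)
    have e2 : ce * ((m : K) * (n + 1) * (ab * cd)) < ce * (ad * bc) :=
      mul_lt_mul_of_pos_left k1 hce
    have e3 : bc * ((m : K) * (ae * cd)) < bc * (ad * ce) := by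
      calc bc * ((m : K) * (ae * cd)) = (m : K) * cd * (ae * bc) := by ring
        _ ≤ (m : K) * cd * ((n + 1 : K) * (ab * ce)) := e1
        _ = ce * ((m : K) * (n + 1) * (ab * cd)) := by ring
        _ < ce * (ad * bc) := e2
        _ = bc * (ad * ce) := by ring
    exact lt_of_mul_lt_mul_left e3 hbc.le
  refine ⟨?_, key⟩
  intro m
  have k1 := key (2 * m)
  have k2 := key 2
  push_cast at k1 k2
  nlinarith [k1, k2, r1]

end TRE_

open TRE_

theorem tre_proof : Stmt_Tre := by
  intro K _ _ _ D Y hs hp hr a ha b hb c hc d hd e he hab hac had hae hbc hbd hbe hcd hce hde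
  have pab := hp a ha b hb hab
  have pbc := hp b hb c hc hbc
  have pbd := hp b hb d hd hbd
  have pbe := hp b hb e he hbe
  have pcd := hp c hc d hd hcd
  have pce := hp c hc e he hce
  have r1 := hr b hb c hc d hd e he hbc hbd hbe hcd hce hde
  have r2 := hr a ha c hc b hb d hd hac hab had hbc.symm hcd hbd
  have r3 := hr a ha c hc b hb e he hac hab hae hbc.symm hce hbe
  have r4 := hr a ha d hd c hc e he had hac hae hcd.symm hde hce
  have r5 := hr a ha e he b hb c hc hae hab hac hbe.symm hce.symm hbc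
  rw [hs c b] at r2 r3
  rw [hs d c] at r4
  rw [hs e c, hs e b] at r5
  constructor
  · rintro ⟨s1, s2⟩ ⟨s3, s4⟩
    refine ⟨aux1 pab pbc pbd pbe s1 s2 s3 r1 r2, ?_⟩
    have r1' : D b c * D d e ≤ D b e * D c d + D b d * D c e := by linarith
    have := aux1 (ab := D a b) (ac := D a c) (ad := D a e) (bc := D b c) (bd := D b e)
      (be := D b d) (cd := D c e) (ce := D c d) (de := D d e) pab pbc pbe pbd s3 s4 s1 r1' r3
    exact this
  · rintro ⟨s1, s2⟩
    by_cases h : Sp D a b c e
    · exact Or.inl h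
    · right
      have hex : ∃ n : ℕ, D a e * D b c ≤ (n + 1 : K) * (D a b * D c e) := by
        unfold Sp ll at h
        rw [not_and_or] at h
        push Not at h
        have ppos : 0 < D a b * D c e := mul_pos pab pce
        rcases h with ⟨n, hn⟩ | ⟨n, hn⟩
        · refine ⟨n, ?_⟩
          linarith
        · refine ⟨n, ?_⟩
          linarith
      obtain ⟨n, hn⟩ := hex
      have := aux2 (ab := D a b) (ac := D a c) (ad := D a d) (ae := D a e) (bc := D b c)
        (cd := D c d) (ce := D c e) (de := D d e) pbc pcd pce n s2 hn r4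
      refine ⟨?_, ?_⟩
      · rw [hs e d]; exact this.1
      · rw [hs e c]; exact this.2

end Pool.Agent.MCN
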