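import Pool.Agent.MCN.Stmts

/-! Properties of `tt` -/

set_option autoImplicit false

namespace Pool.Agent.MCN

namespace TTPB_

variable {K : Type} [Field K] [LinearOrder K] [IsStrictOrderedRing K]

/-- the three triangle inequalities -/
def G (T : ℕ → ℕ → K) (a b c d : ℕ) : Prop :=
  T a b * T c d ≤ T a c * T b d + T a d * T b c ∧
  T a c * T b d ≤ T a b * T c d + T a d * T b c ∧
  T a d * T b c ≤ T a b * T c d + T a c * T b d

theorem G12 {T : ℕ → ℕ → K} (hT : ∀ i j, T i j = T j i) {a b c d : ℕ} (h : G T a b c d) :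
    G T b a c d := by
  obtain ⟨h1, h2, h3⟩ := h
  unfold G
  rw [hT b a]
  refine ⟨by linarith [h1], by linarith [h3], by linarith [h2]⟩

theorem G34 {T : ℕ → ℕ → K} (hT : ∀ i j, T i j = T j i) {a b c d : ℕ} (h : G T a b c d) :
    G T a b d c := by
  obtain ⟨h1, h2, h3⟩ := h
  unfold G
  rw [hT d c]
  refine ⟨by linarith [h1], by linarith [h3], by linarith [h2]⟩

theorem G23 {T : ℕ → ℕ → K} (hT : ∀ i j, T i j = T j i) {a b c d : ℕ} (h : G T a b c d) :
    G T a c b d := by
  obtain ⟨h1, h2, h3⟩ := h
  unfold G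
  rw [hT c b]
  refine ⟨by linarith [h2], by linarith [h1], by linarith [h3]⟩

theorem all {T : ℕ → ℕ → K} (hT : ∀ i j, T i j = T j i)
    (h0 : ∀ a b c d, a < b → b < c → c < d → d < 7 → G T a b c d) :
    ∀ a b c d : ℕ, a < 7 → b < 7 → c < 7 → d < 7 → a ≠ b → a ≠ c → a ≠ d → b ≠ c → b ≠ d →
      c ≠ d → G T a b c d := by
  have s1 : ∀ a b c d : ℕ, a < b → b < c → c < 7 → d < 7 → a ≠ d → b ≠ d → c ≠ d →
      G T a b c d := by
    intro a b c d hab hbc hc hd h1 h2 h3
    rcases lt_or_gt_of_ne h3 with h | h
    · exact h0 a b c d hab hbc h hd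
    · apply G34 hT
      rcases lt_or_gt_of_ne h2 with h' | h'
      · exact h0 a b d c hab h' h hc
      · apply G23 hT
        rcases lt_or_gt_of_ne h1 with h'' | h''
        · exact h0 a d b c h'' h' hbc hc
        · apply G12 hT
          exact h0 d a b c h'' hab hbc hc
  have s2 : ∀ a b c d : ℕ, a < b → b < 7 → c < 7 → d < 7 → a ≠ c → a ≠ d → b ≠ c → b ≠ d →
      c ≠ d → G T a b c d := by
    intro a b c d hab hb hc hd h1 h2 h3 h4 h5
    rcases lt_or_gt_of_ne h3 with h | h
    · exact s1 a b c d hab h hc hd h2 h4 h5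
    · apply G23 hT
      rcases lt_or_gt_of_ne h1 with h' | h'
      · exact s1 a c b d h' h hb hd h2 h5 h4
      · apply G12 hT
        exact s1 c a b d h' hab hb hd h5 h2 h4
  intro a b c d ha hb hc hd h1 h2 h3 h4 h5 h6
  rcases lt_or_gt_of_ne h1 with h | h
  · exact s2 a b c d h hb hc hd h2 h3 h4 h5 h6
  · apply G12 hT
    exact s2 b a c d h ha hc hd h4 h5 h2 h3 h6

end TTPB_

open TTPB_

theorem ttpb_proof (hP : Stmt_Plu) (hN : Stmt_Nth) : Stmt_Ttp := by
  intro K _ _ _ q
  have c1 : ∀ a b : ℕ, a < b → tt q {a, b} = |br (fun j => q (dl b (dl a j)))| := by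
    intro a b hab
    unfold tt
    congr 2
    funext j
    rw [hN.2 a b j hab]
  refine ⟨c1, ?_, ?_⟩
  · intro e a b
    have h := hN.1 {a, b} e
    have himg : insert e (Finset.image (dl e) {a, b}) = ({e, dl e a, dl e b} : Finset ℕ) := by
      rw [Finset.image_insert, Finset.image_singleton]
    rw [himg] at h
    unfold tt
    congr 2
    funext j
    rw [h j]
  · intro hne
    have hsym : ∀ i j : ℕ, tt q {i, j} = tt q {j, i} := tt_pair_comm q
    constructor
    · intro a b ha hb hab
      rcases lt_or_gt_of_ne hab with h | h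
      · rw [c1 a b h]
        exact abs_pos.2 (hne a b h hb)
      · rw [hsym a b, c1 b a h]
        exact abs_pos.2 (hne b a h ha)
    · have hall := all (T := fun i j => tt q {i, j}) hsym (by
        intro a b c d hab hbc hcd hd
        have hr := hP K q a b c d hab hbc hcd hd
        unfold G
        simp only []
        rw [c1 a b hab, c1 c d hcd, c1 a c (by omega), c1 b d (by omega), c1 a d (by omega),
          c1 b c hbc, ← abs_mul, ← abs_mul, ← abs_mul]
        generalize br (fun j => q (dl b (dl a j))) * br (fun j => q (dl d (dl c j))) = P at hr ⊢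
        generalize br (fun j => q (dl c (dl a j))) * br (fun j => q (dl d (dl b j))) = Q at hr ⊢
        generalize br (fun j => q (dl d (dl a j))) * br (fun j => q (dl c (dl b j))) = R at hr ⊢
        refine ⟨?_, ?_, ?_⟩
        · have : P = Q + -R := by linear_combination hr
          rw [this]
          calc |Q + -R| ≤ |Q| + |-R| := abs_add_le _ _
            _ = |Q| + |R| := by rw [abs_neg]
        · have : Q = P + R := by linear_combination -hr
          rw [this]
          exact abs_add_le _ _
        · have : R = Q + -P := by linear_combination hr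
          rw [this]
          calc |Q + -P| ≤ |Q| + |-P| := abs_add_le _ _
            _ = |P| + |Q| := by rw [abs_neg, add_comm])
      intro a b c d ha hb hc hd h1 h2 h3 h4 h5 h6
      exact (hall a b c d ha hb hc hd h1 h2 h3 h4 h5 h6).1

end Pool.Agent.MCN
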