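import Pool.Agent.MCN.GAL
import Pool.Agent.MCN.COX
import Pool.Agent.MCN.GRB
import Pool.Agent.MCN.S8
import Pool.Agent.MCN.PLU
import Pool.Agent.MCN.NSC
import Pool.Agent.MCN.PER
import Pool.Agent.MCN.FRZ
import Pool.Agent.MCN.TTPB
import Pool.Agent.MCN.TRE
import Pool.Agent.MCN.SOD
import Pool.Agent.MCN.HOB
import Pool.Agent.MCN.RAM
import Pool.Agent.MCN.GRA
import Pool.Agent.MCN.HOA
import Pool.Agent.MCN.SSG
import Pool.Agent.MCN.KON
import Pool.Agent.MCN.SGN
import Pool.Agent.MCN.LIS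
import Pool.Agent.MCN.LEX
import Pool.Agent.MCN.NTH
import Pool.Agent.MCN.S7
import Pool.Agent.MCN.GER
import Pool.Agent.MCN.SWD
import Pool.Agent.MCN.SXR
import Pool.Agent.MCN.SEX
import Pool.Agent.MCN.SNS
import Pool.Agent.MCN.CHP
import Pool.Agent.MCN.Axs
import Pool.Agent.MCN.Dat

/-! The final theorem -/

set_option autoImplicit false

namespace Pool.Agent.MCN

theorem not_Fz : ¬ Fz := by
  have hN : Stmt_Nth := nth_proof
  have hP : Stmt_Plu := plu_proof
  have hT : Stmt_Ttp := ttpb_proof hP hN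
  have hR : Stmt_Ram := ram_proof
  have hG : Stmt_Ger := ger_proof
  exact fin_proof
    (frz_proof cox_proof lis_proof lex_proof gal_proof sgn_proof) per_proof (kon_proof hG)
    (hoa_proof hR) (grb_proof gra_proof hP hN) (nsc_proof hG hT) (hob_proof hR) chk_proof
    swd_proof sxr_proof (ssg_proof hP) (sod_proof hP hT) sex_proof sns_proof
    (s7_proof tre_proof hT) (s8_proof tre_proof hT) dat run_dat

end Pool.Agent.MCN
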