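import Pool.Agent.MCN.Stmts

/-!
# MCN module GAL: affine Gale duality
-/

set_option autoImplicit false

namespace Pool.Agent.MCN

namespace GAL_

/-- the slack of the inequality `y v ≤ b` at the point number `p` -/
def sl {d : ℕ} (v : ℕ → Fin d → ℝ) (y : Fin d → ℝ) (b : ℝ) (p : ℕ) : ℝ := b - ∑ j, y j * v p j

theorem sl_add {d : ℕ} (v : ℕ → Fin d → ℝ) (y y' : Fin d → ℝ) (b b' t : ℝ) (p : ℕ) :
    sl v (y' + t • y) (b' + t * b) p = sl v y' b' p + t * sl v y b p := by
  unfold sl
  have : ∑ j, (y' + t • y) j * v p j = ∑ j, y' j * v p j + t * ∑ j, y j * v p j := by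
    rw [Finset.mul_sum, ← Finset.sum_add_distrib]
    refine Finset.sum_congr rfl fun j _ => ?_
    simp only [Pi.add_apply, Pi.smul_apply, smul_eq_mul]
    ring
  rw [this]
  ring

/-- the linear map from inequalities to slacks on `T` -/
def Lam {d : ℕ} (T : Finset ℕ) (v : ℕ → Fin d → ℝ) : ((Fin d → ℝ) × ℝ) →ₗ[ℝ] (T → ℝ) where
  toFun u := fun p => sl v u.1 u.2 p
  map_add' u u' := by
    funext p
    have h := sl_add v u'.1 u.1 u'.2 u.2 1 p
    simp only [one_smul, one_mul] at h
    simpa using h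
  map_smul' a u := by
    funext p
    have h := sl_add v u.1 0 u.2 0 a p
    have h0 : sl v 0 0 (p : ℕ) = 0 := by simp [sl]
    rw [h0, zero_add, zero_add, zero_add] at h
    simpa using h

end GAL_

open GAL_ in
theorem gal_proof : Stmt_Gal := by
  intro T P d v hex H
  classical
  -- faces
  have face : ∀ R F : Finset ℕ, R ⊆ T → R.card = 6 → P R → F ⊆ T → Disjoint R F →
      ∃ (y : Fin d → ℝ) (b : ℝ), (∀ p ∈ T, 0 ≤ sl v y b p) ∧ ∀ p ∈ T, (p ∈ F ↔ sl v y b p = 0) := by
    intro R F hR hc hP hF hd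
    obtain ⟨-, -, y, b, h1, h2⟩ := (H F).1 ⟨hF, R, hR, hd, hc, hP⟩
    refine ⟨y, b, fun p hp => sub_nonneg.2 (h1 p hp), fun p hp => ?_⟩
    rw [h2 p hp]
    unfold sl
    rw [sub_eq_zero, eq_comm]
  -- uniqueness
  have key : ∀ R : Finset ℕ, R ⊆ T → R.card = 6 → P R → ∀ (y : Fin d → ℝ) (b : ℝ),
      (∀ p ∈ T, 0 ≤ sl v y b p) → (∀ p ∈ T, (p ∈ T \ R ↔ sl v y b p = 0)) →
      ∀ (y' : Fin d → ℝ) (b' : ℝ), (∀ p ∈ T, p ∉ R → sl v y' b' p = 0) →
      ∃ c : ℝ, ∀ p ∈ R, sl v y' b' p = c * sl v y b p := by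
    intro R hR hc hP y b hx hx0 y' b' hf
    have hne : R.Nonempty := Finset.card_pos.1 (by omega)
    have hxpos : ∀ p ∈ R, 0 < sl v y b p := by
      intro p hp
      refine lt_of_le_of_ne (hx p (hR hp)) fun h => ?_
      have := (hx0 p (hR hp)).2 h.symm
      exact (Finset.mem_sdiff.1 this).2 hp
    obtain ⟨p0, hp0, hmax⟩ := R.exists_max_image (fun p => -sl v y' b' p / sl v y b p) hne
    set t : ℝ := -sl v y' b' p0 / sl v y b p0 with ht
    have h0 : sl v y' b' p0 + t * sl v y b p0 = 0 := by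
      rw [ht, div_mul_cancel₀ _ (hxpos p0 hp0).ne']
      ring
    have hge : ∀ p ∈ R, 0 ≤ sl v y' b' p + t * sl v y b p := by
      intro p hp
      have h1 := hmax p hp
      rw [div_le_iff₀ (hxpos p hp)] at h1
      linarith
    refine ⟨-t, fun p1 hp1 => ?_⟩
    by_contra hne1
    have hne2 : sl v y' b' p1 + t * sl v y b p1 ≠ 0 := by
      intro h
      apply hne1
      linarith
    set F' : Finset ℕ := T.filter fun p => sl v y' b' p + t * sl v y b p = 0 with hF'
    have hout : ∀ p ∈ T, p ∉ R → sl v y' b' p + t * sl v y b p = 0 := by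
      intro p hp hpR
      rw [hf p hp hpR, (hx0 p hp).1 (Finset.mem_sdiff.2 ⟨hp, hpR⟩)]
      ring
    have hsum : ∀ p, sl v (y' + t • y) (b' + t * b) p = sl v y' b' p + t * sl v y b p :=
      fun p => sl_add v y y' b b' t p
    obtain ⟨-, R', hR', hdis, hc', hP'⟩ := (H F').2 ⟨Finset.filter_subset _ _, by
        intro h
        have : p1 ∈ F' := h ▸ hR hp1
        exact hne2 (Finset.mem_filter.1 this).2, y' + t • y, b' + t * b, by
        intro p hp
        have h1 : 0 ≤ sl v (y' + t • y) (b' + t * b) p := by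
          rw [hsum]
          by_cases hpR : p ∈ R
          · exact hge p hpR
          · exact (hout p hp hpR).ge
        exact sub_nonneg.1 h1, by
        intro p hp
        rw [hF', Finset.mem_filter, ← hsum]
        unfold sl
        rw [sub_eq_zero, eq_comm]
        exact ⟨fun h => h.2, fun h => ⟨hp, h⟩⟩⟩
    have hsub : R' ⊆ R.erase p0 := by
      intro p hp
      have hpF : p ∉ F' := Finset.disjoint_left.1 hdis hp
      have hpT := hR' hp
      rw [Finset.mem_erase]
      refine ⟨fun h => hpF ?_, ?_⟩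
      · rw [h]
        exact Finset.mem_filter.2 ⟨hR hp0, h0⟩
      · by_contra hpR
        exact hpF (Finset.mem_filter.2 ⟨hpT, hout p hpT hpR⟩)
    have h9 := Finset.card_le_card hsub
    rw [Finset.card_erase_of_mem hp0, hc, hc'] at h9
    omega
  -- the quotient
  set W : Submodule ℝ (T → ℝ) := LinearMap.range (Lam T v) with hW
  have memW : ∀ f : T → ℝ, f ∈ W ↔ ∃ (y : Fin d → ℝ) (b : ℝ), ∀ p : T, f p = sl v y b p := by
    intro f
    rw [hW, LinearMap.mem_range]
    constructor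
    · rintro ⟨u, rfl⟩
      exact ⟨u.1, u.2, fun p => rfl⟩
    · rintro ⟨y, b, h⟩
      exact ⟨(y, b), funext fun p => (h p).symm⟩
  have hdim : Module.finrank ℝ ((T → ℝ) ⧸ W) = 5 := by
    obtain ⟨R, hR, hc, hP⟩ := hex
    obtain ⟨y, b, hx, hx0⟩ := face R (T \ R) hR hc hP Finset.sdiff_subset Finset.disjoint_sdiff
    let ext : (R → ℝ) →ₗ[ℝ] (T → ℝ) :=
      { toFun := fun h p => if hp : (p : ℕ) ∈ R then h ⟨p, hp⟩ else 0
        map_add' := by
          intro h h'
          funext p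
          by_cases hp : (p : ℕ) ∈ R <;> simp [hp]
        map_smul' := by
          intro a h
          funext p
          by_cases hp : (p : ℕ) ∈ R <;> simp [hp] }
    have ext_pos : ∀ (h : R → ℝ) (p : T) (hp : (p : ℕ) ∈ R), ext h p = h ⟨p, hp⟩ :=
      fun h p hp => dif_pos hp
    have ext_neg : ∀ (h : R → ℝ) (p : T) (_ : (p : ℕ) ∉ R), ext h p = 0 :=
      fun h p hp => dif_neg hp
    let ψ : (R → ℝ) →ₗ[ℝ] ((T → ℝ) ⧸ W) := W.mkQ ∘ₗ ext
    have hsurj : LinearMap.range ψ = ⊤ := by
      rw [LinearMap.range_eq_top]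
      intro u
      obtain ⟨f, rfl⟩ := W.mkQ_surjective u
      -- the functions `f_i`
      have hfi : ∀ i : T, (i : ℕ) ∉ R → ∃ (yi : Fin d → ℝ) (bi : ℝ), sl v yi bi i ≠ 0 ∧
          ∀ p ∈ T, p ∉ R → p ≠ i → sl v yi bi p = 0 := by
        intro i hi
        obtain ⟨yi, bi, h1, h2⟩ := face R ((T \ R).erase i) hR hc hP
          ((Finset.erase_subset _ _).trans Finset.sdiff_subset)
          (Finset.disjoint_sdiff.mono_right (Finset.erase_subset _ _))
        refine ⟨yi, bi, fun h => ?_, fun p hp hpR hpi => ?_⟩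
        · have := (h2 i i.2).2 h
          exact (Finset.mem_erase.1 this).1 rfl
        · exact (h2 p hp).1 (Finset.mem_erase.2 ⟨hpi, Finset.mem_sdiff.2 ⟨hp, hpR⟩⟩)
      choose! yi bi h1 h2 using hfi
      let w : T → ℝ := fun p => ∑ i : T, if (i : ℕ) ∈ R then 0 else
        f i / sl v (yi i) (bi i) i * sl v (yi i) (bi i) p
      have hw : w ∈ W := by
        have e : w = ∑ i : T, if (i : ℕ) ∈ R then (0 : T → ℝ) else
            (f i / sl v (yi i) (bi i) i) • (fun p : T => sl v (yi i) (bi i) p) := by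
          funext p
          rw [Finset.sum_apply]
          refine Finset.sum_congr rfl fun i _ => ?_
          by_cases hi : (i : ℕ) ∈ R
          · rw [if_pos hi, if_pos hi]; rfl
          · rw [if_neg hi, if_neg hi]; rfl
        rw [e]
        refine Submodule.sum_mem _ fun i _ => ?_
        by_cases hi : (i : ℕ) ∈ R
        · rw [if_pos hi]; exact W.zero_mem
        · rw [if_neg hi]
          exact W.smul_mem _ ((memW _).2 ⟨yi i, bi i, fun p => rfl⟩)
      have hwf : ∀ p : T, (p : ℕ) ∉ R → w p = f p := by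
        intro p hp
        show (∑ i : T, if (i : ℕ) ∈ R then 0 else
          f i / sl v (yi i) (bi i) i * sl v (yi i) (bi i) p) = f p
        rw [Finset.sum_eq_single p]
        · rw [if_neg hp, div_mul_cancel₀ _ (h1 p hp)]
        · intro i _ hip
          by_cases hi : (i : ℕ) ∈ R
          · rw [if_pos hi]
          · rw [if_neg hi, h2 i hi p p.2 hp (fun h => hip (Subtype.ext h.symm)), mul_zero]
        · intro h
          exact absurd (Finset.mem_univ p) h
      refine ⟨fun p => f ⟨p, hR p.2⟩ - w ⟨p, hR p.2⟩, ?_⟩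
      show W.mkQ (ext _) = W.mkQ f
      rw [← sub_eq_zero, ← map_sub, Submodule.mkQ_apply, Submodule.Quotient.mk_eq_zero]
      have e : ext (fun p => f ⟨p, hR p.2⟩ - w ⟨p, hR p.2⟩) - f = -w := by
        funext p
        rw [Pi.sub_apply, Pi.neg_apply]
        by_cases hp : (p : ℕ) ∈ R
        · rw [ext_pos _ p hp]
          ring
        · rw [ext_neg _ p hp, hwf p hp]
          ring
      rw [e]
      exact W.neg_mem hw
    have hker : LinearMap.ker ψ = Submodule.span ℝ {fun p : R => sl v y b p} := by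
      ext h
      rw [LinearMap.mem_ker, Submodule.mem_span_singleton]
      have e0 : ψ h = 0 ↔ ext h ∈ W := by
        show W.mkQ (ext h) = 0 ↔ ext h ∈ W
        rw [Submodule.mkQ_apply, Submodule.Quotient.mk_eq_zero]
      rw [e0, memW]
      constructor
      · rintro ⟨y', b', h1⟩
        obtain ⟨c, hcc⟩ := key R hR hc hP y b hx hx0 y' b' (by
          intro p hp hpR
          rw [← h1 ⟨p, hp⟩, ext_neg _ _ hpR])
        refine ⟨c, funext fun p => ?_⟩
        have h2 := h1 ⟨p, hR p.2⟩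
        rw [ext_pos _ _ p.2] at h2
        have h3 := hcc p p.2
        rw [Pi.smul_apply, smul_eq_mul, ← h3]
        exact h2.symm
      · rintro ⟨c, rfl⟩
        refine ⟨c • y, c * b, fun p => ?_⟩
        have h3 := sl_add v y 0 b 0 c p
        have h4 : sl v 0 0 (p : ℕ) = 0 := by simp [sl]
        rw [h4, zero_add, zero_add, zero_add] at h3
        rw [h3]
        by_cases hp : (p : ℕ) ∈ R
        · rw [ext_pos _ p hp]; rfl
        · rw [ext_neg _ p hp, (hx0 p p.2).1 (Finset.mem_sdiff.2 ⟨p.2, hp⟩), mul_zero]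
    have h5 := LinearMap.finrank_range_add_finrank_ker ψ
    have hx1 : (fun p : R => sl v y b p) ≠ 0 := by
      intro h
      obtain ⟨p, hp⟩ := Finset.card_pos.1 (by omega : 0 < R.card)
      have h1 := congrFun h ⟨p, hp⟩
      have h2 := (hx0 p (hR hp)).2 h1
      exact (Finset.mem_sdiff.1 h2).2 hp
    rw [hsurj, hker, finrank_top, finrank_span_singleton hx1, Module.finrank_fintype_fun_eq_card,
      Fintype.card_coe, hc] at h5
    omega
  have e : ((T → ℝ) ⧸ W) ≃ₗ[ℝ] (Fin 5 → ℝ) :=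
    LinearEquiv.ofFinrankEq _ _ (by rw [hdim]; simp)
  refine ⟨fun p => e (W.mkQ fun q : T => if p = (q : ℕ) then 1 else 0), ?_⟩
  intro R hR hc hP
  obtain ⟨y, b, hx, hx0⟩ := face R (T \ R) hR hc hP Finset.sdiff_subset Finset.disjoint_sdiff
  have hrel : ∀ z : ℕ → ℝ, ∑ p ∈ R, z p • e (W.mkQ fun q : T => if p = (q : ℕ) then 1 else 0) = 0 ↔
      (fun q : T => if (q : ℕ) ∈ R then z q else 0) ∈ W := by
    intro z
    have e1 : ∑ p ∈ R, z p • e (W.mkQ fun q : T => if p = (q : ℕ) then (1 : ℝ) else 0) =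
        e (W.mkQ fun q : T => if (q : ℕ) ∈ R then z q else 0) := by
      have e2 : (fun q : T => if (q : ℕ) ∈ R then z q else 0) =
          ∑ p ∈ R, z p • (fun q : T => if p = (q : ℕ) then (1 : ℝ) else 0) := by
        funext q
        rw [Finset.sum_apply]
        simp only [Pi.smul_apply, smul_eq_mul, mul_ite, mul_one, mul_zero]
        rw [Finset.sum_ite_eq']
      rw [e2, map_sum, map_sum]
      refine Finset.sum_congr rfl fun p _ => ?_
      rw [map_smul, map_smul]
    rw [e1, LinearEquiv.map_eq_zero_iff, Submodule.mkQ_apply, Submodule.Quotient.mk_eq_zero]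
  refine ⟨fun p => sl v y b p, ?_, ?_, ?_⟩
  · intro p hp
    refine lt_of_le_of_ne (hx p (hR hp)) fun h => ?_
    have := (hx0 p (hR hp)).2 h.symm
    exact (Finset.mem_sdiff.1 this).2 hp
  · rw [hrel, memW]
    refine ⟨y, b, fun p => ?_⟩
    by_cases hp : (p : ℕ) ∈ R
    · rw [if_pos hp]
    · rw [if_neg hp, (hx0 p p.2).1 (Finset.mem_sdiff.2 ⟨p.2, hp⟩)]
  · intro z hz
    rw [hrel, memW] at hz
    obtain ⟨y', b', h1⟩ := hz
    obtain ⟨c, hcc⟩ := key R hR hc hP y b hx hx0 y' b' (by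
      intro p hp hpR
      rw [← h1 ⟨p, hp⟩, if_neg hpR])
    refine ⟨c, fun p hp => ?_⟩
    rw [← hcc p hp, ← h1 ⟨p, hR hp⟩, if_pos hp]

end Pool.Agent.MCN
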