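import Pool.Agent.MCN.Stmts

/-! The positions of a word as a filtered range -/

set_option autoImplicit false

namespace Pool.Agent.MCN

namespace LIS_

theorem f_mono (c : ℕ) (t : ℕ → ℕ) (ht : StrictMono t) :
    StrictMono (fun j => 3 * t j + (lt c j : ℕ)) := by
  apply strictMono_nat_of_lt_succ
  intro n
  have h1 : t n < t (n + 1) := ht (Nat.lt_succ_self n)
  have h2 : (lt c n : ℕ) < 3 := (lt c n).2
  show 3 * t n + (lt c n : ℕ) < 3 * t (n + 1) + (lt c (n + 1) : ℕ)
  omega

end LIS_

theorem lis_proof : Stmt_Lis := by
  intro a ha c t N ht hN R hR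
  have hf := LIS_.f_mono c t ht
  set f : ℕ → ℕ := fun j => 3 * t j + (lt c j : ℕ) with hfdef
  constructor
  · rw [hR, Finset.card_image_of_injective _ hf.injective, Finset.card_range]
  · have hlist : (List.range N).filter (fun i => decide (i ∈ R)) = (List.range 6).map f := by
      have p1 : ((List.range N).filter (fun i => decide (i ∈ R))).Pairwise (· < ·) :=
        List.pairwise_lt_range.filter _
      have p2 : ((List.range 6).map f).Pairwise (· < ·) := by
        rw [List.pairwise_map]
        exact List.pairwise_lt_range.imp (fun h => hf h)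
      have n1 : ((List.range N).filter (fun i => decide (i ∈ R))).Nodup := p1.imp Nat.ne_of_lt
      have n2 : ((List.range 6).map f).Nodup := p2.imp Nat.ne_of_lt
      have hp : ((List.range N).filter (fun i => decide (i ∈ R))).Perm ((List.range 6).map f) := by
        rw [List.perm_ext_iff_of_nodup n1 n2]
        intro x
        simp only [List.mem_filter, List.mem_range, decide_eq_true_eq, List.mem_map, hR,
          Finset.mem_image, Finset.mem_range]
        constructor
        · rintro ⟨-, j, hj, rfl⟩
          exact ⟨j, hj, rfl⟩
        · rintro ⟨j, hj, rfl⟩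
          refine ⟨?_, j, hj, rfl⟩
          have h1 : f j ≤ f 5 := hf.monotone (by omega)
          have h2 : (lt c 5 : ℕ) < 3 := (lt c 5).2
          have h3 : f 5 = 3 * t 5 + (lt c 5 : ℕ) := rfl
          omega
      exact hp.eq_of_pairwise' p1 p2
    rw [hlist, List.map_map]
    apply List.map_congr_left
    intro j _
    have h1 := ha (f j)
    have h2 : (lt c j : ℕ) < 3 := (lt c j).2
    have h3 : f j = 3 * t j + (lt c j : ℕ) := rfl
    apply Fin.ext
    simp only [Function.comp_apply]
    rw [h1, h3]
    omega

end Pool.Agent.MCN
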