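import Pool.Agent.MCN.Base
import Pool.Agent.MCN.Chk

/-! Statements of the modules of MCN. Recipes: /team-store/MP_b67d73_MCN.md -/

set_option autoImplicit false

namespace Pool.Agent.MCN

/-! ### RAM: infinite Ramsey theorem -/

/-- a colouring which depends only on the first `r` values is constant on an infinite set -/
def Stmt_Ram : Prop := ∀ (r : ℕ) (C : Type) [Finite C] (χ : (ℕ → ℕ) → C),
  (∀ t t' : ℕ → ℕ, (∀ i < r, t i = t' i) → χ t = χ t') →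
  ∃ h : ℕ → ℕ, StrictMono h ∧ ∃ c : C, ∀ t : ℕ → ℕ, StrictMono t → χ (h ∘ t) = c

/-! ### GER: ultrapower as a ring homomorphism -/

def Stmt_Ger : Prop := ∀ (K : Type) [Field K] [LinearOrder K] [IsStrictOrderedRing K],
  ∃ (L : Type) (_ : Field L) (_ : LinearOrder L) (_ : IsStrictOrderedRing L) (φ : (ℕ → K) →+* L),
    ∀ f : ℕ → K, (∃ N, ∀ m, N ≤ m → 0 < f m) → 0 < φ f

/-! ### PLU, NTH, TTP: Grassmann-Pluecker -/

/-- three-term relation in terms of complements -/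
def Stmt_Plu : Prop := ∀ (K : Type) [Field K] (q : ℕ → Fin 5 → K) (a b c d : ℕ),
  a < b → b < c → c < d → d < 7 →
  br (fun j => q (dl b (dl a j))) * br (fun j => q (dl d (dl c j))) -
  br (fun j => q (dl c (dl a j))) * br (fun j => q (dl d (dl b j))) +
  br (fun j => q (dl d (dl a j))) * br (fun j => q (dl c (dl b j))) = 0

def Stmt_Nth : Prop :=
  (∀ (s : Finset ℕ) (e j : ℕ),
    Nat.nth (fun i => i ∉ insert e (s.image (dl e))) j = dl e (Nat.nth (fun i => i ∉ s) j)) ∧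
  (∀ a b j : ℕ, a < b → Nat.nth (fun i => i ∉ ({a, b} : Finset ℕ)) j = dl b (dl a j))

/-- properties of `tt` for seven vectors whose complements of pairs are independent, and for the
deletion of one vector -/
def Stmt_Ttp : Prop := ∀ (K : Type) [Field K] [LinearOrder K] [IsStrictOrderedRing K]
  (q : ℕ → Fin 5 → K),
  (∀ a b : ℕ, a < b → tt q {a, b} = |br (fun j => q (dl b (dl a j)))|) ∧
  (∀ e a b : ℕ, tt (fun j => q (dl e j)) {a, b} = tt q {e, dl e a, dl e b}) ∧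
  ((∀ a b : ℕ, a < b → b < 7 → br (fun j => q (dl b (dl a j))) ≠ 0) →
    (∀ a b : ℕ, a < 7 → b < 7 → a ≠ b → 0 < tt q {a, b}) ∧
    (∀ a b c d : ℕ, a < 7 → b < 7 → c < 7 → d < 7 → a ≠ b → a ≠ c → a ≠ d → b ≠ c → b ≠ d →
      c ≠ d → tt q {a, b} * tt q {c, d} ≤
        tt q {a, c} * tt q {b, d} + tt q {a, d} * tt q {b, c}))

/-! ### TRE: trees on five leaves (abstract) -/

def Stmt_Tre : Prop := ∀ (K : Type) [Field K] [LinearOrder K] [IsStrictOrderedRing K]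
  (D : ℕ → ℕ → K) (Y : Finset ℕ), (∀ i j, D i j = D j i) →
  (∀ i ∈ Y, ∀ j ∈ Y, i ≠ j → 0 < D i j) →
  (∀ i ∈ Y, ∀ j ∈ Y, ∀ k ∈ Y, ∀ l ∈ Y, i ≠ j → i ≠ k → i ≠ l → j ≠ k → j ≠ l → k ≠ l →
    D i j * D k l ≤ D i k * D j l + D i l * D j k) →
  ∀ a ∈ Y, ∀ b ∈ Y, ∀ c ∈ Y, ∀ d ∈ Y, ∀ e ∈ Y, a ≠ b → a ≠ c → a ≠ d → a ≠ e → b ≠ c → b ≠ d →
    b ≠ e → c ≠ d → c ≠ e → d ≠ e →
    (Sp D a b c d → Sp D a b c e → Sp D a b d e) ∧
    (Sp D a b c d → Sp D a b c e ∨ Sp D a e c d)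

/-! ### GRA: growth (abstract) -/

def Stmt_Gra : Prop := ∀ (K : Type) [Field K] [LinearOrder K] [IsStrictOrderedRing K]
  (E : ℕ → ℕ → K) (x0 x3 : ℕ),
  (∀ i j, x0 ≤ i → i < j → j ≤ x3 → 0 < E i j) →
  (∀ i j k l, x0 ≤ i → i < j → j < k → k < l → l ≤ x3 →
    E i k * E j l = E i j * E k l + E i l * E j k) →
  ((∀ i j k l, x0 ≤ i → i < j → j < k → k < l → l ≤ x3 → E i j * E k l ≤ E i l * E j k) →
    ∀ x1 x2 m : ℕ, x0 < x1 → x1 < x2 → x2 < x3 → x1 + m ≤ x2 →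
      (m : K) * (E x0 x1 * E x2 x3) ≤ E x0 x3 * E x1 x2) ∧
  ((∀ i j k l, x0 ≤ i → i < j → j < k → k < l → l ≤ x3 → E i l * E j k ≤ E i j * E k l) →
    ∀ x1 x2 m : ℕ, x0 < x1 → x1 < x2 → x2 < x3 → x2 + m ≤ x3 →
      (m : K) * (E x0 x3 * E x1 x2) ≤ E x0 x1 * E x2 x3)

/-! ### The chain of configurations -/

/-- comparisons for four consecutive positions depend only on the letters -/
def Hc {K : Type} [Field K] [LinearOrder K] (g : Fin 3 → ℕ → Fin 5 → K) : Prop :=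
  ∀ (w : ℕ → Fin 3) (t : ℕ → ℕ), StrictMono t → ∀ p < 4,
    (tt (vf g w t) {p, p + 1} * tt (vf g w t) {p + 2, p + 3} ≤
      tt (vf g w t) {p, p + 3} * tt (vf g w t) {p + 1, p + 2} ↔
    tt (vf g w id) {p, p + 1} * tt (vf g w id) {p + 2, p + 3} ≤
      tt (vf g w id) {p, p + 3} * tt (vf g w id) {p + 1, p + 2})

/-- growth: for large gaps between the times one of the two products is much larger -/
def Gr {K : Type} [Field K] [LinearOrder K] (g : Fin 3 → ℕ → Fin 5 → K) : Prop :=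
  ∀ (w : ℕ → Fin 3), ∀ p < 4, w (p + 1) = w p → w (p + 2) = w p → w (p + 3) = w p →
    (∀ (t : ℕ → ℕ) (m : ℕ), StrictMono t → (∀ i, t i + m ≤ t (i + 1)) →
      (m : K) * (tt (vf g w t) {p, p + 1} * tt (vf g w t) {p + 2, p + 3}) ≤
        tt (vf g w t) {p, p + 3} * tt (vf g w t) {p + 1, p + 2}) ∨
    (∀ (t : ℕ → ℕ) (m : ℕ), StrictMono t → (∀ i, t i + m ≤ t (i + 1)) →
      (m : K) * (tt (vf g w t) {p, p + 3} * tt (vf g w t) {p + 1, p + 2}) ≤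
        tt (vf g w t) {p, p + 1} * tt (vf g w t) {p + 2, p + 3})

/-- KON -/
def Stmt_Kon : Prop :=
  (∀ k : ℕ, ∃ g : Fin 3 → ℕ → Fin 5 → ℝ, GenK k g ∧ WrdK k g) →
  ∃ (K : Type) (_ : Field K) (_ : LinearOrder K) (_ : IsStrictOrderedRing K)
    (g : Fin 3 → ℕ → Fin 5 → K), Gen g ∧ Wrd g

/-- HOA -/
def Stmt_Hoa : Prop := ∀ (K : Type) [Field K] [LinearOrder K] [IsStrictOrderedRing K]
  (g : Fin 3 → ℕ → Fin 5 → K), Gen g → Wrd g →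
  ∃ g' : Fin 3 → ℕ → Fin 5 → K, Gen g' ∧ Wrd g' ∧ Hs g' ∧ Hc g'

/-- GRB -/
def Stmt_Grb : Prop := ∀ (K : Type) [Field K] [LinearOrder K] [IsStrictOrderedRing K]
  (g : Fin 3 → ℕ → Fin 5 → K), Gen g → Hs g → Hc g → Gr g

/-- NSC -/
def Stmt_Nsc : Prop := ∀ (K : Type) [Field K] [LinearOrder K] [IsStrictOrderedRing K]
  (g : Fin 3 → ℕ → Fin 5 → K), Gen g → Wrd g → Gr g →
  ∃ (L : Type) (_ : Field L) (_ : LinearOrder L) (_ : IsStrictOrderedRing L)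
    (g' : Fin 3 → ℕ → Fin 5 → L), Gen g' ∧ Wrd g' ∧ Nst g'

/-- HOB -/
def Stmt_Hob : Prop := ∀ (K : Type) [Field K] [LinearOrder K] [IsStrictOrderedRing K]
  (g : Fin 3 → ℕ → Fin 5 → K), Gen g → Wrd g → Nst g →
  ∃ g' : Fin 3 → ℕ → Fin 5 → K, Hcf g'

/-! ### Soundness of the clauses -/

def Stmt_Swd : Prop := ∀ (K : Type) [Field K] [LinearOrder K] [IsStrictOrderedRing K]
  (g : Fin 3 → ℕ → Fin 5 → K), Hcf g → ∀ s c i : ℕ, s < 2 → c ∈ RW → i < 5 →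
    Tr (rho g) (cWd s c i)

def Stmt_Sxr : Prop := ∀ (K : Type) [Field K] [LinearOrder K] [IsStrictOrderedRing K]
  (g : Fin 3 → ℕ → Fin 5 → K), ∀ k a b : ℕ, a < b → b < 243 → Tr (rho g) (cXr k a b)

def Stmt_Ssg : Prop := ∀ (K : Type) [Field K] [LinearOrder K] [IsStrictOrderedRing K]
  (g : Fin 3 → ℕ → Fin 5 → K), Hcf g → ∀ s u a b c d : ℕ, s < 2 → u < 2187 → a < b → b < c →
    c < d → d < 7 → Tr (rho g) (cSg s u a b c d)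

def Stmt_Sod : Prop := ∀ (K : Type) [Field K] [LinearOrder K] [IsStrictOrderedRing K]
  (g : Fin 3 → ℕ → Fin 5 → K), Hcf g → ∀ s u a b c d e : ℕ, s < 2 → u < 2187 → a < b → b < c →
    c < d → d < 7 → Tr (rho g) (cOd s u a b c d e)

def Stmt_Sex : Prop := ∀ (K : Type) [Field K] [LinearOrder K] [IsStrictOrderedRing K]
  (g : Fin 3 → ℕ → Fin 5 → K), Hcf g → ∀ u a b c d : ℕ, a < 7 → b < 7 → c < 7 → d < 7 →
    Tr (rho g) (cEx u a b c d)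

def Stmt_Sns : Prop := ∀ (K : Type) [Field K] [LinearOrder K] [IsStrictOrderedRing K]
  (g : Fin 3 → ℕ → Fin 5 → K), Hcf g → ∀ u p : ℕ, p < 4 → lt u (p + 1) = lt u p →
    lt u (p + 2) = lt u p → lt u (p + 3) = lt u p → Tr (rho g) (cNs u p)

/-- S7 -/
def Stmt_S7 : Prop := ∀ (K : Type) [Field K] [LinearOrder K] [IsStrictOrderedRing K]
  (g : Fin 3 → ℕ → Fin 5 → K), Hcf g → ∀ u a b c d e : ℕ, a < 7 → b < 7 → c < 7 → d < 7 →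
    e < 7 → a ≠ b → a ≠ c → a ≠ d → a ≠ e → b ≠ c → b ≠ d → b ≠ e → c ≠ d → c ≠ e → d ≠ e →
    Tr (rho g) (c7a u a b c d e) ∧ Tr (rho g) (c7b u a b c d e)

/-- S8 -/
def Stmt_S8 : Prop := ∀ (K : Type) [Field K] [LinearOrder K] [IsStrictOrderedRing K]
  (g : Fin 3 → ℕ → Fin 5 → K), Hcf g → ∀ u a b c d e : ℕ, a < 8 → b < 8 → c < 8 → d < 8 →
    e < 8 → a ≠ b → a ≠ c → a ≠ d → a ≠ e → b ≠ c → b ≠ d → b ≠ e → c ≠ d → c ≠ e → d ≠ e →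
    Tr (rho g) (c8a u a b c d e) ∧ Tr (rho g) (c8b u a b c d e)

/-! ### CHK: soundness of the checker -/

def Stmt_Chk : Prop := ∀ (r : ℕ → Prop), (∀ (h : ℕ) (c : List ℕ), axh h = some c → Tr r c) →
  ∀ D : List (List ℕ × List ℕ), run D [] = true → False

/-! ### PER, GAL, SGN: from the polytope to vectors -/

def Stmt_Per : Prop := ∀ (k : ℕ) (g : Fin 3 → ℕ → Fin 5 → ℝ), WrdK k g →
  ∃ g' : Fin 3 → ℕ → Fin 5 → ℝ, GenK k g' ∧ WrdK k g'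

/-- affine Gale duality -/
def Stmt_Gal : Prop := ∀ (T : Finset ℕ) (P : Finset ℕ → Prop) (d : ℕ) (v : ℕ → Fin d → ℝ),
  (∃ R : Finset ℕ, R ⊆ T ∧ R.card = 6 ∧ P R) →
  (∀ F : Finset ℕ, ((F ⊆ T ∧ ∃ R : Finset ℕ, R ⊆ T ∧ Disjoint R F ∧ R.card = 6 ∧ P R) ↔
    (F ⊆ T ∧ F ≠ T ∧ ∃ (y : Fin d → ℝ) (b : ℝ), (∀ i ∈ T, ∑ j, y j * v i j ≤ b) ∧
      ∀ i ∈ T, (i ∈ F ↔ ∑ j, y j * v i j = b)))) →
  ∃ g : ℕ → Fin 5 → ℝ, ∀ R : Finset ℕ, R ⊆ T → R.card = 6 → P R →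
    ∃ x : ℕ → ℝ, (∀ p ∈ R, 0 < x p) ∧ ∑ p ∈ R, x p • g p = 0 ∧
      ∀ z : ℕ → ℝ, ∑ p ∈ R, z p • g p = 0 → ∃ c : ℝ, ∀ p ∈ R, z p = c * x p

def Stmt_Sgn : Prop := ∀ (u : ℕ → Fin 5 → ℝ) (x : ℕ → ℝ), (∀ i < 6, 0 < x i) →
  ∑ i ∈ Finset.range 6, x i • u i = 0 →
  (∀ z : ℕ → ℝ, ∑ i ∈ Finset.range 6, z i • u i = 0 → ∃ c : ℝ, ∀ i < 6, z i = c * x i) →
  ∀ i < 5, br (fun j => u (dl i j)) * br (fun j => u (dl (i + 1) j)) < 0

/-! ### COX, LIS, LEX: the Coxeter group of type A_3 -/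

def Stmt_Cox : Prop := ∃ (M : CoxeterMatrix (Fin 3)) (W : Type) (_ : Group W)
  (cs : CoxeterSystem M W) (w₀ : W), Finite W ∧ cs.length w₀ = 6 ∧ (∀ u : W, cs.length u ≤ 6) ∧
  (∀ c ∈ RW, cs.wordProd ((List.range 6).map (lt c)) = w₀) ∧
  cs.wordProd [0, 1, 2, 0, 1, 2] ≠ w₀

def Stmt_Lis : Prop := ∀ (a : ℕ → Fin 3), (∀ i : ℕ, (a i : ℕ) = i % 3) →
  ∀ (c : ℕ) (t : ℕ → ℕ) (N : ℕ), StrictMono t → 3 * t 5 + 3 ≤ N →
  ∀ R : Finset ℕ, R = (Finset.range 6).image (fun j => 3 * t j + (lt c j : ℕ)) →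
    R.card = 6 ∧
    ((List.range N).filter (fun i => decide (i ∈ R))).map a = (List.range 6).map (lt c)

def Stmt_Lex : Prop := ∀ (M : CoxeterMatrix (Fin 3)) (W : Type) [Group W]
  (cs : CoxeterSystem M W) (w₀ : W) (a : ℕ → Fin 3) (N : ℕ), (∀ i : ℕ, (a i : ℕ) = i % 3) →
  18 ≤ N → cs.wordProd [0, 1, 2, 0, 1, 2] ≠ w₀ →
  ∀ S' : Finset ℕ, S' ⊆ Finset.range 18 → S'.card = 6 →
    cs.wordProd (((List.range N).filter (fun i => decide (i ∈ S'))).map a) = w₀ →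
    S' ≠ {0, 1, 2, 3, 4, 6} →
    ∃ m, m ∈ ({0, 1, 2, 3, 4, 6} : Finset ℕ) ∧ m ∉ S' ∧
      ∀ m' : ℕ, m' < m → (m' ∈ ({0, 1, 2, 3, 4, 6} : Finset ℕ) ↔ m' ∈ S')

/-- the frozen statement without the negation -/
def Fz : Prop := ∀ (n : ℕ) (hn : 0 < n) (M : CoxeterMatrix (Fin n)) (W : Type) [Group W]
    (cs : CoxeterSystem M W), Finite W →
  ∀ (σ : Equiv.Perm (Fin n)) (a : ℕ → Fin n),
    (∀ i : ℕ, a i = σ ⟨i % n, Nat.mod_lt i hn⟩) →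
  ∀ (k : ℕ), 1 ≤ k →
  ∀ w₀ : W, (∀ u : W, cs.length u ≤ cs.length w₀) →
  ∀ S : Finset ℕ,
    (S ⊆ Finset.range (n * cs.length w₀) ∧ S.card = cs.length w₀ ∧
      cs.wordProd (((List.range (n * (k + cs.length w₀))).filter
        (fun i => decide (i ∈ S))).map a) = w₀ ∧
      ∀ S' : Finset ℕ, S' ⊆ Finset.range (n * cs.length w₀) → S'.card = cs.length w₀ →
        cs.wordProd (((List.range (n * (k + cs.length w₀))).filter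
          (fun i => decide (i ∈ S'))).map a) = w₀ → S' ≠ S →
        ∃ m, m ∈ S ∧ m ∉ S' ∧ ∀ m' : ℕ, m' < m → (m' ∈ S ↔ m' ∈ S')) →
  ∀ T : Finset ℕ, T = Finset.range (k * n) ∪ S.image (fun s => s + k * n) →
  ∃ (d : ℕ) (v : ℕ → Fin d → ℝ), ∀ F : Finset ℕ,
    ((F ⊆ T ∧ ∃ R : Finset ℕ, R ⊆ T ∧ Disjoint R F ∧ R.card = cs.length w₀ ∧
        cs.wordProd (((List.range (n * (k + cs.length w₀))).filter
          (fun i => decide (i ∈ R))).map a) = w₀) ↔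
     (F ⊆ T ∧ F ≠ T ∧ ∃ (y : Fin d → ℝ) (b : ℝ),
        (∀ i ∈ T, ∑ j, y j * v i j ≤ b) ∧
        ∀ i ∈ T, (i ∈ F ↔ ∑ j, y j * v i j = b)))

/-- FRZ -/
def Stmt_Frz : Prop := Fz → ∀ k : ℕ, ∃ g : Fin 3 → ℕ → Fin 5 → ℝ, WrdK k g

end Pool.Agent.MCN
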