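import Pool.Agent.MCN.Stmts

/-! TTP: properties of `tt` -/

set_option autoImplicit false

namespace Pool.Agent.MCN

namespace TTP_

/-- the three four-point inequalities -/
def F {K : Type} [Field K] [LinearOrder K] (D : ℕ → ℕ → K) (a b c d : ℕ) : Prop :=
  D a b * D c d ≤ D a c * D b d + D a d * D b c ∧
  D a c * D b d ≤ D a b * D c d + D a d * D b c ∧
  D a d * D b c ≤ D a b * D c d + D a c * D b d

section

variable {K : Type} [Field K] [LinearOrder K] [IsStrictOrderedRing K]

theorem F_s1 {D : ℕ → ℕ → K} (hD : ∀ i j, D i j = D j i) {a b c d : ℕ} (h : F D a b c d) :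
    F D b a c d := by
  obtain ⟨h1, h2, h3⟩ := h
  unfold F
  rw [hD b a]
  refine ⟨?_, ?_, ?_⟩ <;> linarith

theorem F_s2 {D : ℕ → ℕ → K} (hD : ∀ i j, D i j = D j i) {a b c d : ℕ} (h : F D a b c d) :
    F D a c b d := by
  obtain ⟨h1, h2, h3⟩ := h
  unfold F
  rw [hD c b]
  refine ⟨?_, ?_, ?_⟩ <;> linarith

theorem F_s3 {D : ℕ → ℕ → K} (hD : ∀ i j, D i j = D j i) {a b c d : ℕ} (h : F D a b c d) :
    F D a b d c := by
  obtain ⟨h1, h2, h3⟩ := h
  unfold F
  rw [hD d c]
  refine ⟨?_, ?_, ?_⟩ <;> linarith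

/-- sorted quadruples suffice -/
theorem F_all {D : ℕ → ℕ → K} (hD : ∀ i j, D i j = D j i)
    (h : ∀ a b c d : ℕ, a < b → b < c → c < d → d < 7 → F D a b c d) :
    ∀ a b c d : ℕ, a < 7 → b < 7 → c < 7 → d < 7 → a ≠ b → a ≠ c → a ≠ d → b ≠ c → b ≠ d →
      c ≠ d → F D a b c d := by
  have h1 : ∀ a b c d : ℕ, a < b → b < c → c < 7 → d < 7 → a ≠ d → b ≠ d → c ≠ d →
      F D a b c d := by
    intro a b c d hab hbc hc hd had hbd hcd
    rcases Nat.lt_or_gt_of_ne hcd with h' | h'
    · exact h a b c d hab hbc h' hd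
    · rcases Nat.lt_or_gt_of_ne hbd with h'' | h''
      · exact F_s3 hD (h a b d c hab h'' h' hc)
      · rcases Nat.lt_or_gt_of_ne had with h3 | h3
        · exact F_s3 hD (F_s2 hD (h a d b c h3 h'' hbc hc))
        · exact F_s3 hD (F_s2 hD (F_s1 hD (h d a b c h3 hab hbc hc)))
  have h2 : ∀ a b c d : ℕ, a < b → b < 7 → c < 7 → d < 7 → a ≠ c → a ≠ d → b ≠ c → b ≠ d →
      c ≠ d → F D a b c d := by
    intro a b c d hab hb hc hd hac had hbc hbd hcd
    rcases Nat.lt_or_gt_of_ne hbc with h' | h'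
    · exact h1 a b c d hab h' hc hd had hbd hcd
    · rcases Nat.lt_or_gt_of_ne hac with h'' | h''
      · exact F_s2 hD (h1 a c b d h'' h' hb hd had hcd hbd)
      · exact F_s2 hD (F_s1 hD (h1 c a b d h'' hab hb hd hcd had hbd))
  intro a b c d ha hb hc hd hab hac had hbc hbd hcd
  rcases Nat.lt_or_gt_of_ne hab with h' | h'
  · exact h2 a b c d h' hb hc hd hac had hbc hbd hcd
  · exact F_s1 hD (h2 b a c d h' ha hc hd hbc hbd hac had hcd)

theorem tri {x y z : K} (h : x - y + z = 0) :
    |x| ≤ |y| + |z| ∧ |y| ≤ |x| + |z| ∧ |z| ≤ |x| + |y| := by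
  refine ⟨?_, ?_, ?_⟩
  · have : x = y + -z := by linear_combination h
    calc |x| = |y + -z| := by rw [← this]
      _ ≤ |y| + |-z| := abs_add_le y (-z)
      _ = |y| + |z| := by rw [abs_neg]
  · have : y = x + z := by linear_combination -h
    calc |y| = |x + z| := by rw [← this]
      _ ≤ |x| + |z| := abs_add_le x z
  · have : z = -x + y := by linear_combination h
    calc |z| = |-x + y| := by rw [← this]
      _ ≤ |-x| + |y| := abs_add_le (-x) y
      _ = |x| + |y| := by rw [abs_neg]

end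

end TTP_

open TTP_ in
theorem ttp_proof (h1 : Stmt_Plu) (h2 : Stmt_Nth) : Stmt_Ttp := by
  intro K _ _ _ q
  have e1 : ∀ (q : ℕ → Fin 5 → K) (a b : ℕ), a < b →
      tt q {a, b} = |br (fun j => q (dl b (dl a j)))| := by
    intro q a b hab
    unfold tt
    have : (fun j => q (Nat.nth (fun i => i ∉ ({a, b} : Finset ℕ)) j)) =
        fun j => q (dl b (dl a j)) := by
      funext j
      rw [h2.2 a b j hab]
    rw [this]
  refine ⟨e1 q, ?_, ?_⟩
  · intro e a b
    unfold tt
    have : (fun j => q (dl e (Nat.nth (fun i => i ∉ ({a, b} : Finset ℕ)) j))) =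
        fun j => q (Nat.nth (fun i => i ∉ ({e, dl e a, dl e b} : Finset ℕ)) j) := by
      funext j
      have h3 := h2.1 {a, b} e j
      rw [Finset.image_insert, Finset.image_singleton] at h3
      rw [h3]
    rw [this]
  · intro hne
    constructor
    · intro a b ha hb hab
      rcases Nat.lt_or_gt_of_ne hab with h | h
      · rw [e1 q a b h]
        exact abs_pos.2 (hne a b h hb)
      · rw [tt_pair_comm q a b, e1 q b a h]
        exact abs_pos.2 (hne b a h ha)
    · intro a b c d ha hb hc hd hab hac had hbc hbd hcd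
      have hD : ∀ i j : ℕ, (fun i j => tt q {i, j}) i j = (fun i j => tt q {i, j}) j i :=
        fun i j => tt_pair_comm q i j
      have key := F_all (D := fun i j => tt q {i, j}) hD (by
        intro a b c d hab hbc hcd hd
        have hp := h1 K q a b c d hab hbc hcd hd
        obtain ⟨t1, t2, t3⟩ := tri hp
        simp only [abs_mul] at t1 t2 t3
        unfold F
        simp only
        rw [e1 q a b hab, e1 q c d hcd, e1 q a c (hab.trans hbc), e1 q b d (hbc.trans hcd),
          e1 q a d (hab.trans (hbc.trans hcd)), e1 q b c hbc]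
        refine ⟨?_, ?_, ?_⟩ <;> linarith) a b c d ha hb hc hd hab hac had hbc hbd hcd
      exact key.1

end Pool.Agent.MCN
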